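import Mathlib
import Pool.Agent.W313.BMX.Stm

/-!
# Rational points on almost all twists of conic bundles

Definitions and statements of the parts (project HB, helper313).
-/

set_option autoImplicit false
set_option linter.all false

namespace Pool.Agent.W313.HB

open Finset Polynomial
open Pool.Agent.W313.BMX (Splits)

/-- The value of a polynomial at `t1 + M u`. -/
noncomputable def val (F : ℤ[X]) (t1 M u : ℕ) : ℤ := F.eval ((t1 : ℤ) + (M : ℤ) * (u : ℤ))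

/-- The product of the prime factors `≤ y` of `a`. -/
def sm (y a : ℕ) : ℕ := ∏ p ∈ a.primeFactors.filter (fun p => p ≤ y), p

/-- A non constant polynomial without multiple roots. -/
def Good (F : ℤ[X]) : Prop := (F.map (Int.castRingHom ℚ)).Separable ∧ 1 ≤ F.natDegree

/-! ### Character sums -/

/-- Part WEIL: complete character sums. -/
def S_WEIL : Prop := ∀ F : ℤ[X], Good F → ∃ (z0 : ℕ) (C : ℝ), 0 ≤ C ∧ ∀ q : ℕ, q.Prime → z0 ≤ q →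
  ∀ t1 M : ℕ, ¬ q ∣ M → |((∑ x ∈ range q, jacobiSym (val F t1 M x) q : ℤ) : ℝ)| ≤ C * √(q : ℝ)

/-- Part EXIST: a residue class modulo `p` at which `F` has a prescribed symbol. -/
def S_EXIST : Prop := ∀ F G : ℤ[X], Good F → G ≠ 0 → ∃ z0 : ℕ, ∀ p : ℕ, p.Prime → z0 ≤ p →
  ∀ σ : ℤ, (σ = 1 ∨ σ = -1) → ∃ x : ℕ, x < p ∧ jacobiSym (F.eval (x : ℤ)) p = σ ∧
    ¬ (p : ℤ) ∣ G.eval (x : ℤ)

open Classical in
/-- Part MULT: the values of `F` are in few pairs equal up to squares. -/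
def S_MULT : Prop := ∀ F : ℤ[X], Good F → ∃ (C : ℝ) (U0 : ℕ), 0 ≤ C ∧ ∀ U : ℕ, U0 ≤ U →
  ∀ M t1 : ℕ, 1 ≤ M → M ≤ U → t1 ≤ U →
    ((((Ioc U (2 * U)) ×ˢ (Ioc U (2 * U))).filter
      (fun x : ℕ × ℕ => IsSquare (val F t1 M x.1 * val F t1 M x.2))).card : ℝ) ≤ C * (U : ℝ) ^ (19 / 10 : ℝ)

/-- Part PER: sums of Jacobi symbols of a non square. -/
def S_PER : Prop := ∀ D : ℤ, ¬ IsSquare D → ∀ X Y : ℕ,
  |∑ n ∈ (Ioc X Y).filter (fun n => Odd n), jacobiSym D n| ≤ 4 * |D|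

open Classical in
/-- Part LSV: the elementary large sieve. -/
def S_LSV : Prop := ∀ (ι : Type) (s : Finset ι) (w : ι → ℝ) (m : ι → ℤ) (X Y : ℕ), X ≤ Y →
  ∑ n ∈ (Ioc X Y).filter (fun n => Odd n), (∑ i ∈ s, w i * (jacobiSym (m i) n : ℝ)) ^ 2 ≤
    ((Y : ℝ) - X) * (∑ x ∈ (s ×ˢ s).filter (fun x => IsSquare (m x.1 * m x.2)), |w x.1| * |w x.2|) +
      4 * (∑ i ∈ s, |w i| * |(m i : ℝ)|) ^ 2

/-! ### Sieve and divisors -/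

/-- Part SIZE: the size of the values. -/
def S_SIZE : Prop := ∀ F : ℤ[X], F ≠ 0 → ∃ C U0 : ℕ, ∀ U : ℕ, U0 ≤ U → ∀ M t1 u : ℕ, 1 ≤ M → M ≤ U →
  t1 ≤ U → U < u → u ≤ 2 * U → val F t1 M u ≠ 0 ∧ |val F t1 M u| ≤ (U : ℤ) ^ C ∧
    (0 < F.leadingCoeff → 0 < val F t1 M u)

/-- Part SIEVE: many values of `F` without small prime factors. -/
def S_SIEVE : Prop := ∀ F : ℤ[X], F ≠ 0 → ∃ z0 C : ℕ, ∀ K : ℝ, ∃ U0 : ℕ, ∀ U : ℕ, U0 ≤ U →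
  ∀ E : ℕ, 2 ≤ E → Real.log E ≤ K * √(Real.log U) → ∀ (M t1 : ℕ) (Q : Finset ℕ),
    (∀ q ∈ Q, q.Prime ∧ z0 ≤ q ∧ q ≤ E ∧ ¬ q ∣ M) →
    (U : ℝ) / (1 + Real.log E) ^ C ≤
      (((Ioc U (2 * U)).filter (fun u : ℕ => ∀ q ∈ Q, ¬ (q : ℤ) ∣ val F t1 M u)).card : ℝ)

open Classical in
/-- Part COMMON: few pairs of values of `F` have a large common prime factor. -/
def S_COMMON : Prop := ∀ F : ℤ[X], F ≠ 0 → ∃ (C : ℝ) (U0 E0 : ℕ), 0 ≤ C ∧ ∀ U : ℕ, U0 ≤ U →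
  ∀ E : ℕ, E0 ≤ E → ∀ M t1 : ℕ, 1 ≤ M → M ≤ U → t1 ≤ U →
    ((((Ioc U (2 * U)) ×ˢ (Ioc U (2 * U))).filter (fun x : ℕ × ℕ => ∃ q : ℕ, q.Prime ∧ E < q ∧ ¬ q ∣ M ∧
      (q : ℤ) ∣ val F t1 M x.1 ∧ (q : ℤ) ∣ val F t1 M x.2)).card : ℝ) ≤ C * ((U : ℝ) ^ 2 / E + U)

/-! ### Multiplicative statistics of integers -/

/-- Part MERT: the upper bound in the theorem of Mertens. -/
def S_MERT : Prop := ∃ C : ℝ, 0 ≤ C ∧ ∀ x : ℕ, 1 ≤ x →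
  ∑ p ∈ (Icc 1 x).filter Nat.Prime, Real.log p / p ≤ Real.log x + C

/-- Part EULER: the upper bound for the Euler product. -/
def S_EULER : Prop := ∃ C : ℝ, 0 ≤ C ∧ ∀ x : ℕ, 1 ≤ x →
  ∏ p ∈ (Icc 1 x).filter Nat.Prime, (1 + 1 / (p : ℝ)) ≤ C * (1 + Real.log x)

open Classical in
/-- The measure of `Bad` for the product measure on squarefree `y`-smooth numbers. -/
noncomputable def ms (y : ℕ) (Bad : ℕ → Prop) : ℝ :=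
  (∑ s ∈ (primorial y).divisors.filter Bad, 1 / (s : ℝ)) /
    ∏ p ∈ (Icc 1 y).filter Nat.Prime, (1 + 1 / (p : ℝ))

open Classical in
/-- Part TRANS: from the product measure to natural density. -/
def S_TRANS : Prop := ∃ C : ℝ, 0 ≤ C ∧ ∀ (Bad : ℕ → Prop) (y A : ℕ), 1 ≤ y → 2 ≤ A →
  (((Icc 1 A).filter (fun a : ℕ => Squarefree a ∧ Bad (sm y a))).card : ℝ) ≤
    √(A : ℝ) + C * A * (1 + Real.log y) / Real.log A + C * A * ms y Bad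

/-- Part PROD: the product measure of the numbers whose smooth part is large at all scales. -/
def S_PROD : Prop := ∀ ε c : ℝ, 0 < ε → 1 ≤ c → ∃ (J : ℕ) (R : ℝ), 1 ≤ R ∧ ∀ g : ℕ → ℝ, R ≤ g 0 →
  (∀ j, R * g j ≤ g (j + 1)) →
    ms ⌊Real.exp (c * g J)⌋₊ (fun s => ∀ j < J, Real.exp (g j) <
      (sm ⌊Real.exp (c * g j)⌋₊ s : ℝ)) ≤ ε

/-- Part GS: for almost all squarefree integers the part with small prime factors is small at one of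
finitely many scales. -/
def S_GS : Prop := ∀ ε c : ℝ, 0 < ε → 1 ≤ c → ∃ (J : ℕ) (R : ℝ), 1 ≤ R ∧ ∀ g : ℕ → ℝ, R ≤ g 0 →
  (∀ j, R * g j ≤ g (j + 1)) → ∀ A : ℕ, R * g J ≤ Real.log A →
    (((Icc 1 A).filter (fun a : ℕ => Squarefree a ∧
      ∀ j < J, Real.exp (g j) < (sm ⌊Real.exp (c * g j)⌋₊ a : ℝ))).card : ℝ) ≤ ε * A

/-- Part SMOOTH: few integers without a large prime factor. -/
def S_SMOOTH : Prop := ∀ ε : ℝ, 0 < ε → ∃ (η : ℝ) (A0 : ℕ), 0 < η ∧ η < 1 ∧ ∀ A : ℕ, A0 ≤ A →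
  (((Icc 1 A).filter (fun a : ℕ => Squarefree a ∧
    ∀ p : ℕ, p ∈ a.primeFactors → (p : ℝ) ≤ (A : ℝ) ^ η)).card : ℝ) ≤ ε * A

/-- Part OMEGA: few integers with many prime factors. -/
def S_OMEGA : Prop := ∀ ε : ℝ, 0 < ε → ∃ (K : ℝ) (A0 : ℕ), 1 ≤ K ∧ ∀ A : ℕ, A0 ≤ A →
  (((Icc 1 A).filter (fun a : ℕ => K * Real.log (Real.log A) < (a.primeFactors.card : ℝ))).card : ℝ) ≤
    ε * A

open Classical in
/-- Part COUNT: integers with a prime factor which is bad for the product of the smaller ones. -/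
def S_COUNT : Prop := ∀ (bad : ℕ → ℕ → Prop) (δ : ℝ) (y A : ℕ), 0 ≤ δ → 1 ≤ y → 2 ≤ A →
  (∀ b B : ℕ, y ≤ B →
    (((Ioc B (2 * B)).filter (fun p => p.Prime ∧ bad b p)).card : ℝ) ≤ δ * B) →
  (((Icc 1 A).filter (fun a : ℕ => Squarefree a ∧ ∃ p ∈ a.primeFactors, y < p ∧
    bad (∏ q ∈ a.primeFactors.filter (fun q => q < p), q) p)).card : ℝ) ≤
      4 * δ * A * (1 + Real.log A) ^ 2

open Classical in
/-- Part COUNT2: integers `b p` with `p` bad for `b`. -/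
def S_COUNT2 : Prop := ∀ (bad : ℕ → ℕ → Prop) (δ : ℝ) (X0 A : ℕ), 0 ≤ δ → 1 ≤ X0 → 2 ≤ A →
  (∀ b X : ℕ, X0 ≤ X →
    (((Icc 1 X).filter (fun p => p.Prime ∧ bad b p)).card : ℝ) ≤ δ * X) →
  (((Icc 1 A).filter (fun a : ℕ => ∃ b p : ℕ, a = b * p ∧ p.Prime ∧ b * X0 ≤ A ∧ bad b p)).card : ℝ) ≤
      δ * A * (1 + Real.log A)

/-! ### Conics over the rational numbers -/

/-- Part HM: the theorem of Hasse and Minkowski for conics. -/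
def S_HM : Prop := ∀ a b : ℤ, a ≠ 0 → b ≠ 0 → Splits (a : ℝ) (b : ℝ) →
  (∀ (p : ℕ) [Fact p.Prime], Splits (a : ℚ_[p]) (b : ℚ_[p])) → Splits (a : ℚ) (b : ℚ)

/-- Part BILO: Hilbert symbols at odd primes are bilinear. -/
def S_BILO : Prop := ∀ (p : ℕ) [Fact p.Prime], p ≠ 2 → ∀ a b c : ℤ, a ≠ 0 → b ≠ 0 → c ≠ 0 →
  (Splits (a : ℚ_[p]) ((b * c : ℤ) : ℚ_[p]) ↔
    (Splits (a : ℚ_[p]) (b : ℚ_[p]) ↔ Splits (a : ℚ_[p]) (c : ℚ_[p])))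

/-- Part BILT: Hilbert symbols at `2` are bilinear. -/
def S_BILT : Prop := ∀ a b c : ℤ, a ≠ 0 → b ≠ 0 → c ≠ 0 →
  (Splits (a : ℚ_[2]) ((b * c : ℤ) : ℚ_[2]) ↔
    (Splits (a : ℚ_[2]) (b : ℚ_[2]) ↔ Splits (a : ℚ_[2]) (c : ℚ_[2])))

/-- Part PF: the product formula for Hilbert symbols. -/
def S_PF : Prop := ∀ a b : ℤ, a ≠ 0 → b ≠ 0 → ∀ (q : ℕ) [Fact q.Prime], Splits (a : ℝ) (b : ℝ) →
  (∀ (p : ℕ) [Fact p.Prime], p ≠ q → Splits (a : ℚ_[p]) (b : ℚ_[p])) →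
  Splits (a : ℚ_[q]) (b : ℚ_[q])

/-! ### The one variable theorem -/

open Classical in
/-- Part CORE: the theorem for one variable. -/
def S_CORE : Prop := ∀ P1 P2 : ℤ[X], Good (P1 * P2) → (0 < P1.leadingCoeff ∨ 0 < P2.leadingCoeff) →
  ∃ z0 : ℕ, ∀ N : ℕ, 1 ≤ N → (∀ p : ℕ, p.Prime → p ≤ z0 → p ∣ N) → ∀ ε : ℝ, 0 < ε →
  ∃ A0 : ℕ, ∀ A : ℕ, A0 ≤ A →
    (((Icc 1 A).filter (fun a : ℕ => Squarefree a ∧ ∃ t0 : ℕ,
      (∀ (p : ℕ) [Fact p.Prime], p ∣ N → ∀ t : ℤ, (N : ℤ) ∣ t - t0 → (P1 * P2).eval t ≠ 0 →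
        Splits ((((a : ℤ) * P1.eval t : ℤ)) : ℚ_[p]) ((((a : ℤ) * P2.eval t : ℤ)) : ℚ_[p])) ∧
      ¬ ∃ t : ℤ, (N : ℤ) ∣ t - t0 ∧ (P1 * P2).eval t ≠ 0 ∧
        Splits ((((a : ℤ) * P1.eval t : ℤ)) : ℚ) ((((a : ℤ) * P2.eval t : ℤ)) : ℚ))).card : ℝ) ≤
      ε * A

end Pool.Agent.W313.HB
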