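import Mathlib
import Pool.Agent.W313.HB.Stm

/-!
# Rational points on almost all twists of conic bundles: second list of statements

Project HB (helper313).
-/

set_option autoImplicit false
set_option linter.all false

namespace Pool.Agent.W313.HB

open Finset Polynomial
open Pool.Agent.W313.BMX (Splits)

/-! ### Consequences of the large sieve -/

open Classical in
/-- Part BADC: few primes `p` have a biased symbol on a given set of values of `F`. -/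
def S_BADC : Prop := ∀ F : ℤ[X], Good F → ∃ C U0 : ℕ, ∀ U : ℕ, U0 ≤ U → ∀ M t1 : ℕ, 1 ≤ M → M ≤ U →
  t1 ≤ U → ∀ G : Finset ℕ, G ⊆ Ioc U (2 * U) → ∀ B : ℕ, U ^ C ≤ B →
    (((Ioc B (2 * B)).filter (fun p : ℕ => p.Prime ∧
      (G.card : ℝ) / 2 < |((∑ u ∈ G, jacobiSym (val F t1 M u) p : ℤ) : ℝ)|)).card : ℝ) *
        (G.card : ℝ) ^ 2 ≤ B * (U : ℝ) ^ (39 / 20 : ℝ)

open Classical in
/-- Part LARGE: mean squares of sums over the divisors of the values of `F` without small prime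
factors. -/
def S_LARGE : Prop := ∀ F : ℤ[X], F ≠ 0 → ∃ (C : ℝ) (C' U0 E0 : ℕ), 0 ≤ C ∧ ∀ U : ℕ, U0 ≤ U →
  ∀ E : ℕ, E0 ≤ E → ∀ M t1 : ℕ, 1 ≤ M → M ≤ U → t1 ≤ U →
  ∀ (I : Finset (ℕ × ℕ)) (c : ℕ × ℕ → ℝ) (T : ℕ), T ≤ U → (∀ x ∈ I, |c x| ≤ T) →
    (∀ x ∈ I, x.1 ∈ Ioc U (2 * U) ∧ Odd x.2 ∧ Squarefree x.2 ∧ 1 < x.2 ∧
      (x.2 : ℤ) ∣ val F t1 M x.1 ∧ ∀ q : ℕ, q.Prime → q ∣ x.2 → E < q ∧ ¬ q ∣ M) →
    (∀ u : ℕ, (I.filter (fun x => x.1 = u)).card ≤ T) →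
    ∀ X : ℕ, ∑ n ∈ (Icc 1 X).filter (fun n => Odd n),
      (∑ x ∈ I, c x * (jacobiSym (n : ℤ) x.2 : ℝ)) ^ 2 ≤
        C * X * (T : ℝ) ^ 3 * ((U : ℝ) ^ 2 / E + U) + (U : ℝ) ^ C'

/-! ### The one variable theorem: analytic part -/

/-- The local conditions at the primes not dividing `N`, except for `ps`. -/
def Cond1 (P1 P2 : ℤ[X]) (N a ps : ℕ) (t : ℤ) : Prop :=
  P1.eval t ≠ 0 ∧ P2.eval t ≠ 0 ∧ (0 < P1.eval t ∨ 0 < P2.eval t) ∧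
  (∀ p : ℕ, p.Prime → ¬ p ∣ N → p ∣ a → p ≠ ps → jacobiSym (-(P1.eval t * P2.eval t)) p = 1) ∧
  (∀ q : ℕ, q.Prime → ¬ q ∣ N → ¬ q ∣ a → (q : ℤ) ∣ P1.eval t → jacobiSym (a * P2.eval t) q = 1) ∧
  (∀ q : ℕ, q.Prime → ¬ q ∣ N → ¬ q ∣ a → (q : ℤ) ∣ P2.eval t → jacobiSym (a * P1.eval t) q = 1)

open Classical in
/-- Part ANA: the analytic part of the theorem for one variable. -/
def S_ANA : Prop := ∀ P1 P2 : ℤ[X], Good (P1 * P2) → (0 < P1.leadingCoeff ∨ 0 < P2.leadingCoeff) →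
  ∃ z0 : ℕ, ∀ N : ℕ, 1 ≤ N → (∀ p : ℕ, p.Prime → p ≤ z0 → p ∣ N) → ∀ ε : ℝ, 0 < ε →
  ∃ A0 : ℕ, ∀ A : ℕ, A0 ≤ A →
    (((Icc 1 A).filter (fun a : ℕ => Squarefree a ∧ ∃ t0 : ℕ,
      ¬ ∃ (ps : ℕ) (t : ℤ), ps.Prime ∧ ¬ ps ∣ N ∧ (N : ℤ) ∣ t - t0 ∧ Cond1 P1 P2 N a ps t)).card : ℝ) ≤
      ε * A

/-! ### From several variables to one variable -/

/-- Part EXISTU: uniform version of EXIST. -/
def S_EXISTU : Prop := ∀ d : ℕ, ∃ z0 : ℕ, ∀ p : ℕ, p.Prime → z0 ≤ p → ∀ F : ℤ[X],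
  F.natDegree ≤ d → 1 ≤ (F.map (Int.castRingHom (ZMod p))).natDegree →
  (F.map (Int.castRingHom (ZMod p))).Separable → ∀ σ : ℤ, (σ = 1 ∨ σ = -1) →
    ∃ x : ℕ, x < p ∧ jacobiSym (F.eval (x : ℤ)) p = σ

/-- The restriction of a polynomial to the line `w + t v`. -/
noncomputable def lineP {n : ℕ} (F : MvPolynomial (Fin (n + 1)) ℤ) (w v : Fin (n + 1) → ℤ) : ℤ[X] :=
  MvPolynomial.aeval (fun i => (C (w i) + C (v i) * X : ℤ[X])) F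

/-- Part LDEG: the degree and the leading coefficient on a line. -/
def S_LDEG : Prop := ∀ (n D : ℕ) (F : MvPolynomial (Fin (n + 1)) ℤ), F.IsHomogeneous D →
  ∀ w v : Fin (n + 1) → ℤ, MvPolynomial.eval v F ≠ 0 →
    (lineP F w v).natDegree = D ∧ (lineP F w v).leadingCoeff = MvPolynomial.eval v F ∧
    ∀ t : ℤ, (lineP F w v).eval t = MvPolynomial.eval (fun i => w i + t * v i) F

/-- Part DISC: the discriminant of the restriction to the lines with a given direction. -/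
def S_DISC : Prop := ∀ (n D : ℕ) (F : MvPolynomial (Fin (n + 1)) ℤ), F.IsHomogeneous D →
  Squarefree (MvPolynomial.map (Int.castRingHom ℚ) F) → ∀ v : Fin (n + 1) → ℤ,
  MvPolynomial.eval v F ≠ 0 → ∃ r : MvPolynomial (Fin (n + 1)) ℤ, r ≠ 0 ∧
    ∀ w : Fin (n + 1) → ℤ, ∃ a b : ℤ[X],
      a * lineP F w v + b * derivative (lineP F w v) = C (MvPolynomial.eval w r)

/-- Part CHOOSE: a point in a residue class at which the value of `r` has few small prime factors. -/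
def S_CHOOSE : Prop := ∀ (n : ℕ) (r : MvPolynomial (Fin (n + 1)) ℤ), r ≠ 0 → ∃ z0 : ℕ, ∀ N : ℕ,
  1 ≤ N → (∀ p : ℕ, p.Prime → p ≤ z0 → p ∣ N) → ∀ (x : Fin (n + 1) → ℤ) (ε : ℝ), 0 < ε →
    ∃ w : Fin (n + 1) → ℤ, (∀ i, (N : ℤ) ∣ w i - x i) ∧ MvPolynomial.eval w r ≠ 0 ∧
      ∑ p ∈ (MvPolynomial.eval w r).natAbs.primeFactors.filter (fun p => ¬ p ∣ N), 1 / (p : ℝ) ≤ ε

/-- The conic bundle `z ^ 2 = a G1(x) u ^ 2 + b G2(x) v ^ 2` has a point over `K` in a smooth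
fibre. -/
def HasP {n : ℕ} (G1 G2 : MvPolynomial (Fin (n + 1)) ℤ) (a b : ℤ) (K : Type) [Field K] : Prop :=
  ∃ x : Fin (n + 1) → K, MvPolynomial.aeval x G1 ≠ 0 ∧ MvPolynomial.aeval x G2 ≠ 0 ∧
    Splits ((a : K) * MvPolynomial.aeval x G1) ((b : K) * MvPolynomial.aeval x G2)

/-- Part TYPE: local points come from residue classes with a bounded modulus. -/
def S_TYPE : Prop := ∀ (n d1 d2 : ℕ) (G1 G2 : MvPolynomial (Fin (n + 1)) ℤ),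
  G1.IsHomogeneous (2 * d1) → G2.IsHomogeneous (2 * d2) → ∀ (p : ℕ) [Fact p.Prime], ∃ K : ℕ,
  ∀ a b : ℤ, Squarefree a → Squarefree b → HasP G1 G2 a b ℚ_[p] → ∃ x0 : Fin (n + 1) → ℕ,
    (∀ i, x0 i < p ^ K) ∧ ∀ x : Fin (n + 1) → ℤ, (∀ i, ((p ^ K : ℕ) : ℤ) ∣ x i - x0 i) →
      MvPolynomial.eval x G1 ≠ 0 ∧ MvPolynomial.eval x G2 ≠ 0 ∧
      Splits ((((a * MvPolynomial.eval x G1 : ℤ))) : ℚ_[p]) ((((b * MvPolynomial.eval x G2 : ℤ))) : ℚ_[p])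

/-- Part REALT: real points give integral directions. -/
def S_REALT : Prop := ∀ (n d1 d2 : ℕ) (G1 G2 : MvPolynomial (Fin (n + 1)) ℤ),
  G1.IsHomogeneous (2 * d1) → G2.IsHomogeneous (2 * d2) → ∀ a b : ℤ, 0 < a → 0 < b →
  HasP G1 G2 a b ℝ → ∃ v : Fin (n + 1) → ℤ, MvPolynomial.eval v G1 ≠ 0 ∧
    MvPolynomial.eval v G2 ≠ 0 ∧ (0 < MvPolynomial.eval v G1 ∨ 0 < MvPolynomial.eval v G2)

open Classical in
/-- The theorem in several variables: almost all twists satisfy the Hasse principle. -/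
def S_T1 : Prop := ∀ (n α β : ℕ) (A B : MvPolynomial (Fin (n + 1)) ℤ),
  A.IsHomogeneous (2 * α) → B.IsHomogeneous (2 * β) → 1 ≤ α + β →
  Squarefree (MvPolynomial.map (Int.castRingHom ℚ) (A * B)) → ∀ ε : ℝ, 0 < ε →
  ∃ H0 : ℕ, ∀ H : ℕ, H0 ≤ H →
    (((Icc 1 H).filter (fun a : ℕ => Squarefree a ∧ HasP A B (a : ℤ) (a : ℤ) ℝ ∧
      (∀ (p : ℕ) [Fact p.Prime], HasP A B (a : ℤ) (a : ℤ) ℚ_[p]) ∧
      ¬ HasP A B (a : ℤ) (a : ℤ) ℚ)).card : ℝ) ≤ ε * H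

end Pool.Agent.W313.HB
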