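import Mathlib
import Pool.Agent.W313.HB.Stm2

/-!
# Rational points on almost all twists of conic bundles: third list of statements

Project HB (helper313): weak approximation and two twisting parameters.
-/

set_option autoImplicit false
set_option linter.all false

namespace Pool.Agent.W313.HB

open Finset Polynomial
open Pool.Agent.W313.BMX (Splits)

/-! ### The one variable theorem with large solutions -/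

open Classical in
/-- Part COREW: the theorem for one variable, with `t` larger than a given bound. -/
def S_COREW : Prop := ∀ P1 P2 : ℤ[X], Good (P1 * P2) →
  (0 < P1.leadingCoeff ∨ 0 < P2.leadingCoeff) →
  ∃ z0 : ℕ, ∀ N : ℕ, 1 ≤ N → (∀ p : ℕ, p.Prime → p ≤ z0 → p ∣ N) → ∀ (T0 : ℤ) (ε : ℝ), 0 < ε →
  ∃ A0 : ℕ, ∀ A : ℕ, A0 ≤ A →
    (((Icc 1 A).filter (fun a : ℕ => Squarefree a ∧ ∃ t0 : ℕ,
      (∀ (p : ℕ) [Fact p.Prime], p ∣ N → ∀ t : ℤ, (N : ℤ) ∣ t - t0 → (P1 * P2).eval t ≠ 0 →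
        Splits ((((a : ℤ) * P1.eval t : ℤ)) : ℚ_[p]) ((((a : ℤ) * P2.eval t : ℤ)) : ℚ_[p])) ∧
      ¬ ∃ t : ℤ, (N : ℤ) ∣ t - t0 ∧ T0 ≤ t ∧ (P1 * P2).eval t ≠ 0 ∧
        Splits ((((a : ℤ) * P1.eval t : ℤ)) : ℚ) ((((a : ℤ) * P2.eval t : ℤ)) : ℚ))).card : ℝ) ≤
      ε * A

/-! ### Weak approximation -/

/-- The conic bundle `z ^ 2 = a G1(x) u ^ 2 + b G2(x) v ^ 2` has a point over `K` in a smooth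
fibre over a point of `Ω`. -/
def HasPW {n : ℕ} (G1 G2 : MvPolynomial (Fin (n + 1)) ℤ) (a b : ℤ) {K : Type} [Field K]
    (Ω : Set (Fin (n + 1) → K)) : Prop :=
  ∃ x ∈ Ω, MvPolynomial.aeval x G1 ≠ 0 ∧ MvPolynomial.aeval x G2 ≠ 0 ∧
    Splits ((a : K) * MvPolynomial.aeval x G1) ((b : K) * MvPolynomial.aeval x G2)

/-- There is a rational point in a smooth fibre over a point of the given open sets. -/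
def GlobW {n : ℕ} (G1 G2 : MvPolynomial (Fin (n + 1)) ℤ) (a b : ℤ) (Ωr : Set (Fin (n + 1) → ℝ))
    (Ω : ∀ p : Nat.Primes, Set (Fin (n + 1) → ℚ_[(p : ℕ)])) : Prop :=
  ∃ x : Fin (n + 1) → ℚ, (fun i => (x i : ℝ)) ∈ Ωr ∧
    (∀ p : Nat.Primes, (fun i => (x i : ℚ_[(p : ℕ)])) ∈ Ω p) ∧
    MvPolynomial.aeval x G1 ≠ 0 ∧ MvPolynomial.aeval x G2 ≠ 0 ∧
    Splits ((a : ℚ) * MvPolynomial.aeval x G1) ((b : ℚ) * MvPolynomial.aeval x G2)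

/-- Part TYPEW: local points come from residue classes with a bounded modulus. -/
def S_TYPEW : Prop := ∀ (n d1 d2 : ℕ) (G1 G2 : MvPolynomial (Fin (n + 1)) ℤ),
  G1.IsHomogeneous (2 * d1) → G2.IsHomogeneous (2 * d2) → ∀ (p : ℕ) [Fact p.Prime]
  (Ω : Set (Fin (n + 1) → ℚ_[p])), IsOpen Ω → ∃ K k : ℕ,
  ∀ a b : ℤ, Squarefree a → Squarefree b → HasPW G1 G2 a b Ω → ∃ x0 : Fin (n + 1) → ℕ,
    (∀ i, x0 i < p ^ K) ∧ ∀ x : Fin (n + 1) → ℤ, (∀ i, ((p ^ K : ℕ) : ℤ) ∣ x i - x0 i) →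
      MvPolynomial.eval x G1 ≠ 0 ∧ MvPolynomial.eval x G2 ≠ 0 ∧
      Splits ((((a * MvPolynomial.eval x G1 : ℤ))) : ℚ_[p])
        ((((b * MvPolynomial.eval x G2 : ℤ))) : ℚ_[p]) ∧
      ∀ μ : ℚ_[p], ‖μ * (p : ℚ_[p]) ^ k - 1‖ ≤ (p : ℝ) ^ (-(K : ℤ)) →
        (fun i => μ * (x i : ℚ_[p])) ∈ Ω

/-- Part REALTW: real points give integral directions. -/
def S_REALTW : Prop := ∀ (n d1 d2 : ℕ) (G1 G2 : MvPolynomial (Fin (n + 1)) ℤ),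
  G1.IsHomogeneous (2 * d1) → G2.IsHomogeneous (2 * d2) → ∀ a b : ℤ, 0 < a → 0 < b →
  ∀ Ω : Set (Fin (n + 1) → ℝ), IsOpen Ω → HasPW G1 G2 a b Ω →
  ∃ (v : Fin (n + 1) → ℤ) (D : ℕ) (κ : ℝ), 1 ≤ D ∧ 0 < κ ∧ MvPolynomial.eval v G1 ≠ 0 ∧
    MvPolynomial.eval v G2 ≠ 0 ∧ (0 < MvPolynomial.eval v G1 ∨ 0 < MvPolynomial.eval v G2) ∧
    ∀ y : Fin (n + 1) → ℝ, (∀ i, |y i - (v i : ℝ) / D| < κ) → y ∈ Ω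

/-- Part QAPP: approximation by rational numbers. -/
def S_QAPP : Prop := ∀ (S : Finset Nat.Primes) (K k : Nat.Primes → ℕ) (r κ : ℝ), 0 < r → 0 < κ →
  ∃ μ : ℚ, |(μ : ℝ) / r - 1| < κ ∧ ∀ p ∈ S,
    ‖(μ : ℚ_[(p : ℕ)]) * ((p : ℕ) : ℚ_[(p : ℕ)]) ^ k p - 1‖ ≤ ((p : ℕ) : ℝ) ^ (-(K p : ℤ))

open Classical in
/-- The theorem in several variables with one twisting parameter and weak approximation. -/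
def S_T1W : Prop := ∀ (n α β : ℕ) (A B : MvPolynomial (Fin (n + 1)) ℤ),
  A.IsHomogeneous (2 * α) → B.IsHomogeneous (2 * β) → 1 ≤ α + β →
  Squarefree (MvPolynomial.map (Int.castRingHom ℚ) (A * B)) →
  ∀ (Ωr : Set (Fin (n + 1) → ℝ)) (Ω : ∀ p : Nat.Primes, Set (Fin (n + 1) → ℚ_[(p : ℕ)])),
  IsOpen Ωr → (∀ p, IsOpen (Ω p)) → {p : Nat.Primes | Ω p ≠ Set.univ}.Finite →
  ∀ ε : ℝ, 0 < ε → ∃ H0 : ℕ, ∀ H : ℕ, H0 ≤ H →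
    (((Icc 1 H).filter (fun a : ℕ => Squarefree a ∧ HasPW A B (a : ℤ) (a : ℤ) Ωr ∧
      (∀ p : Nat.Primes, HasPW A B (a : ℤ) (a : ℤ) (Ω p)) ∧
      ¬ GlobW A B (a : ℤ) (a : ℤ) Ωr Ω)).card : ℝ) ≤ ε * H

/-! ### Two twisting parameters -/

/-- The local conditions at the primes not dividing `N`, except for `ps`, for the conic
`a P1 u ^ 2 + b P2 v ^ 2 = P3 w ^ 2`. -/
def Cond2 (P1 P2 P3 : ℤ[X]) (N a b ps : ℕ) (t : ℤ) : Prop :=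
  P1.eval t ≠ 0 ∧ P2.eval t ≠ 0 ∧ P3.eval t ≠ 0 ∧
  (0 < P1.eval t * P3.eval t ∨ 0 < P2.eval t * P3.eval t) ∧
  (∀ p : ℕ, p.Prime → ¬ p ∣ N → p ∣ a → p ≠ ps → jacobiSym (b * (P2.eval t * P3.eval t)) p = 1) ∧
  (∀ p : ℕ, p.Prime → ¬ p ∣ N → p ∣ b → p ≠ ps → jacobiSym (a * (P1.eval t * P3.eval t)) p = 1) ∧
  (∀ q : ℕ, q.Prime → ¬ q ∣ N → ¬ q ∣ a → ¬ q ∣ b → (q : ℤ) ∣ P1.eval t →
    jacobiSym (b * (P2.eval t * P3.eval t)) q = 1) ∧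
  (∀ q : ℕ, q.Prime → ¬ q ∣ N → ¬ q ∣ a → ¬ q ∣ b → (q : ℤ) ∣ P2.eval t →
    jacobiSym (a * (P1.eval t * P3.eval t)) q = 1) ∧
  (∀ q : ℕ, q.Prime → ¬ q ∣ N → ¬ q ∣ a → ¬ q ∣ b → (q : ℤ) ∣ P3.eval t →
    jacobiSym (-(a * b * (P1.eval t * P2.eval t))) q = 1)

open Classical in
/-- Part ANA2: the analytic part of the theorem for one variable and two parameters. -/
def S_ANA2 : Prop := ∀ P1 P2 P3 : ℤ[X], Good (P1 * P2 * P3) → 1 ≤ P3.natDegree →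
  (0 < (P1 * P3).leadingCoeff ∨ 0 < (P2 * P3).leadingCoeff) →
  ∃ z0 : ℕ, ∀ N : ℕ, 1 ≤ N → (∀ p : ℕ, p.Prime → p ≤ z0 → p ∣ N) → ∀ (T0 : ℤ) (ε : ℝ), 0 < ε →
  ∃ A0 : ℕ, ∀ A : ℕ, A0 ≤ A →
    ((((Icc 1 A) ×ˢ (Icc 1 A)).filter (fun x : ℕ × ℕ => Squarefree x.1 ∧ Squarefree x.2 ∧
      x.1.Coprime x.2 ∧ ∃ t0 : ℕ, ¬ ∃ (ps : ℕ) (t : ℤ), ps.Prime ∧ ¬ ps ∣ N ∧ (N : ℤ) ∣ t - t0 ∧
        T0 ≤ t ∧ Cond2 P1 P2 P3 N x.1 x.2 ps t)).card : ℝ) ≤ ε * (A : ℝ) ^ 2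

open Classical in
/-- Part CORE2: the theorem for one variable and two parameters. -/
def S_CORE2 : Prop := ∀ P1 P2 P3 : ℤ[X], Good (P1 * P2 * P3) → 1 ≤ P3.natDegree →
  (0 < (P1 * P3).leadingCoeff ∨ 0 < (P2 * P3).leadingCoeff) →
  ∃ z0 : ℕ, ∀ N : ℕ, 1 ≤ N → (∀ p : ℕ, p.Prime → p ≤ z0 → p ∣ N) → ∀ (T0 : ℤ) (ε : ℝ), 0 < ε →
  ∃ A0 : ℕ, ∀ A : ℕ, A0 ≤ A →
    ((((Icc 1 A) ×ˢ (Icc 1 A)).filter (fun x : ℕ × ℕ => Squarefree x.1 ∧ Squarefree x.2 ∧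
      x.1.Coprime x.2 ∧ ∃ t0 : ℕ,
      (∀ (p : ℕ) [Fact p.Prime], p ∣ N → ∀ t : ℤ, (N : ℤ) ∣ t - t0 → (P1 * P2 * P3).eval t ≠ 0 →
        Splits ((((x.1 : ℤ) * (P1 * P3).eval t : ℤ)) : ℚ_[p])
          ((((x.2 : ℤ) * (P2 * P3).eval t : ℤ)) : ℚ_[p])) ∧
      ¬ ∃ t : ℤ, (N : ℤ) ∣ t - t0 ∧ T0 ≤ t ∧ (P1 * P2 * P3).eval t ≠ 0 ∧
        Splits ((((x.1 : ℤ) * (P1 * P3).eval t : ℤ)) : ℚ)
          ((((x.2 : ℤ) * (P2 * P3).eval t : ℤ)) : ℚ))).card : ℝ) ≤ ε * (A : ℝ) ^ 2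

open Classical in
/-- Part GSP: good scales for pairs. -/
def S_GSP : Prop := ∀ ε c : ℝ, 0 < ε → 1 ≤ c → ∃ (J : ℕ) (R : ℝ), 1 ≤ R ∧ ∀ g : ℕ → ℝ, R ≤ g 0 →
  (∀ j, R * g j ≤ g (j + 1)) → ∀ A : ℕ, R * g J ≤ Real.log A →
    ((((Icc 1 A) ×ˢ (Icc 1 A)).filter (fun x : ℕ × ℕ => Squarefree x.1 ∧ Squarefree x.2 ∧
      ∀ j < J, ¬ ((sm ⌊Real.exp (c * g j)⌋₊ x.1 : ℝ) ≤ Real.exp (g j) ∧
        (sm ⌊Real.exp (c * g j)⌋₊ x.2 : ℝ) ≤ Real.exp (g j)))).card : ℝ) ≤ ε * (A : ℝ) ^ 2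

open Classical in
/-- Part LARGE3: mean squares of sums with the symbols of the divisors of `P1` and of `P1 P3`. -/
def S_LARGE3 : Prop := ∀ P1 P2 P3 : ℤ[X], Good (P1 * P2 * P3) → 1 ≤ P3.natDegree → ∀ N : ℕ, 1 ≤ N →
  (∀ q : ℕ, q.Prime → ¬ q ∣ N → ∀ x : ℤ, (q : ℤ) ∣ P1.eval x → ¬ (q : ℤ) ∣ P3.eval x) →
  ∃ (C : ℝ) (C' U0 E0 : ℕ), 0 ≤ C ∧ ∀ U : ℕ, U0 ≤ U → ∀ E : ℕ, E0 ≤ E →
  ∀ M t1 : ℕ, 1 ≤ M → M ≤ U → t1 ≤ U →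
  ∀ (I : Finset (ℕ × ℕ)) (c : ℕ × ℕ → ℝ) (T : ℕ), T ≤ U → (∀ x ∈ I, |c x| ≤ T) →
    (∀ x ∈ I, x.1 ∈ Ioc U (2 * U) ∧ Odd x.2 ∧ Squarefree x.2 ∧
      (∀ q : ℕ, q.Prime → q ∣ x.2 → ¬ q ∣ N ∧ (q : ℤ) ∣ val P1 t1 M x.1) ∧
      (∀ q : ℕ, q.Prime → ¬ q ∣ N → (q : ℤ) ∣ val (P1 * P2 * P3) t1 M x.1 → E < q ∧ ¬ q ∣ M)) →
    (∀ u : ℕ, (I.filter (fun x => x.1 = u)).card ≤ T) →
    ∀ X : ℕ, ∑ n ∈ (Icc 1 X).filter (fun n => Odd n),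
      (∑ x ∈ I, c x * ((jacobiSym (n : ℤ) x.2 : ℝ) *
        (jacobiSym (val (P1 * P3) t1 M x.1) n : ℝ))) ^ 2 ≤
        C * X * (T : ℝ) ^ 4 * ((U : ℝ) ^ 2 / E + (U : ℝ) ^ (39 / 20 : ℝ)) + (U : ℝ) ^ C'

open Classical in
/-- The theorem in several variables with two coprime positive twisting parameters and weak
approximation. -/
def S_T2W : Prop := ∀ (n α β γ : ℕ) (A B C : MvPolynomial (Fin (n + 1)) ℤ),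
  A.IsHomogeneous α → B.IsHomogeneous β → C.IsHomogeneous γ → Even (α + γ) → Even (β + γ) →
  1 ≤ γ → Squarefree (MvPolynomial.map (Int.castRingHom ℚ) (A * B * C)) →
  ∀ (Ωr : Set (Fin (n + 1) → ℝ)) (Ω : ∀ p : Nat.Primes, Set (Fin (n + 1) → ℚ_[(p : ℕ)])),
  IsOpen Ωr → (∀ p, IsOpen (Ω p)) → {p : Nat.Primes | Ω p ≠ Set.univ}.Finite →
  ∀ ε : ℝ, 0 < ε → ∃ H0 : ℕ, ∀ H : ℕ, H0 ≤ H →
    ((((Icc 1 H) ×ˢ (Icc 1 H)).filter (fun x : ℕ × ℕ => Squarefree x.1 ∧ Squarefree x.2 ∧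
      x.1.Coprime x.2 ∧ HasPW (A * C) (B * C) (x.1 : ℤ) (x.2 : ℤ) Ωr ∧
      (∀ p : Nat.Primes, HasPW (A * C) (B * C) (x.1 : ℤ) (x.2 : ℤ) (Ω p)) ∧
      ¬ GlobW (A * C) (B * C) (x.1 : ℤ) (x.2 : ℤ) Ωr Ω)).card : ℝ) ≤ ε * (H : ℝ) ^ 2

open Classical in
/-- The theorem in several variables with two twisting parameters and weak approximation: all pairs
of squarefree integers. -/
def S_T2F : Prop := ∀ (n α β γ : ℕ) (A B C : MvPolynomial (Fin (n + 1)) ℤ),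
  A.IsHomogeneous α → B.IsHomogeneous β → C.IsHomogeneous γ → Even (α + γ) → Even (β + γ) →
  1 ≤ γ → Squarefree (MvPolynomial.map (Int.castRingHom ℚ) (A * B * C)) →
  ∀ (Ωr : Set (Fin (n + 1) → ℝ)) (Ω : ∀ p : Nat.Primes, Set (Fin (n + 1) → ℚ_[(p : ℕ)])),
  IsOpen Ωr → (∀ p, IsOpen (Ω p)) → {p : Nat.Primes | Ω p ≠ Set.univ}.Finite →
  ∀ ε : ℝ, 0 < ε → ∃ H0 : ℕ, ∀ H : ℕ, H0 ≤ H →
    ((((Icc (-(H : ℤ)) H) ×ˢ (Icc (-(H : ℤ)) H)).filter (fun x : ℤ × ℤ => Squarefree x.1 ∧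
      Squarefree x.2 ∧ HasPW (A * C) (B * C) x.1 x.2 Ωr ∧
      (∀ p : Nat.Primes, HasPW (A * C) (B * C) x.1 x.2 (Ω p)) ∧
      ¬ GlobW (A * C) (B * C) x.1 x.2 Ωr Ω)).card : ℝ) ≤ ε * (H : ℝ) ^ 2

end Pool.Agent.W313.HB
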