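import Mathlib
import Pool.Agent.W313.HB.Stm3

/-!
# Rational points on almost all twists of conic bundles: fourth list of statements

Project HB (helper313): the twists with points everywhere locally have positive density, and the
theorems as limits of proportions.
-/

set_option autoImplicit false
set_option linter.all false

namespace Pool.Agent.W313.HB

open Finset Polynomial
open Pool.Agent.W313.BMX (Splits)

open Classical in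
/-- Part DPAIR: pairs of squarefree integers in residue classes, without large common prime
factors. -/
def S_DPAIR : Prop := ∀ (z K : ℕ) (a0 b0 : ℤ), 100 ≤ z → 2 ≤ K → Squarefree a0 → Squarefree b0 →
  ∃ c : ℝ, 0 < c ∧ ∃ H0 : ℕ, ∀ H : ℕ, H0 ≤ H → c * (H : ℝ) ^ 2 ≤
    ((((Icc (-(H : ℤ)) H) ×ˢ (Icc (-(H : ℤ)) H)).filter (fun x : ℤ × ℤ => Squarefree x.1 ∧
      Squarefree x.2 ∧ 0 < x.1 * a0 ∧ 0 < x.2 * b0 ∧ ((primorial z ^ K : ℕ) : ℤ) ∣ x.1 - a0 ∧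
      ((primorial z ^ K : ℕ) : ℤ) ∣ x.2 - b0 ∧
      ∀ p : ℕ, p.Prime → z < p → (p : ℤ) ∣ x.1 → ¬ (p : ℤ) ∣ x.2)).card : ℝ)

open Classical in
/-- Part DONE: squarefree integers in residue classes. -/
def S_DONE : Prop := ∀ (z K : ℕ) (a0 : ℤ), 100 ≤ z → 2 ≤ K → Squarefree a0 →
  ∃ c : ℝ, 0 < c ∧ ∃ H0 : ℕ, ∀ H : ℕ, H0 ≤ H → c * (H : ℝ) ≤
    (((Icc (-(H : ℤ)) H).filter (fun x : ℤ => Squarefree x ∧ 0 < x * a0 ∧
      ((primorial z ^ K : ℕ) : ℤ) ∣ x - a0)).card : ℝ)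

/-- Part ELSB2: local points at the large primes, two parameters. -/
def S_ELSB2 : Prop := ∀ (n α β γ : ℕ) (A B C : MvPolynomial (Fin (n + 1)) ℤ),
  A.IsHomogeneous α → B.IsHomogeneous β → C.IsHomogeneous γ → Even (α + γ) → Even (β + γ) →
  1 ≤ γ → Squarefree (MvPolynomial.map (Int.castRingHom ℚ) (A * B * C)) →
  ∃ z0 : ℕ, ∀ (p : ℕ) [Fact p.Prime], z0 ≤ p → ∀ a b : ℤ, Squarefree a → Squarefree b →
    ¬ ((p : ℤ) ∣ a ∧ (p : ℤ) ∣ b) →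
    HasPW (A * C) (B * C) a b (Set.univ : Set (Fin (n + 1) → ℚ_[p]))

/-- Part ELSB1: local points at the large primes, one parameter. -/
def S_ELSB1 : Prop := ∀ (n α β : ℕ) (A B : MvPolynomial (Fin (n + 1)) ℤ),
  A.IsHomogeneous (2 * α) → B.IsHomogeneous (2 * β) → 1 ≤ α + β →
  Squarefree (MvPolynomial.map (Int.castRingHom ℚ) (A * B)) →
  ∃ z0 : ℕ, ∀ (p : ℕ) [Fact p.Prime], z0 ≤ p → ∀ a : ℤ, Squarefree a →
    HasPW A B a a (Set.univ : Set (Fin (n + 1) → ℚ_[p]))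

/-- Part XAPP: a rational point in open sets at finitely many places. -/
def S_XAPP : Prop := ∀ (n : ℕ) (G : MvPolynomial (Fin (n + 1)) ℤ), G ≠ 0 →
  ∀ (Ωr : Set (Fin (n + 1) → ℝ)) (Ω : ∀ p : Nat.Primes, Set (Fin (n + 1) → ℚ_[(p : ℕ)])),
  IsOpen Ωr → (∀ p, IsOpen (Ω p)) → {p : Nat.Primes | Ω p ≠ Set.univ}.Finite →
  Ωr.Nonempty → (∀ p, (Ω p).Nonempty) →
  ∃ x : Fin (n + 1) → ℚ, (fun i => (x i : ℝ)) ∈ Ωr ∧
    (∀ p : Nat.Primes, (fun i => (x i : ℚ_[(p : ℕ)])) ∈ Ω p) ∧ MvPolynomial.aeval x G ≠ 0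

open Classical in
/-- The pairs of squarefree integers in `[-H, H]` for which the conic bundle
`z ^ 2 = a A C u ^ 2 + b B C v ^ 2` has local points over the given open sets. -/
noncomputable def locc2 {n : ℕ} (A B C : MvPolynomial (Fin (n + 1)) ℤ) (Ωr : Set (Fin (n + 1) → ℝ))
    (Ω : ∀ p : Nat.Primes, Set (Fin (n + 1) → ℚ_[(p : ℕ)])) (H : ℕ) : Finset (ℤ × ℤ) :=
  ((Icc (-(H : ℤ)) H) ×ˢ (Icc (-(H : ℤ)) H)).filter (fun x : ℤ × ℤ => Squarefree x.1 ∧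
    Squarefree x.2 ∧ HasPW (A * C) (B * C) x.1 x.2 Ωr ∧
    (∀ p : Nat.Primes, HasPW (A * C) (B * C) x.1 x.2 (Ω p)))

open Classical in
/-- The pairs with a rational point over the given open sets. -/
noncomputable def glob2 {n : ℕ} (A B C : MvPolynomial (Fin (n + 1)) ℤ) (Ωr : Set (Fin (n + 1) → ℝ))
    (Ω : ∀ p : Nat.Primes, Set (Fin (n + 1) → ℚ_[(p : ℕ)])) (H : ℕ) : Finset (ℤ × ℤ) :=
  ((Icc (-(H : ℤ)) H) ×ˢ (Icc (-(H : ℤ)) H)).filter (fun x : ℤ × ℤ => Squarefree x.1 ∧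
    Squarefree x.2 ∧ GlobW (A * C) (B * C) x.1 x.2 Ωr Ω)

/-- The theorem with two parameters as a limit of proportions. -/
def S_RATIO2 : Prop := ∀ (n α β γ : ℕ) (A B C : MvPolynomial (Fin (n + 1)) ℤ),
  A.IsHomogeneous α → B.IsHomogeneous β → C.IsHomogeneous γ → Even (α + γ) → Even (β + γ) →
  1 ≤ γ → Squarefree (MvPolynomial.map (Int.castRingHom ℚ) (A * B * C)) →
  ∀ (Ωr : Set (Fin (n + 1) → ℝ)) (Ω : ∀ p : Nat.Primes, Set (Fin (n + 1) → ℚ_[(p : ℕ)])),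
  IsOpen Ωr → (∀ p, IsOpen (Ω p)) → {p : Nat.Primes | Ω p ≠ Set.univ}.Finite →
  Ωr.Nonempty → (∀ p, (Ω p).Nonempty) →
  (∃ c : ℝ, 0 < c ∧ ∃ H0 : ℕ, ∀ H : ℕ, H0 ≤ H → c * (H : ℝ) ^ 2 ≤ ((locc2 A B C Ωr Ω H).card : ℝ)) ∧
  Filter.Tendsto (fun H : ℕ => ((glob2 A B C Ωr Ω H).card : ℝ) / ((locc2 A B C Ωr Ω H).card : ℝ))
    Filter.atTop (nhds 1)

open Classical in
/-- The squarefree integers in `[-H, H]` for which the conic bundle
`z ^ 2 = a A u ^ 2 + a B v ^ 2` has local points over the given open sets. -/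
noncomputable def locc1 {n : ℕ} (A B : MvPolynomial (Fin (n + 1)) ℤ) (Ωr : Set (Fin (n + 1) → ℝ))
    (Ω : ∀ p : Nat.Primes, Set (Fin (n + 1) → ℚ_[(p : ℕ)])) (H : ℕ) : Finset ℤ :=
  (Icc (-(H : ℤ)) H).filter (fun a : ℤ => Squarefree a ∧ HasPW A B a a Ωr ∧
    (∀ p : Nat.Primes, HasPW A B a a (Ω p)))

open Classical in
/-- The squarefree integers with a rational point over the given open sets. -/
noncomputable def glob1 {n : ℕ} (A B : MvPolynomial (Fin (n + 1)) ℤ) (Ωr : Set (Fin (n + 1) → ℝ))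
    (Ω : ∀ p : Nat.Primes, Set (Fin (n + 1) → ℚ_[(p : ℕ)])) (H : ℕ) : Finset ℤ :=
  (Icc (-(H : ℤ)) H).filter (fun a : ℤ => Squarefree a ∧ GlobW A B a a Ωr Ω)

/-- The theorem with one parameter as a limit of proportions. -/
def S_RATIO1 : Prop := ∀ (n α β : ℕ) (A B : MvPolynomial (Fin (n + 1)) ℤ),
  A.IsHomogeneous (2 * α) → B.IsHomogeneous (2 * β) → 1 ≤ α + β →
  Squarefree (MvPolynomial.map (Int.castRingHom ℚ) (A * B)) →
  ∀ (Ωr : Set (Fin (n + 1) → ℝ)) (Ω : ∀ p : Nat.Primes, Set (Fin (n + 1) → ℚ_[(p : ℕ)])),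
  IsOpen Ωr → (∀ p, IsOpen (Ω p)) → {p : Nat.Primes | Ω p ≠ Set.univ}.Finite →
  Ωr.Nonempty → (∀ p, (Ω p).Nonempty) →
  (∃ c : ℝ, 0 < c ∧ ∃ H0 : ℕ, ∀ H : ℕ, H0 ≤ H → c * (H : ℝ) ≤ ((locc1 A B Ωr Ω H).card : ℝ)) ∧
  Filter.Tendsto (fun H : ℕ => ((glob1 A B Ωr Ω H).card : ℝ) / ((locc1 A B Ωr Ω H).card : ℝ))
    Filter.atTop (nhds 1)

end Pool.Agent.W313.HB
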