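import Mathlib
import Pool.Agent.W313.HB.Stm4

/-!
# Rational points on almost all twists of conic bundles: fifth list of statements

Project HB (helper313): the twists `w ^ 2 = a (A u ^ 2 + 2 B u v + D v ^ 2)` of an arbitrary double
cover of `P ^ n x P ^ 1` of relative degree two.
-/

set_option autoImplicit false
set_option linter.all false

namespace Pool.Agent.W313.HB

open Finset Polynomial
open Pool.Agent.W313.BMX (Splits)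

/-- The local conditions at the primes not dividing `N`, except for `ps`, for
`w ^ 2 = a (PA u ^ 2 + 2 PB u v + PD v ^ 2)`. -/
def CondG (PA PB PD : ℤ[X]) (N a ps : ℕ) (t : ℤ) : Prop :=
  PA.eval t ≠ 0 ∧ (PB ^ 2 - PA * PD).eval t ≠ 0 ∧
  (0 < PA.eval t ∨ 0 < (PB ^ 2 - PA * PD).eval t) ∧
  (∀ p : ℕ, p.Prime → ¬ p ∣ N → p ∣ a → p ≠ ps → jacobiSym ((PB ^ 2 - PA * PD).eval t) p = 1) ∧
  (∀ q : ℕ, q.Prime → ¬ q ∣ N → ¬ q ∣ a → (q : ℤ) ∣ (PB ^ 2 - PA * PD).eval t →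
    ¬ (q : ℤ) ∣ PA.eval t → jacobiSym (a * PA.eval t) q = 1) ∧
  (∀ q : ℕ, q.Prime → ¬ q ∣ N → ¬ q ∣ a → (q : ℤ) ∣ (PB ^ 2 - PA * PD).eval t →
    (q : ℤ) ∣ PA.eval t → jacobiSym (a * PD.eval t) q = 1)

open Classical in
/-- Part ANAG: the analytic part of the theorem for one variable. -/
def S_ANAG : Prop := ∀ PA PB PD : ℤ[X], Good (PB ^ 2 - PA * PD) →
  (0 < PA.leadingCoeff ∨ 0 < (PB ^ 2 - PA * PD).leadingCoeff) →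
  ∃ z0 : ℕ, ∀ N : ℕ, 1 ≤ N → (∀ p : ℕ, p.Prime → p ≤ z0 → p ∣ N) → ∀ (T0 : ℤ) (ε : ℝ), 0 < ε →
  ∃ A0 : ℕ, ∀ A : ℕ, A0 ≤ A →
    (((Icc 1 A).filter (fun a : ℕ => Squarefree a ∧ ∃ t0 : ℕ,
      ¬ ∃ (ps : ℕ) (t : ℤ), ps.Prime ∧ ¬ ps ∣ N ∧ (N : ℤ) ∣ t - t0 ∧ T0 ≤ t ∧
        CondG PA PB PD N a ps t)).card : ℝ) ≤ ε * A

open Classical in
/-- Part COREG: the theorem for one variable. -/
def S_COREG : Prop := ∀ PA PB PD : ℤ[X], Good (PB ^ 2 - PA * PD) →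
  (0 < PA.leadingCoeff ∨ 0 < (PB ^ 2 - PA * PD).leadingCoeff) →
  ∃ z0 : ℕ, ∀ N : ℕ, 1 ≤ N → (∀ p : ℕ, p.Prime → p ≤ z0 → p ∣ N) → ∀ (T0 : ℤ) (ε : ℝ), 0 < ε →
  ∃ A0 : ℕ, ∀ A : ℕ, A0 ≤ A →
    (((Icc 1 A).filter (fun a : ℕ => Squarefree a ∧ ∃ t0 : ℕ,
      (∀ (p : ℕ) [Fact p.Prime], p ∣ N → ∀ t : ℤ, (N : ℤ) ∣ t - t0 →
        (PA * (PB ^ 2 - PA * PD)).eval t ≠ 0 →
        Splits ((((a : ℤ) * PA.eval t : ℤ)) : ℚ_[p])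
          ((((PB ^ 2 - PA * PD).eval t : ℤ)) : ℚ_[p])) ∧
      ¬ ∃ t : ℤ, (N : ℤ) ∣ t - t0 ∧ T0 ≤ t ∧ (PA * (PB ^ 2 - PA * PD)).eval t ≠ 0 ∧
        Splits ((((a : ℤ) * PA.eval t : ℤ)) : ℚ)
          ((((PB ^ 2 - PA * PD).eval t : ℤ)) : ℚ))).card : ℝ) ≤ ε * A

open Classical in
/-- The theorem in several variables. -/
def S_T1G : Prop := ∀ (n α δ : ℕ) (A B D : MvPolynomial (Fin (n + 1)) ℤ),
  A.IsHomogeneous (2 * α) → B.IsHomogeneous (α + δ) → D.IsHomogeneous (2 * δ) → 1 ≤ α + δ →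
  Squarefree (MvPolynomial.map (Int.castRingHom ℚ) (B ^ 2 - A * D)) →
  ∀ (Ωr : Set (Fin (n + 1) → ℝ)) (Ω : ∀ p : Nat.Primes, Set (Fin (n + 1) → ℚ_[(p : ℕ)])),
  IsOpen Ωr → (∀ p, IsOpen (Ω p)) → {p : Nat.Primes | Ω p ≠ Set.univ}.Finite →
  ∀ ε : ℝ, 0 < ε → ∃ H0 : ℕ, ∀ H : ℕ, H0 ≤ H →
    (((Icc 1 H).filter (fun a : ℕ => Squarefree a ∧ HasPW A (B ^ 2 - A * D) (a : ℤ) 1 Ωr ∧
      (∀ p : Nat.Primes, HasPW A (B ^ 2 - A * D) (a : ℤ) 1 (Ω p)) ∧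
      ¬ GlobW A (B ^ 2 - A * D) (a : ℤ) 1 Ωr Ω)).card : ℝ) ≤ ε * H

/-- Part ELSBG: local points at the large primes. -/
def S_ELSBG : Prop := ∀ (n α δ : ℕ) (A B D : MvPolynomial (Fin (n + 1)) ℤ),
  A.IsHomogeneous (2 * α) → B.IsHomogeneous (α + δ) → D.IsHomogeneous (2 * δ) → 1 ≤ α + δ →
  Squarefree (MvPolynomial.map (Int.castRingHom ℚ) (B ^ 2 - A * D)) →
  ∃ z0 : ℕ, ∀ (p : ℕ) [Fact p.Prime], z0 ≤ p → ∀ a : ℤ, Squarefree a →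
    HasPW A (B ^ 2 - A * D) a 1 (Set.univ : Set (Fin (n + 1) → ℚ_[p]))

/-- `w ^ 2 = a (A u ^ 2 + B u v + D v ^ 2)` has a point over `K` in a smooth fibre over a point of
`Ω`. -/
def PtW {n : ℕ} (A B D : MvPolynomial (Fin (n + 1)) ℤ) (a : ℤ) {K : Type} [Field K]
    (Ω : Set (Fin (n + 1) → K)) : Prop :=
  ∃ x ∈ Ω, MvPolynomial.aeval x (B ^ 2 - 4 * A * D) ≠ 0 ∧ ∃ u v w : K, (u ≠ 0 ∨ v ≠ 0 ∨ w ≠ 0) ∧
    w ^ 2 = (a : K) * (MvPolynomial.aeval x A * u ^ 2 + MvPolynomial.aeval x B * (u * v) +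
      MvPolynomial.aeval x D * v ^ 2)

/-- There is a rational point over the given open sets. -/
def PtG {n : ℕ} (A B D : MvPolynomial (Fin (n + 1)) ℤ) (a : ℤ) (Ωr : Set (Fin (n + 1) → ℝ))
    (Ω : ∀ p : Nat.Primes, Set (Fin (n + 1) → ℚ_[(p : ℕ)])) : Prop :=
  PtW A B D a {x : Fin (n + 1) → ℚ | (fun i => (x i : ℝ)) ∈ Ωr ∧
    ∀ p : Nat.Primes, (fun i => (x i : ℚ_[(p : ℕ)])) ∈ Ω p}

/-- Part PERTR: at a real point the coefficient `A` can be supposed not to vanish. -/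
def S_PERTR : Prop := ∀ (n : ℕ) (A B D : MvPolynomial (Fin (n + 1)) ℤ), A ≠ 0 → ∀ a : ℤ, a ≠ 0 →
  ∀ Ω : Set (Fin (n + 1) → ℝ), IsOpen Ω → PtW A B D a Ω → HasPW A (B ^ 2 - A * (4 * D)) a 1 Ω

/-- Part PERTP: at a `p`-adic point the coefficient `A` can be supposed not to vanish. -/
def S_PERTP : Prop := ∀ (n : ℕ) (A B D : MvPolynomial (Fin (n + 1)) ℤ), A ≠ 0 → ∀ a : ℤ, a ≠ 0 →
  ∀ (p : ℕ) [Fact p.Prime] (Ω : Set (Fin (n + 1) → ℚ_[p])), IsOpen Ω → PtW A B D a Ω →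
    HasPW A (B ^ 2 - A * (4 * D)) a 1 Ω

open Classical in
/-- The squarefree integers in `[-H, H]` for which there are local points. -/
noncomputable def loccG {n : ℕ} (A B D : MvPolynomial (Fin (n + 1)) ℤ) (Ωr : Set (Fin (n + 1) → ℝ))
    (Ω : ∀ p : Nat.Primes, Set (Fin (n + 1) → ℚ_[(p : ℕ)])) (H : ℕ) : Finset ℤ :=
  (Icc (-(H : ℤ)) H).filter (fun a : ℤ => Squarefree a ∧ PtW A B D a Ωr ∧
    (∀ p : Nat.Primes, PtW A B D a (Ω p)))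

open Classical in
/-- The squarefree integers in `[-H, H]` for which there is a rational point. -/
noncomputable def globG {n : ℕ} (A B D : MvPolynomial (Fin (n + 1)) ℤ) (Ωr : Set (Fin (n + 1) → ℝ))
    (Ω : ∀ p : Nat.Primes, Set (Fin (n + 1) → ℚ_[(p : ℕ)])) (H : ℕ) : Finset ℤ :=
  (Icc (-(H : ℤ)) H).filter (fun a : ℤ => Squarefree a ∧ PtG A B D a Ωr Ω)

/-- The theorem as a limit of proportions. -/
def S_RATIOG : Prop := ∀ (n α δ : ℕ) (A B D : MvPolynomial (Fin (n + 1)) ℤ),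
  A.IsHomogeneous (2 * α) → B.IsHomogeneous (α + δ) → D.IsHomogeneous (2 * δ) → 1 ≤ α + δ →
  Squarefree (MvPolynomial.map (Int.castRingHom ℚ) (B ^ 2 - 4 * A * D)) →
  ∀ (Ωr : Set (Fin (n + 1) → ℝ)) (Ω : ∀ p : Nat.Primes, Set (Fin (n + 1) → ℚ_[(p : ℕ)])),
  IsOpen Ωr → (∀ p, IsOpen (Ω p)) → {p : Nat.Primes | Ω p ≠ Set.univ}.Finite →
  Ωr.Nonempty → (∀ p, (Ω p).Nonempty) →
  (∃ c : ℝ, 0 < c ∧ ∃ H0 : ℕ, ∀ H : ℕ, H0 ≤ H → c * (H : ℝ) ≤ ((loccG A B D Ωr Ω H).card : ℝ)) ∧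
  Filter.Tendsto (fun H : ℕ => ((globG A B D Ωr Ω H).card : ℝ) / ((loccG A B D Ωr Ω H).card : ℝ))
    Filter.atTop (nhds 1)

end Pool.Agent.W313.HB
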