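import Mathlib
import Pool.Agent.W313.HB.Stm5

/-!
# Rational points on almost all twists of conic bundles: sixth list of statements

Project HB (helper313): final forms.
-/

set_option autoImplicit false
set_option linter.all false

namespace Pool.Agent.W313.HB

open Finset Polynomial
open Pool.Agent.W313.BMX (Splits)

/-! ### The conic bundle `a A u ^ 2 + b B v ^ 2 = C w ^ 2` -/

/-- `a A(x) u ^ 2 + b B(x) v ^ 2 = C(x) w ^ 2` has a point over `K` in a smooth fibre over a point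
of `Ω`. -/
def PtC {n : ℕ} (A B C : MvPolynomial (Fin (n + 1)) ℤ) (a b : ℤ) {K : Type} [Field K]
    (Ω : Set (Fin (n + 1) → K)) : Prop :=
  ∃ x ∈ Ω, MvPolynomial.aeval x (A * B * C) ≠ 0 ∧ ∃ u v w : K, (u ≠ 0 ∨ v ≠ 0 ∨ w ≠ 0) ∧
    (a : K) * MvPolynomial.aeval x A * u ^ 2 + (b : K) * MvPolynomial.aeval x B * v ^ 2 =
      MvPolynomial.aeval x C * w ^ 2

/-- The rational points over given sets. -/
def ratSet {n : ℕ} (Ωr : Set (Fin (n + 1) → ℝ))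
    (Ω : ∀ p : Nat.Primes, Set (Fin (n + 1) → ℚ_[(p : ℕ)])) : Set (Fin (n + 1) → ℚ) :=
  {x | (fun i => (x i : ℝ)) ∈ Ωr ∧ ∀ p : Nat.Primes, (fun i => (x i : ℚ_[(p : ℕ)])) ∈ Ω p}

/-- The theorem with two parameters, all nonzero integers. -/
def S_ALLP : Prop := ∀ (n α β γ : ℕ) (A B C : MvPolynomial (Fin (n + 1)) ℤ),
  A.IsHomogeneous α → B.IsHomogeneous β → C.IsHomogeneous γ → Even (α + γ) → Even (β + γ) →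
  1 ≤ γ → Squarefree (MvPolynomial.map (Int.castRingHom ℚ) (A * B * C)) →
  ∀ (Ωr : Set (Fin (n + 1) → ℝ)) (Ω : ∀ p : Nat.Primes, Set (Fin (n + 1) → ℚ_[(p : ℕ)])),
  IsOpen Ωr → (∀ p, IsOpen (Ω p)) → {p : Nat.Primes | Ω p ≠ Set.univ}.Finite →
  Ωr.Nonempty → (∀ p, (Ω p).Nonempty) → ∀ (Nl Ng : ℕ → Finset (ℤ × ℤ)),
  (∀ H x, x ∈ Nl H ↔ x ∈ (Icc (-(H : ℤ)) H) ×ˢ (Icc (-(H : ℤ)) H) ∧ x.1 ≠ 0 ∧ x.2 ≠ 0 ∧
    PtC A B C x.1 x.2 Ωr ∧ ∀ p : Nat.Primes, PtC A B C x.1 x.2 (Ω p)) →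
  (∀ H x, x ∈ Ng H ↔ x ∈ (Icc (-(H : ℤ)) H) ×ˢ (Icc (-(H : ℤ)) H) ∧ x.1 ≠ 0 ∧ x.2 ≠ 0 ∧
    PtC A B C x.1 x.2 (ratSet Ωr Ω)) →
  (∃ c : ℝ, 0 < c ∧ ∃ H0 : ℕ, ∀ H : ℕ, H0 ≤ H → c * (H : ℝ) ^ 2 ≤ ((Nl H).card : ℝ)) ∧
  Filter.Tendsto (fun H : ℕ => ((Ng H).card : ℝ) / ((Nl H).card : ℝ)) Filter.atTop (nhds 1)

/-! ### Smooth hypersurfaces -/

/-- The hypersurface `A u ^ 2 + B v ^ 2 = C w ^ 2` has no singular point over a field of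
characteristic zero. -/
def SmoothX {n : ℕ} (A B C : MvPolynomial (Fin (n + 1)) ℤ) : Prop :=
  ∀ (K : Type) [Field K] [CharZero K] (x : Fin (n + 1) → K) (u v w : K), x ≠ 0 →
    (u ≠ 0 ∨ v ≠ 0 ∨ w ≠ 0) →
    MvPolynomial.aeval x A * u = 0 → MvPolynomial.aeval x B * v = 0 →
    MvPolynomial.aeval x C * w = 0 →
    ¬ ∀ i, MvPolynomial.aeval x (MvPolynomial.pderiv i A) * u ^ 2 +
      MvPolynomial.aeval x (MvPolynomial.pderiv i B) * v ^ 2 =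
      MvPolynomial.aeval x (MvPolynomial.pderiv i C) * w ^ 2

/-- `a A(x) u ^ 2 + b B(x) v ^ 2 = C(x) w ^ 2` has a point in `P ^ n x P ^ 2` over `K`. -/
def PtX {n : ℕ} (A B C : MvPolynomial (Fin (n + 1)) ℤ) (a b : ℤ) (K : Type) [Field K] : Prop :=
  ∃ (x : Fin (n + 1) → K) (u v w : K), x ≠ 0 ∧ (u ≠ 0 ∨ v ≠ 0 ∨ w ≠ 0) ∧
    (a : K) * MvPolynomial.aeval x A * u ^ 2 + (b : K) * MvPolynomial.aeval x B * v ^ 2 =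
      MvPolynomial.aeval x C * w ^ 2

/-- Part SMPT: on a smooth hypersurface there are points in smooth fibres. -/
def S_SMPT : Prop := ∀ (n : ℕ) (A B C : MvPolynomial (Fin (n + 1)) ℤ), A ≠ 0 → B ≠ 0 → C ≠ 0 →
  SmoothX A B C → ∀ (a b : ℤ), a ≠ 0 → b ≠ 0 → ∀ (K : Type) [NontriviallyNormedField K]
  [CompleteSpace K] [CharZero K], PtX A B C a b K →
    PtC A B C a b (Set.univ : Set (Fin (n + 1) → K))

/-- Part SMSQ: smoothness implies that the product of the forms is squarefree. -/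
def S_SMSQ : Prop := ∀ (n d : ℕ) (A B C : MvPolynomial (Fin (n + 1)) ℤ), 1 ≤ n → 1 ≤ d →
  A.IsHomogeneous d → B.IsHomogeneous d → C.IsHomogeneous d → SmoothX A B C →
  Squarefree (MvPolynomial.map (Int.castRingHom ℚ) (A * B * C))

/-! ### Surfaces -/

/-- `a f(t) u ^ 2 + b g(t) v ^ 2 = h(t) w ^ 2` has a point over `K` in a smooth fibre over a point
`t` of `Ω`. -/
def PtS (f g h : ℤ[X]) (a b : ℤ) {K : Type} [Field K] (Ω : Set K) : Prop :=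
  ∃ t ∈ Ω, aeval t (f * g * h) ≠ 0 ∧ ∃ u v w : K, (u ≠ 0 ∨ v ≠ 0 ∨ w ≠ 0) ∧
    (a : K) * aeval t f * u ^ 2 + (b : K) * aeval t g * v ^ 2 = aeval t h * w ^ 2

/-- The theorem for surfaces. -/
def S_SURF : Prop := ∀ f g h : ℤ[X], Squarefree ((f * g * h).map (Int.castRingHom ℚ)) →
  1 ≤ h.natDegree → ∀ (Ωr : Set ℝ) (Ω : ∀ p : Nat.Primes, Set ℚ_[(p : ℕ)]),
  IsOpen Ωr → (∀ p, IsOpen (Ω p)) → {p : Nat.Primes | Ω p ≠ Set.univ}.Finite →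
  Ωr.Nonempty → (∀ p, (Ω p).Nonempty) → ∀ (Nl Ng : ℕ → Finset (ℤ × ℤ)),
  (∀ H x, x ∈ Nl H ↔ x ∈ (Icc (-(H : ℤ)) H) ×ˢ (Icc (-(H : ℤ)) H) ∧ Squarefree x.1 ∧
    Squarefree x.2 ∧ PtS f g h x.1 x.2 Ωr ∧ ∀ p : Nat.Primes, PtS f g h x.1 x.2 (Ω p)) →
  (∀ H x, x ∈ Ng H ↔ x ∈ (Icc (-(H : ℤ)) H) ×ˢ (Icc (-(H : ℤ)) H) ∧ Squarefree x.1 ∧
    Squarefree x.2 ∧ PtS f g h x.1 x.2
      {t : ℚ | (t : ℝ) ∈ Ωr ∧ ∀ p : Nat.Primes, (t : ℚ_[(p : ℕ)]) ∈ Ω p}) →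
  (∃ c : ℝ, 0 < c ∧ ∃ H0 : ℕ, ∀ H : ℕ, H0 ≤ H → c * (H : ℝ) ^ 2 ≤ ((Nl H).card : ℝ)) ∧
  Filter.Tendsto (fun H : ℕ => ((Ng H).card : ℝ) / ((Nl H).card : ℝ)) Filter.atTop (nhds 1)

/-! ### Full weak approximation for the double covers -/

/-- `a (A u ^ 2 + B u v + D v ^ 2)` is a nonzero square at a point `(x, (u, v))` of `Ω`. -/
def PtF {n : ℕ} (A B D : MvPolynomial (Fin (n + 1)) ℤ) (a : ℤ) {K : Type} [Field K]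
    (Ω : Set ((Fin (n + 1) → K) × (Fin 2 → K))) : Prop :=
  ∃ x ∈ Ω, ∃ w : K, w ≠ 0 ∧ w ^ 2 = (a : K) * (MvPolynomial.aeval x.1 A * x.2 0 ^ 2 +
    MvPolynomial.aeval x.1 B * (x.2 0 * x.2 1) + MvPolynomial.aeval x.1 D * x.2 1 ^ 2)

/-- The theorem with full weak approximation. -/
def S_RATIOF : Prop := ∀ (n α δ : ℕ) (A B D : MvPolynomial (Fin (n + 1)) ℤ),
  A.IsHomogeneous (2 * α) → B.IsHomogeneous (α + δ) → D.IsHomogeneous (2 * δ) → 1 ≤ α + δ →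
  Squarefree (MvPolynomial.map (Int.castRingHom ℚ) (B ^ 2 - 4 * A * D)) →
  ∀ (Ωr : Set ((Fin (n + 1) → ℝ) × (Fin 2 → ℝ)))
    (Ω : ∀ p : Nat.Primes, Set ((Fin (n + 1) → ℚ_[(p : ℕ)]) × (Fin 2 → ℚ_[(p : ℕ)]))),
  IsOpen Ωr → (∀ p, IsOpen (Ω p)) → {p : Nat.Primes | Ω p ≠ Set.univ}.Finite →
  Ωr.Nonempty → (∀ p, (Ω p).Nonempty) → ∀ (Nl Ng : ℕ → Finset ℤ),
  (∀ H a, a ∈ Nl H ↔ a ∈ Icc (-(H : ℤ)) H ∧ Squarefree a ∧ PtF A B D a Ωr ∧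
    ∀ p : Nat.Primes, PtF A B D a (Ω p)) →
  (∀ H a, a ∈ Ng H ↔ a ∈ Icc (-(H : ℤ)) H ∧ Squarefree a ∧
    PtF A B D a {x : (Fin (n + 1) → ℚ) × (Fin 2 → ℚ) |
      ((fun i => (x.1 i : ℝ)), (fun i => (x.2 i : ℝ))) ∈ Ωr ∧ ∀ p : Nat.Primes,
      ((fun i => (x.1 i : ℚ_[(p : ℕ)])), (fun i => (x.2 i : ℚ_[(p : ℕ)]))) ∈ Ω p}) →
  (∃ c : ℝ, 0 < c ∧ ∃ H0 : ℕ, ∀ H : ℕ, H0 ≤ H → c * (H : ℝ) ≤ ((Nl H).card : ℝ)) ∧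
  Filter.Tendsto (fun H : ℕ => ((Ng H).card : ℝ) / ((Nl H).card : ℝ)) Filter.atTop (nhds 1)

end Pool.Agent.W313.HB
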