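import Mathlib
import Pool.Agent.W313.HB.Stm2

set_option autoImplicit false
set_option linter.all false

namespace Pool.Agent.W313.HB

open Finset Polynomial

/-- the product of the primes `≤ y` dividing `b` and not dividing `N` -/
def sN (N y b : ℕ) : ℕ := ∏ p ∈ b.primeFactors.filter (fun p => p ≤ y ∧ ¬ p ∣ N), p

lemma prime_dvd_prod_iff {D : Finset ℕ} (hD : ∀ q ∈ D, q.Prime) {p : ℕ} (hp : p.Prime) :
    p ∣ ∏ q ∈ D, q ↔ p ∈ D := by
  constructor
  · intro h
    obtain ⟨q, hq, hpq⟩ := (Prime.dvd_finset_prod_iff hp.prime _).1 h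
    rw [(Nat.prime_dvd_prime_iff_eq hp (hD q hq)).1 hpq]; exact hq
  · intro h; exact Finset.dvd_prod_of_mem _ h

lemma primeFactors_prod' {D : Finset ℕ} (hD : ∀ q ∈ D, q.Prime) :
    (∏ q ∈ D, q).primeFactors = D := by
  ext p
  rw [Nat.mem_primeFactors]
  constructor
  · rintro ⟨hp, h, -⟩; exact (prime_dvd_prod_iff hD hp).1 h
  · intro h
    exact ⟨hD p h, (prime_dvd_prod_iff hD (hD p h)).2 h, Finset.prod_ne_zero_iff.2
      fun q hq => (hD q hq).ne_zero⟩

lemma squarefree_prod' {D : Finset ℕ} (hD : ∀ q ∈ D, q.Prime) : Squarefree (∏ q ∈ D, q) := by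
  classical
  induction D using Finset.induction_on with
  | empty => simp
  | insert q D hq ih =>
    rw [Finset.prod_insert hq]
    have hD' : ∀ q ∈ D, q.Prime := fun q hq => hD q (Finset.mem_insert_of_mem hq)
    rw [Nat.squarefree_mul]
    · exact ⟨(hD q (Finset.mem_insert_self _ _)).prime.squarefree, ih hD'⟩
    · rw [Nat.Prime.coprime_iff_not_dvd (hD q (Finset.mem_insert_self _ _)),
        prime_dvd_prod_iff hD' (hD q (Finset.mem_insert_self _ _))]
      exact hq

lemma mem_sN {N y b p : ℕ} (hp : p.Prime) (hb : b ≠ 0) : p ∣ sN N y b ↔ p ∣ b ∧ p ≤ y ∧ ¬ p ∣ N := by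
  unfold sN
  rw [prime_dvd_prod_iff (fun q hq => (Nat.prime_of_mem_primeFactors (Finset.mem_filter.1 hq).1)) hp,
    Finset.mem_filter, Nat.mem_primeFactors]
  tauto

lemma sN_pos (N y b : ℕ) : 0 < sN N y b :=
  Finset.prod_pos fun q hq => (Nat.prime_of_mem_primeFactors (Finset.mem_filter.1 hq).1).pos

lemma sN_le_sm (N y b : ℕ) : sN N y b ≤ sm y b := by
  unfold sN sm
  apply Finset.prod_le_prod_of_subset_of_one_le'
  · intro p hp
    rw [Finset.mem_filter] at hp ⊢
    exact ⟨hp.1, hp.2.1⟩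
  · intro p hp _
    exact (Nat.prime_of_mem_primeFactors (Finset.mem_filter.1 hp).1).one_lt.le

lemma eval_congr {F : ℤ[X]} {m : ℤ} {x y : ℤ} (h : m ∣ x - y) : m ∣ F.eval x - F.eval y :=
  h.trans (sub_dvd_eval_sub x y F)

lemma jac_congr {p : ℕ} {a b : ℤ} (h : (p : ℤ) ∣ a - b) : jacobiSym a p = jacobiSym b p :=
  jacobiSym.mod_left' (Int.emod_eq_emod_iff_emod_sub_eq_zero.2 (Int.emod_eq_zero_of_dvd h))

/-- the base points -/
def IsBase (P : ℤ[X]) (φ : ℕ → ℤ[X]) (σ : ℕ → ℤ) (N t0 s t1 : ℕ) : Prop :=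
  t1 < N * s ∧ (N : ℤ) ∣ (t1 : ℤ) - t0 ∧ ∀ p : ℕ, p.Prime → p ∣ s →
    jacobiSym ((φ p).eval (t1 : ℤ)) p = σ p ∧ ¬ (p : ℤ) ∣ P.eval (t1 : ℤ)

/-- restriction of a function to the primes dividing `s` -/
def res {α : Type} [Zero α] (s : ℕ) (φ : ℕ → α) : ℕ → α := fun p =>
  if p.Prime ∧ p ∣ s then φ p else 0

lemma res_congr {α : Type} [Zero α] {s : ℕ} {φ φ' : ℕ → α}
    (h : ∀ p : ℕ, p.Prime → p ∣ s → φ p = φ' p) : res s φ = res s φ' := by
  funext p
  unfold res
  split_ifs with h1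
  · exact h p h1.1 h1.2
  · rfl

open Classical in
/-- a base point -/
noncomputable def base (P : ℤ[X]) (φ : ℕ → ℤ[X]) (σ : ℕ → ℤ) (N t0 s : ℕ) : ℕ :=
  if h : ∃ t1, IsBase P (res s φ) (res s σ) N t0 s t1 then h.choose else 0

lemma base_congr {P : ℤ[X]} {φ φ' : ℕ → ℤ[X]} {σ σ' : ℕ → ℤ} {N t0 s : ℕ}
    (h : ∀ p : ℕ, p.Prime → p ∣ s → φ p = φ' p ∧ σ p = σ' p) :
    base P φ σ N t0 s = base P φ' σ' N t0 s := by
  unfold base
  rw [res_congr (fun p hp hs => (h p hp hs).1), res_congr (fun p hp hs => (h p hp hs).2)]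

lemma base_spec {P : ℤ[X]} {φ : ℕ → ℤ[X]} {σ : ℕ → ℤ} {N s : ℕ} (t0 : ℕ) (hN : 1 ≤ N)
    (hs : Squarefree s) (hc : N.Coprime s)
    (h : ∀ p : ℕ, p.Prime → p ∣ s → ∃ x : ℕ, x < p ∧ jacobiSym ((φ p).eval (x : ℤ)) p = σ p ∧
      ¬ (p : ℤ) ∣ P.eval (x : ℤ)) :
    IsBase P φ σ N t0 s (base P φ σ N t0 s) := by
  classical
  have hex : ∃ t1, IsBase P (res s φ) (res s σ) N t0 s t1 := by
    have h' : ∀ p : ℕ, ∃ x : ℕ, p.Prime → p ∣ s → jacobiSym ((φ p).eval (x : ℤ)) p = σ p ∧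
      ¬ (p : ℤ) ∣ P.eval (x : ℤ) := by
      intro p
      by_cases hp : p.Prime ∧ p ∣ s
      · obtain ⟨x, -, hx⟩ := h p hp.1 hp.2; exact ⟨x, fun _ _ => hx⟩
      · exact ⟨0, fun h1 h2 => absurd ⟨h1, h2⟩ hp⟩
    choose x hx using h'
    obtain ⟨k, hk⟩ := Nat.chineseRemainderOfFinset x id s.primeFactors
      (fun i hi => (Nat.prime_of_mem_primeFactors hi).ne_zero)
      (by
        intro p hp q hq hpq
        exact (Nat.coprime_primes (Nat.prime_of_mem_primeFactors hp)
          (Nat.prime_of_mem_primeFactors hq)).2 hpq)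
    obtain ⟨t, ht1, ht2⟩ := Nat.chineseRemainder hc t0 k
    have hpos : 0 < N * s := Nat.mul_pos (by omega) (Nat.pos_of_ne_zero hs.ne_zero)
    refine ⟨t % (N * s), Nat.mod_lt _ hpos, ?_, ?_⟩
    · have h1 : t % (N * s) ≡ t0 [MOD N] := by
        have : t % (N * s) ≡ t [MOD N] := (Nat.mod_modEq t (N * s)).of_mul_right s
        exact this.trans ht1
      exact (Nat.modEq_iff_dvd.1 h1.symm)
    · intro p hp hps
      have h1 : t % (N * s) ≡ x p [MOD p] := by
        have e1 : t % (N * s) ≡ t [MOD s] := (Nat.mod_modEq t (N * s)).of_mul_left N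
        have e2 : t % (N * s) ≡ k [MOD s] := e1.trans ht2
        have e3 : t % (N * s) ≡ k [MOD p] := e2.of_dvd hps
        exact e3.trans (hk p (Nat.mem_primeFactors.2 ⟨hp, hps, hs.ne_zero⟩))
      have h2 : (p : ℤ) ∣ ((t % (N * s) : ℕ) : ℤ) - (x p : ℤ) := Nat.modEq_iff_dvd.1 h1.symm
      simp only [res, hp, hps, and_self, if_true]
      refine ⟨?_, ?_⟩
      · rw [← (hx p hp hps).1]
        exact jac_congr (eval_congr h2)
      · intro h3
        apply (hx p hp hps).2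
        have h4 : (p : ℤ) ∣ P.eval ((t % (N * s) : ℕ) : ℤ) - P.eval (x p : ℤ) := eval_congr h2
        exact (dvd_sub_right h3).1 h4
  have h3 : IsBase P (res s φ) (res s σ) N t0 s (base P φ σ N t0 s) := by
    unfold base
    rw [dif_pos hex]
    exact hex.choose_spec
  refine ⟨h3.1, h3.2.1, fun p hp hps => ?_⟩
  have := h3.2.2 p hp hps
  simpa only [res, hp, hps, and_self, if_true] using this

section G

variable (P : ℤ[X]) (N t0 U y E : ℕ) (φ : ℕ → ℤ[X]) (σ : ℕ → ℤ)

/-- the modulus -/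
def md (N y b : ℕ) : ℕ := N * sN N y b

/-- the base point -/
noncomputable def bp (b : ℕ) : ℕ := base P φ σ N t0 (sN N y b)

open Classical in
/-- the set of the `u` with the prescribed symbols -/
noncomputable def GS (b : ℕ) : Finset ℕ := (Ioc U (2 * U)).filter (fun u =>
  (∀ q : ℕ, q.Prime → q ≤ E → ¬ q ∣ md N y b → ¬ (q : ℤ) ∣ val P (bp P N t0 y φ σ b) (md N y b) u) ∧
  ∀ p ∈ b.primeFactors, y < p → jacobiSym (val (φ p) (bp P N t0 y φ σ b) (md N y b) u) p = σ p)

variable {P N t0 U y E φ σ}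

lemma sN_mul {b p : ℕ} (hb : b ≠ 0) (hp : p.Prime) (hy : y < p) : sN N y (b * p) = sN N y b := by
  unfold sN
  congr 1
  ext q
  rw [Finset.mem_filter, Finset.mem_filter, Nat.primeFactors_mul hb hp.ne_zero,
    Finset.mem_union, hp.primeFactors, Finset.mem_singleton]
  constructor
  · rintro ⟨h1 | h1, h2, h3⟩
    · exact ⟨h1, h2, h3⟩
    · omega
  · rintro ⟨h1, h2⟩; exact ⟨Or.inl h1, h2⟩

lemma GS_mul {b p : ℕ} (hb : b ≠ 0) (hp : p.Prime) (hy : y < p) :
    GS P N t0 U y E φ σ (b * p) = (GS P N t0 U y E φ σ b).filter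
      (fun u => jacobiSym (val (φ p) (bp P N t0 y φ σ b) (md N y b) u) p = σ p) := by
  have e1 : md N y (b * p) = md N y b := by unfold md; rw [sN_mul hb hp hy]
  have e2 : bp P N t0 y φ σ (b * p) = bp P N t0 y φ σ b := by unfold bp; rw [sN_mul hb hp hy]
  unfold GS
  rw [e1, e2]
  ext u
  simp only [Finset.mem_filter]
  rw [Nat.primeFactors_mul hb hp.ne_zero, hp.primeFactors]
  constructor
  · rintro ⟨h1, h2, h3⟩
    exact ⟨⟨h1, h2, fun q hq => h3 q (Finset.mem_union_left _ hq)⟩,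
      h3 p (Finset.mem_union_right _ (Finset.mem_singleton_self p)) hy⟩
  · rintro ⟨⟨h1, h2, h3⟩, h4⟩
    refine ⟨h1, h2, fun q hq hqy => ?_⟩
    rcases Finset.mem_union.1 hq with h | h
    · exact h3 q h hqy
    · rw [Finset.mem_singleton] at h; subst h; exact h4

/-- one step of the halving -/
lemma halv {b p : ℕ} (hb : b ≠ 0) (hp : p.Prime) (hy : y < p)
    (hJ : ∀ u ∈ GS P N t0 U y E φ σ b,
      jacobiSym (val (φ p) (bp P N t0 y φ σ b) (md N y b) u) p = 1 ∨
      jacobiSym (val (φ p) (bp P N t0 y φ σ b) (md N y b) u) p = -1)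
    (hσ : σ p = 1 ∨ σ p = -1)
    (hnb : |((∑ u ∈ GS P N t0 U y E φ σ b,
      jacobiSym (val (φ p) (bp P N t0 y φ σ b) (md N y b) u) p : ℤ) : ℝ)| ≤
        ((GS P N t0 U y E φ σ b).card : ℝ) / 2) :
    ((GS P N t0 U y E φ σ b).card : ℝ) / 4 ≤ ((GS P N t0 U y E φ σ (b * p)).card : ℝ) := by
  rw [GS_mul hb hp hy]
  set G := GS P N t0 U y E φ σ b with hG
  set J : ℕ → ℤ := fun u => jacobiSym (val (φ p) (bp P N t0 y φ σ b) (md N y b) u) p with hJd
  have h1 : (2 : ℤ) * ((G.filter (fun u => J u = σ p)).card : ℤ) = ∑ u ∈ G, (1 + σ p * J u) := by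
    rw [Finset.card_filter]
    push_cast
    rw [Finset.mul_sum]
    apply Finset.sum_congr rfl
    intro u hu
    rcases hJ u hu with h | h <;> rcases hσ with h' | h' <;>
      simp only [hJd] at * <;> rw [h, h'] <;> norm_num
  have h2 : ∑ u ∈ G, (1 + σ p * J u) = (G.card : ℤ) + σ p * ∑ u ∈ G, J u := by
    rw [Finset.sum_add_distrib, Finset.mul_sum]
    simp
  rw [h2] at h1
  have h3 : (2 : ℝ) * ((G.filter (fun u => J u = σ p)).card : ℝ) =
      (G.card : ℝ) + (σ p : ℝ) * ((∑ u ∈ G, J u : ℤ) : ℝ) := by exact_mod_cast h1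
  have h4 : -((G.card : ℝ) / 2) ≤ (σ p : ℝ) * ((∑ u ∈ G, J u : ℤ) : ℝ) := by
    have h5 := abs_le.1 hnb
    rcases hσ with h' | h' <;> rw [h'] <;> push_cast
    · push_cast at h5; linarith [h5.1]
    · push_cast at h5; linarith [h5.2]
  have h6 : (0 : ℝ) ≤ (G.card : ℝ) := Nat.cast_nonneg _
  linarith

/-- the initial segments -/
def seg (n r : ℕ) : ℕ := ∏ q ∈ n.primeFactors.filter (fun q => q < r), q

lemma seg_primeFactors (n r : ℕ) : (seg n r).primeFactors = n.primeFactors.filter (fun q => q < r) :=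
  primeFactors_prod' fun q hq => Nat.prime_of_mem_primeFactors (Finset.mem_filter.1 hq).1

lemma seg_ne (n r : ℕ) : seg n r ≠ 0 :=
  Finset.prod_ne_zero_iff.2 fun q hq =>
    (Nat.prime_of_mem_primeFactors (Finset.mem_filter.1 hq).1).ne_zero

lemma seg_sq (n r : ℕ) : Squarefree (seg n r) :=
  squarefree_prod' fun q hq => Nat.prime_of_mem_primeFactors (Finset.mem_filter.1 hq).1

lemma seg_succ_mem {n r : ℕ} (h : r ∈ n.primeFactors) : seg n (r + 1) = seg n r * r := by
  unfold seg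
  have : n.primeFactors.filter (fun q => q < r + 1) =
      insert r (n.primeFactors.filter (fun q => q < r)) := by
    ext q
    simp only [Finset.mem_filter, Finset.mem_insert]
    constructor
    · rintro ⟨h1, h2⟩
      rcases Nat.lt_succ_iff_lt_or_eq.1 h2 with h3 | h3
      · exact Or.inr ⟨h1, h3⟩
      · exact Or.inl h3
    · rintro (rfl | ⟨h1, h2⟩)
      · exact ⟨h, Nat.lt_succ_self _⟩
      · exact ⟨h1, Nat.lt_succ_of_lt h2⟩
  rw [this, Finset.prod_insert (by simp), mul_comm]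

lemma seg_succ_not {n r : ℕ} (h : r ∉ n.primeFactors) : seg n (r + 1) = seg n r := by
  unfold seg
  congr 1
  ext q
  simp only [Finset.mem_filter]
  constructor
  · rintro ⟨h1, h2⟩
    rcases Nat.lt_succ_iff_lt_or_eq.1 h2 with h3 | h3
    · exact ⟨h1, h3⟩
    · subst h3; exact absurd h1 h
  · rintro ⟨h1, h2⟩; exact ⟨h1, Nat.lt_succ_of_lt h2⟩

lemma seg_all {n r : ℕ} (hn : Squarefree n) (h : ∀ p ∈ n.primeFactors, p < r) : seg n r = n := by
  unfold seg
  rw [Finset.filter_true_of_mem h]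
  exact Nat.prod_primeFactors_of_squarefree hn

lemma sN_seg {n r : ℕ} (hr : y < r) : sN N y (seg n r) = sN N y n := by
  unfold sN
  rw [seg_primeFactors, Finset.filter_filter]
  congr 1
  ext q
  simp only [Finset.mem_filter]
  constructor
  · rintro ⟨h1, h2, h3, h4⟩; exact ⟨h1, h3, h4⟩
  · rintro ⟨h1, h3, h4⟩; exact ⟨h1, by omega, h3, h4⟩

/-- the chain of the halving steps -/
lemma chain {n k : ℕ} {V : ℝ} (hV : 0 ≤ V) (hk : n.primeFactors.card ≤ k)
    (h0 : V ≤ ((GS P N t0 U y E φ σ (seg n (y + 1))).card : ℝ))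
    (hJ : ∀ p ∈ n.primeFactors, y < p → ∀ u ∈ GS P N t0 U y E φ σ (seg n p),
      jacobiSym (val (φ p) (bp P N t0 y φ σ (seg n p)) (md N y (seg n p)) u) p = 1 ∨
      jacobiSym (val (φ p) (bp P N t0 y φ σ (seg n p)) (md N y (seg n p)) u) p = -1)
    (hσ : ∀ p ∈ n.primeFactors, y < p → σ p = 1 ∨ σ p = -1)
    (hnb : ∀ p ∈ n.primeFactors, y < p →
      V / 4 ^ k ≤ ((GS P N t0 U y E φ σ (seg n p)).card : ℝ) →
      |((∑ u ∈ GS P N t0 U y E φ σ (seg n p),
      jacobiSym (val (φ p) (bp P N t0 y φ σ (seg n p)) (md N y (seg n p)) u) p : ℤ) : ℝ)| ≤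
        ((GS P N t0 U y E φ σ (seg n p)).card : ℝ) / 2) (r : ℕ) (hr : y < r) :
    V / 4 ^ k ≤ ((GS P N t0 U y E φ σ (seg n r)).card : ℝ) := by
  have key : ∀ m : ℕ, V / 4 ^ (seg n (y + 1 + m)).primeFactors.card ≤
      ((GS P N t0 U y E φ σ (seg n (y + 1 + m))).card : ℝ) := by
    intro m
    induction m with
    | zero =>
      refine le_trans ?_ h0
      exact div_le_self hV (one_le_pow₀ (by norm_num))
    | succ m ih =>
      rw [← Nat.add_assoc]
      set r := y + 1 + m with hr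
      by_cases hmem : r ∈ n.primeFactors
      · have hp : r.Prime := Nat.prime_of_mem_primeFactors hmem
        have hyr : y < r := by omega
        have hle : (seg n r).primeFactors.card ≤ k := by
          rw [seg_primeFactors]
          exact (Finset.card_filter_le _ _).trans hk
        have h1 : V / 4 ^ k ≤ ((GS P N t0 U y E φ σ (seg n r)).card : ℝ) := by
          refine le_trans ?_ ih
          apply div_le_div_of_nonneg_left hV (by positivity)
          exact pow_le_pow_right₀ (by norm_num) hle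
        have h2 := halv (seg_ne n r) hp hyr (hJ r hmem hyr) (hσ r hmem hyr) (hnb r hmem hyr h1)
        rw [seg_succ_mem hmem]
        refine le_trans ?_ h2
        have h3 : (seg n r * r).primeFactors.card = (seg n r).primeFactors.card + 1 := by
          rw [Nat.primeFactors_mul (seg_ne n r) hp.ne_zero, hp.primeFactors,
            Finset.card_union_of_disjoint, Finset.card_singleton]
          rw [Finset.disjoint_singleton_right, seg_primeFactors, Finset.mem_filter]
          rintro ⟨-, h4⟩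
          exact lt_irrefl _ h4
        rw [h3, pow_succ, ← div_div]
        exact div_le_div_of_nonneg_right ih (by norm_num)
      · rw [seg_succ_not hmem]; exact ih
  obtain ⟨m, rfl⟩ : ∃ m, r = y + 1 + m := ⟨r - (y + 1), by omega⟩
  refine le_trans ?_ (key m)
  apply div_le_div_of_nonneg_left hV (by positivity)
  apply pow_le_pow_right₀ (by norm_num)
  rw [seg_primeFactors]
  exact (Finset.card_filter_le _ _).trans hk

end G

end Pool.Agent.W313.HB
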