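import Mathlib
import Pool.Agent.W313.HB.AnaA

set_option autoImplicit false
set_option linter.all false

namespace Pool.Agent.W313.HB

open Finset Polynomial

lemma base_le (P : ℤ[X]) (φ : ℕ → ℤ[X]) (σ : ℕ → ℤ) (N t0 s : ℕ) : base P φ σ N t0 s ≤ N * s := by
  classical
  unfold base
  split_ifs with h
  · exact h.choose_spec.1.le
  · exact Nat.zero_le _

/-- expansion of a product over primes -/
lemma prod_expand (D : Finset ℕ) (hD : ∀ q ∈ D, q.Prime) (h : ℕ → ℝ) :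
    ∏ q ∈ D, (1 + h q) = ∑ e ∈ (∏ q ∈ D, q).divisors, ∏ q ∈ e.primeFactors, h q := by
  classical
  rw [Finset.prod_one_add]
  refine Finset.sum_bij' (fun S _ => ∏ q ∈ S, q) (fun e _ => e.primeFactors) ?_ ?_ ?_ ?_ ?_
  · intro S hS
    rw [Finset.mem_powerset] at hS
    rw [Nat.mem_divisors]
    exact ⟨Finset.prod_dvd_prod_of_subset _ _ _ hS, (squarefree_prod' hD).ne_zero⟩
  · intro e he
    rw [Nat.mem_divisors] at he
    rw [Finset.mem_powerset]
    intro q hq
    rw [← primeFactors_prod' hD]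
    exact Nat.primeFactors_mono he.1 he.2 hq
  · intro S hS
    rw [Finset.mem_powerset] at hS
    exact primeFactors_prod' fun q hq => hD q (hS hq)
  · intro e he
    rw [Nat.mem_divisors] at he
    exact Nat.prod_primeFactors_of_squarefree ((squarefree_prod' hD).squarefree_of_dvd he.1)
  · intro S hS
    rw [Finset.mem_powerset] at hS
    rw [primeFactors_prod' fun q hq => hD q (hS hq)]

/-- the primes dividing `v` and not dividing `M` -/
def Dm (M : ℕ) (v : ℤ) : Finset ℕ := v.natAbs.primeFactors.filter (fun q => ¬ q ∣ M)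

/-- their product -/
def mm (M : ℕ) (v : ℤ) : ℕ := ∏ q ∈ Dm M v, q

lemma Dm_prime {M : ℕ} {v : ℤ} : ∀ q ∈ Dm M v, q.Prime := fun q hq =>
  Nat.prime_of_mem_primeFactors (Finset.mem_filter.1 hq).1

lemma mem_Dm {M : ℕ} {v : ℤ} (hv : v ≠ 0) {q : ℕ} : q ∈ Dm M v ↔ q.Prime ∧ (q : ℤ) ∣ v ∧ ¬ q ∣ M := by
  unfold Dm
  rw [Finset.mem_filter, Nat.mem_primeFactors]
  constructor
  · rintro ⟨⟨h1, h2, h3⟩, h4⟩; exact ⟨h1, Int.natCast_dvd.2 h2, h4⟩
  · rintro ⟨h1, h2, h4⟩; exact ⟨⟨h1, Int.natCast_dvd.1 h2, Int.natAbs_ne_zero.2 hv⟩, h4⟩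

lemma mm_sq (M : ℕ) (v : ℤ) : Squarefree (mm M v) := squarefree_prod' Dm_prime

lemma mm_pf (M : ℕ) (v : ℤ) : (mm M v).primeFactors = Dm M v := primeFactors_prod' Dm_prime

lemma mm_dvd (M : ℕ) {v : ℤ} (hv : v ≠ 0) : mm M v ∣ v.natAbs := by
  have h : mm M v ∣ ∏ q ∈ v.natAbs.primeFactors, q := by
    unfold mm
    exact Finset.prod_dvd_prod_of_subset _ _ _ (Finset.filter_subset _ _)
  exact h.trans (Nat.prod_primeFactors_dvd _)

lemma card_div_le {M E U C T : ℕ} {v : ℤ} (hv : v ≠ 0) (hvU : |v| ≤ (U : ℤ) ^ C)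
    (hE : ∀ q ∈ Dm M v, E < q) (hT : ∀ w : ℕ, E ^ w ≤ U ^ C → 2 ^ w ≤ T) :
    (mm M v).divisors.card ≤ T := by
  classical
  have h1 : (mm M v).divisors.card = 2 ^ (Dm M v).card := by
    have h := prod_expand (Dm M v) Dm_prime (fun _ => 1)
    simp only [Finset.prod_const, one_pow, Finset.sum_const, nsmul_eq_mul, mul_one] at h
    unfold mm
    have h' : (((∏ q ∈ Dm M v, q).divisors.card : ℕ) : ℝ) = ((2 ^ (Dm M v).card : ℕ) : ℝ) := by
      rw [← h]; push_cast; norm_num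
    exact_mod_cast h'
  rw [h1]
  apply hT
  have h2 : E ^ (Dm M v).card ≤ mm M v := by
    unfold mm
    calc E ^ (Dm M v).card = ∏ _q ∈ Dm M v, E := by rw [Finset.prod_const]
      _ ≤ ∏ q ∈ Dm M v, q := Finset.prod_le_prod' fun q hq => (hE q hq).le
  refine h2.trans ((Nat.le_of_dvd (Int.natAbs_pos.2 hv) (mm_dvd M hv)).trans ?_)
  have h3 : (v.natAbs : ℤ) ≤ ((U ^ C : ℕ) : ℤ) := by
    rw [Int.natCast_natAbs]; push_cast; exact hvU
  exact_mod_cast h3


/-- the index set of the sum over the divisors -/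
noncomputable def II (G : Finset ℕ) (M : ℕ) (v : ℕ → ℤ) : Finset (ℕ × ℕ) :=
  (G.sigma (fun u => (mm M (v u)).divisors.filter (fun e => 1 < e))).map
    ⟨fun x => (x.1, x.2), fun x y h => by
      cases x; cases y
      simp only [Prod.mk.injEq] at h
      obtain ⟨rfl, rfl⟩ := h
      rfl⟩

lemma mem_II {G : Finset ℕ} {M : ℕ} {v : ℕ → ℤ} {x : ℕ × ℕ} :
    x ∈ II G M v ↔ x.1 ∈ G ∧ x.2 ∈ (mm M (v x.1)).divisors ∧ 1 < x.2 := by
  unfold II
  rw [Finset.mem_map]
  constructor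
  · rintro ⟨y, hy, rfl⟩
    rw [Finset.mem_sigma, Finset.mem_filter] at hy
    exact hy
  · intro h
    refine ⟨⟨x.1, x.2⟩, ?_, rfl⟩
    rw [Finset.mem_sigma, Finset.mem_filter]
    exact h

lemma sum_II {G : Finset ℕ} {M : ℕ} {v : ℕ → ℤ} (f : ℕ × ℕ → ℝ) :
    ∑ x ∈ II G M v, f x = ∑ u ∈ G, ∑ e ∈ (mm M (v u)).divisors.filter (fun e => 1 < e), f (u, e) := by
  unfold II
  rw [Finset.sum_map, Finset.sum_sigma]
  rfl

/-- the expansion of the weighted count -/
lemma expand {G : Finset ℕ} {M : ℕ} {v : ℕ → ℤ} (h : ℕ → ℕ → ℝ) :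
    ∑ u ∈ G, ∏ q ∈ Dm M (v u), (1 + h u q) =
      (G.card : ℝ) + ∑ x ∈ II G M v, ∏ q ∈ x.2.primeFactors, h x.1 q := by
  rw [sum_II, Finset.card_eq_sum_ones]
  push_cast
  rw [← Finset.sum_add_distrib]
  apply Finset.sum_congr rfl
  intro u hu
  rw [prod_expand _ Dm_prime]
  have h1 : (mm M (v u)).divisors = insert 1 ((mm M (v u)).divisors.filter (fun e => 1 < e)) := by
    ext e
    rw [Finset.mem_insert, Finset.mem_filter]
    constructor
    · intro he
      have : 0 < e := Nat.pos_of_mem_divisors he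
      by_cases h2 : e = 1
      · exact Or.inl h2
      · exact Or.inr ⟨he, by omega⟩
    · rintro (rfl | h2)
      · exact Nat.one_mem_divisors.2 (mm_sq M (v u)).ne_zero
      · exact h2.1
  have h2 : ∀ f : ℕ → ℝ, ∑ e ∈ (mm M (v u)).divisors, f e =
      f 1 + ∑ e ∈ (mm M (v u)).divisors.filter (fun e => 1 < e), f e := by
    intro f
    conv_lhs => rw [h1]
    rw [Finset.sum_insert (by simp)]
  refine (h2 _).trans ?_
  simp

lemma jac_prod (n : ℤ) {e : ℕ} (he : Squarefree e) :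
    (jacobiSym n e : ℝ) = ∏ q ∈ e.primeFactors, (jacobiSym n q : ℝ) := by
  have h : ∀ S : Finset ℕ, (∀ q ∈ S, q ≠ 0) → jacobiSym n (∏ q ∈ S, q) = ∏ q ∈ S, jacobiSym n q := by
    classical
    intro S
    induction S using Finset.induction_on with
    | empty => intro _; simp
    | insert q S hq ih =>
      intro hS
      rw [Finset.prod_insert hq, Finset.prod_insert hq]
      have h1 : (∏ q ∈ S, q) ≠ 0 := Finset.prod_ne_zero_iff.2
        fun r hr => hS r (Finset.mem_insert_of_mem hr)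
      rw [jacobiSym.mul_right' n (hS q (Finset.mem_insert_self _ _)) h1,
        ih (fun r hr => hS r (Finset.mem_insert_of_mem hr))]
  have h2 := h e.primeFactors (fun q hq => (Nat.prime_of_mem_primeFactors hq).ne_zero)
  rw [Nat.prod_primeFactors_of_squarefree he] at h2
  rw [h2]; push_cast; rfl

end Pool.Agent.W313.HB
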