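import Mathlib

set_option autoImplicit false
set_option linter.all false
set_option maxHeartbeats 4000000

namespace Pool.Agent.W313.HB

open Filter

lemma ev_sq (a b : ℝ) (hb : 0 < b) : ∀ᶠ l : ℝ in atTop, a * l ^ 2 ≤ b * Real.exp l := by
  have h := Real.tendsto_exp_div_pow_atTop 2
  filter_upwards [h.eventually_ge_atTop (a / b), eventually_gt_atTop 0] with l h1 h2
  have h3 : a / b * l ^ 2 ≤ Real.exp l := by
    rwa [le_div_iff₀ (by positivity)] at h1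
  calc a * l ^ 2 = b * (a / b * l ^ 2) := by field_simp
    _ ≤ b * Real.exp l := mul_le_mul_of_nonneg_left h3 hb.le

/-- the inequalities between the parameters -/
theorem num (C1 Csv C' Uall EL N : ℕ) (K KE Λ CL : ℝ) (hK : 1 ≤ K) (hΛ : 1 ≤ Λ) (hCL : 0 ≤ CL)
    (hKE1 : 4 * K + 8 ≤ KE) (hKE2 : 4 * C1 * Λ ≤ KE) :
    ∀ᶠ l : ℝ in atTop, 1 ≤ l ∧ ∀ g : ℝ, l ^ 2 ≤ g → g ≤ Λ * l ^ 2 → ∀ (U y E k0 T S X0 : ℕ) (V δ : ℝ),
      U = ⌊Real.exp (2 * g)⌋₊ → y = ⌊Real.exp ((2 * C1 + 1) * g)⌋₊ → E = ⌊Real.exp (KE * l)⌋₊ →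
      k0 = ⌊K * l⌋₊ → T = 2 ^ ⌊l⌋₊ → S = ⌊Real.exp g⌋₊ → V = (U : ℝ) / (1 + Real.log E) ^ Csv →
      δ = (U : ℝ) ^ (-(1 / 20) : ℝ) * Real.exp ((4 * K + 2) * l) →
      X0 = ⌈2 * Real.exp (2 * l) * (U : ℝ) ^ C'⌉₊ →
      Uall ≤ U ∧ EL ≤ E ∧ 2 ≤ E ∧ N * S ≤ U ∧ N ≤ y ∧ U ^ C1 ≤ y ∧ 0 < V ∧
      Real.log E ≤ KE * √(Real.log U) ∧ (U : ℝ) ^ (39 / 20 : ℝ) ≤ δ * (V / 4 ^ k0) ^ 2 ∧
      1 ≤ T ∧ T ≤ U ∧ (∀ w : ℕ, E ^ w ≤ U ^ C1 → 2 ^ w ≤ T) ∧
      (∀ X : ℕ, X0 ≤ X → CL * (T : ℝ) ^ 3 * ((U : ℝ) ^ 2 / E + U) * X + (U : ℝ) ^ C' ≤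
        Real.exp (-2 * l) * X * (V / 4 ^ k0) ^ 2) ∧ 1 ≤ X0 ∧
      (X0 : ℝ) ≤ 3 * Real.exp ((2 + 2 * C' * Λ) * l ^ 2) ∧
      (y : ℝ) ≤ Real.exp ((2 * C1 + 1) * Λ * l ^ 2) ∧
      0 ≤ δ ∧ δ ≤ Real.exp (-(1 / 20) * l ^ 2 + (4 * K + 2) * l) := by
  have e0 : ∀ᶠ l : ℝ in atTop, (Uall : ℝ) + EL + N + 8 * CL + 2 ≤ Real.exp l :=
    Real.tendsto_exp_atTop.eventually_ge_atTop _
  have e1 : ∀ᶠ l : ℝ in atTop, (1 + KE * l) ^ Csv ≤ Real.exp l := by
    have h := (Real.isLittleO_pow_exp_atTop (n := Csv + 1)).def (c := 1) one_pos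
    have h2 : ∀ᶠ l : ℝ in atTop, (1 + KE) ^ Csv ≤ l := eventually_ge_atTop _
    filter_upwards [h, h2, eventually_ge_atTop 1] with l h1 h2 h3
    rw [one_mul, Real.norm_of_nonneg (by positivity), Real.norm_of_nonneg (Real.exp_pos _).le] at h1
    have hKE : 0 ≤ KE := by linarith
    calc (1 + KE * l) ^ Csv ≤ ((1 + KE) * l) ^ Csv := by
          apply pow_le_pow_left₀ (by positivity)
          nlinarith
      _ = (1 + KE) ^ Csv * l ^ Csv := by rw [mul_pow]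
      _ ≤ l * l ^ Csv := by gcongr
      _ = l ^ (Csv + 1) := by ring
      _ ≤ Real.exp l := h1
  filter_upwards [e0, e1, eventually_ge_atTop 1, eventually_ge_atTop KE,
    eventually_ge_atTop (2 * K + 1)] with l h0 h1 hl1 hlKE hlK
  refine ⟨hl1, ?_⟩
  intro g hg1 hg2 U y E k0 T S X0 V δ hU hy hE hk hT hS hV hδ hX
  have hKE : 12 ≤ KE := by linarith
  have hl0 : 0 < l := by linarith
  have hll : l ≤ l ^ 2 := by nlinarith
  have hg : l ≤ g := hll.trans hg1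
  have hg0 : 1 ≤ g := hl1.trans hg
  have hexpl : Real.exp l ≤ Real.exp g := Real.exp_le_exp.2 hg
  have hCL0 : 0 ≤ CL := hCL
  have hUle : (U : ℝ) ≤ Real.exp (2 * g) := by rw [hU]; exact Nat.floor_le (Real.exp_pos _).le
  have hexp2 : Real.exp (2 * g) = Real.exp g * Real.exp g := by rw [← Real.exp_add]; ring_nf
  have hexpg2 : 2 ≤ Real.exp g := by
    have := Nat.cast_nonneg (α := ℝ) Uall
    have := Nat.cast_nonneg (α := ℝ) EL
    have := Nat.cast_nonneg (α := ℝ) N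
    linarith
  have hUge : Real.exp g ≤ (U : ℝ) := by
    have h2 : Real.exp (2 * g) < (U : ℝ) + 1 := by rw [hU]; exact Nat.lt_floor_add_one _
    rw [hexp2] at h2
    have h3 : Real.exp g * 2 ≤ Real.exp g * Real.exp g :=
      mul_le_mul_of_nonneg_left hexpg2 (Real.exp_pos g).le
    linarith
  have hUpos : (0 : ℝ) < U := (Real.exp_pos _).trans_le hUge
  have hU1 : (1 : ℝ) ≤ U := by linarith
  have hlogU : g ≤ Real.log U := by
    rw [Real.le_log_iff_exp_le hUpos]; exact hUge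
  have hlogU2 : Real.log U ≤ 2 * g := by
    rw [Real.log_le_iff_le_exp hUpos]; exact hUle
  have hEle : (E : ℝ) ≤ Real.exp (KE * l) := by rw [hE]; exact Nat.floor_le (Real.exp_pos _).le
  have hKEl : l ≤ KE * l := le_mul_of_one_le_left hl0.le (by linarith)
  have hexpKE : Real.exp l ≤ Real.exp (KE * l) := Real.exp_le_exp.2 hKEl
  have hnn1 := Nat.cast_nonneg (α := ℝ) Uall
  have hnn2 := Nat.cast_nonneg (α := ℝ) EL
  have hnn3 := Nat.cast_nonneg (α := ℝ) N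
  have hE2 : 2 ≤ E := by
    rw [hE]; apply Nat.le_floor; push_cast; linarith
  have hEge : Real.exp (KE * l) / 2 ≤ (E : ℝ) := by
    have h2 : Real.exp (KE * l) < (E : ℝ) + 1 := by rw [hE]; exact Nat.lt_floor_add_one _
    linarith
  have hEpos : (0 : ℝ) < E := by
    have : (2 : ℝ) ≤ E := by exact_mod_cast hE2
    linarith
  have hlogE : Real.log E ≤ KE * l := by
    rw [Real.log_le_iff_le_exp hEpos]; exact hEle
  have hlogE0 : 0 ≤ Real.log E := Real.log_nonneg (by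
    have : (2 : ℝ) ≤ E := by exact_mod_cast hE2
    linarith)
  have hlog2 : Real.log 2 ≤ 1 := by
    have := Real.log_two_lt_d9; linarith
  have hlogE2 : KE * l / 2 ≤ Real.log E := by
    have h2 : KE * l - Real.log 2 ≤ Real.log E := by
      rw [Real.le_log_iff_exp_le hEpos, Real.exp_sub, Real.exp_log (by norm_num)]
      exact hEge
    have h12 : (12 : ℝ) * 1 ≤ KE * l := mul_le_mul hKE hl1 zero_le_one (by linarith)
    linarith
  have hden : 0 < (1 + Real.log E) ^ Csv := by positivity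
  have hden2 : (1 + Real.log E) ^ Csv ≤ Real.exp l := by
    refine le_trans ?_ h1
    apply pow_le_pow_left₀ (by positivity); linarith
  have hVge : (U : ℝ) * Real.exp (-l) ≤ V := by
    rw [hV, Real.exp_neg, ← div_eq_mul_inv]
    exact div_le_div_of_nonneg_left hUpos.le hden hden2
  have hVpos : 0 < V := by rw [hV]; positivity
  have h4k : (4 : ℝ) ^ k0 ≤ Real.exp (2 * K * l) := by
    have h2 : (k0 : ℝ) ≤ K * l := by rw [hk]; exact Nat.floor_le (by positivity)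
    have h3 : (4 : ℝ) ≤ Real.exp 2 := by
      have := Real.add_one_le_exp (1 : ℝ)
      have h5 : Real.exp 2 = Real.exp 1 * Real.exp 1 := by rw [← Real.exp_add]; norm_num
      have h6 : (2 : ℝ) * 2 ≤ Real.exp 1 * Real.exp 1 :=
        mul_le_mul (by linarith) (by linarith) (by norm_num) (Real.exp_pos _).le
      rw [h5]; linarith
    calc (4 : ℝ) ^ k0 ≤ (Real.exp 2) ^ k0 := pow_le_pow_left₀ (by norm_num) h3 _
      _ = Real.exp (k0 * 2) := by rw [Real.exp_nat_mul]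
      _ ≤ Real.exp (2 * K * l) := Real.exp_le_exp.2 (by linarith)
  have hVk : (U : ℝ) * Real.exp (-((2 * K + 1) * l)) ≤ V / 4 ^ k0 := by
    rw [le_div_iff₀ (by positivity)]
    refine le_trans ?_ hVge
    have : (U : ℝ) * Real.exp (-((2 * K + 1) * l)) * 4 ^ k0 ≤
        (U : ℝ) * Real.exp (-((2 * K + 1) * l)) * Real.exp (2 * K * l) := by gcongr
    refine this.trans (le_of_eq ?_)
    rw [mul_assoc, ← Real.exp_add]; congr 2; ring
  have hVk0 : 0 < V / 4 ^ k0 := by positivity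
  have hVk2 : (U : ℝ) ^ 2 * Real.exp (-((4 * K + 2) * l)) ≤ (V / 4 ^ k0) ^ 2 := by
    have := pow_le_pow_left₀ (by positivity) hVk 2
    refine le_trans (le_of_eq ?_) this
    rw [mul_pow, ← Real.exp_nat_mul]; congr 2; push_cast; ring
  have hTle : (T : ℝ) ≤ Real.exp l := by
    rw [hT]; push_cast
    have h2 : ((⌊l⌋₊ : ℕ) : ℝ) ≤ l := Nat.floor_le hl0.le
    have h3 : (2 : ℝ) ≤ Real.exp 1 := by have := Real.add_one_le_exp (1 : ℝ); linarith
    calc (2 : ℝ) ^ ⌊l⌋₊ ≤ (Real.exp 1) ^ ⌊l⌋₊ := pow_le_pow_left₀ (by norm_num) h3 _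
      _ = Real.exp (⌊l⌋₊ * 1) := by rw [Real.exp_nat_mul]
      _ ≤ Real.exp l := Real.exp_le_exp.2 (by linarith)
  have hUl2 : Real.exp (l ^ 2) ≤ (U : ℝ) := (Real.exp_le_exp.2 hg1).trans hUge
  have hEU : (E : ℝ) ≤ U := by
    refine hEle.trans (le_trans (Real.exp_le_exp.2 ?_) hUl2)
    rw [pow_two]; exact mul_le_mul_of_nonneg_right hlKE hl0.le
  have hV1 : 1 ≤ (V / 4 ^ k0) ^ 2 := by
    have h2 : 1 ≤ V / 4 ^ k0 := by
      refine le_trans ?_ hVk
      have h3 : Real.exp ((2 * K + 1) * l) ≤ U := by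
        refine le_trans (Real.exp_le_exp.2 ?_) hUl2
        rw [pow_two]; exact mul_le_mul_of_nonneg_right hlK hl0.le
      have h4 : Real.exp ((2 * K + 1) * l) * Real.exp (-((2 * K + 1) * l)) = 1 := by
        rw [← Real.exp_add]; simp
      exact h4.symm.le.trans (mul_le_mul_of_nonneg_right h3 (Real.exp_pos _).le)
    exact one_le_pow₀ h2
  refine ⟨?_, ?_, hE2, ?_, ?_, ?_, hVpos, ?_, ?_, ?_, ?_, ?_, ?_, ?_, ?_, ?_, ?_, ?_⟩
  · have : (Uall : ℝ) ≤ U := by linarith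
    exact_mod_cast this
  · rw [hE]; apply Nat.le_floor; linarith
  · rw [hU]; apply Nat.le_floor; push_cast
    have h2 : (S : ℝ) ≤ Real.exp g := by rw [hS]; exact Nat.floor_le (Real.exp_pos _).le
    rw [hexp2]
    apply mul_le_mul _ h2 (Nat.cast_nonneg _) (Real.exp_pos _).le
    linarith
  · rw [hy]; apply Nat.le_floor
    have h2 : Real.exp g ≤ Real.exp ((2 * C1 + 1) * g) := by
      apply Real.exp_le_exp.2
      have := Nat.cast_nonneg (α := ℝ) C1
      exact le_mul_of_one_le_left (by linarith) (by linarith)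
    linarith
  · rw [hy]; apply Nat.le_floor; push_cast
    calc (U : ℝ) ^ C1 ≤ (Real.exp (2 * g)) ^ C1 := pow_le_pow_left₀ hUpos.le hUle _
      _ = Real.exp (C1 * (2 * g)) := by rw [Real.exp_nat_mul]
      _ ≤ Real.exp ((2 * C1 + 1) * g) := Real.exp_le_exp.2 (by linarith)
  · refine hlogE.trans ?_
    apply mul_le_mul_of_nonneg_left _ (by linarith)
    apply Real.le_sqrt_of_sq_le
    linarith
  · rw [hδ]
    have h2 : (U : ℝ) ^ (-(1 / 20) : ℝ) * Real.exp ((4 * K + 2) * l) *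
        ((U : ℝ) ^ 2 * Real.exp (-((4 * K + 2) * l))) ≤
        (U : ℝ) ^ (-(1 / 20) : ℝ) * Real.exp ((4 * K + 2) * l) * (V / 4 ^ k0) ^ 2 :=
      mul_le_mul_of_nonneg_left hVk2 (by positivity)
    refine le_trans (le_of_eq ?_) h2
    have h3 : (U : ℝ) ^ (39 / 20 : ℝ) = (U : ℝ) ^ (-(1 / 20) : ℝ) * (U : ℝ) ^ 2 := by
      rw [← Real.rpow_natCast, ← Real.rpow_add hUpos]; norm_num
    have h4 : Real.exp ((4 * K + 2) * l) * Real.exp (-((4 * K + 2) * l)) = 1 := by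
      rw [← Real.exp_add]; simp
    calc (U : ℝ) ^ (39 / 20 : ℝ) = (U : ℝ) ^ (-(1 / 20) : ℝ) * (U : ℝ) ^ 2 * 1 := by rw [h3, mul_one]
      _ = (U : ℝ) ^ (-(1 / 20) : ℝ) * (U : ℝ) ^ 2 *
        (Real.exp ((4 * K + 2) * l) * Real.exp (-((4 * K + 2) * l))) := by rw [h4]
      _ = _ := by ring
  · rw [hT]; exact Nat.one_le_two_pow
  · have : (T : ℝ) ≤ U := hTle.trans (hexpl.trans hUge)
    exact_mod_cast this
  · intro w hw
    rw [hT]
    apply Nat.pow_le_pow_right (by norm_num)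
    apply Nat.le_floor
    have h2 : (w : ℝ) * Real.log E ≤ C1 * Real.log U := by
      rw [← Real.log_pow, ← Real.log_pow]
      apply Real.log_le_log (by positivity)
      exact_mod_cast hw
    have h3 : (w : ℝ) * (KE * l / 2) ≤ C1 * (2 * (Λ * l ^ 2)) := by
      calc (w : ℝ) * (KE * l / 2) ≤ w * Real.log E := by gcongr
        _ ≤ C1 * Real.log U := h2
        _ ≤ C1 * (2 * (Λ * l ^ 2)) := by
          apply mul_le_mul_of_nonneg_left _ (Nat.cast_nonneg _)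
          linarith
    have h4 : (w : ℝ) * (KE * l / 2) ≤ l * (KE * l / 2) := by
      refine h3.trans ?_
      have h5 : 4 * C1 * Λ * l ^ 2 ≤ KE * l ^ 2 := mul_le_mul_of_nonneg_right hKE2 (sq_nonneg _)
      have e1 : (C1 : ℝ) * (2 * (Λ * l ^ 2)) = (4 * C1 * Λ * l ^ 2) / 2 := by ring
      have e2 : l * (KE * l / 2) = (KE * l ^ 2) / 2 := by ring
      rw [e1, e2]; linarith
    exact le_of_mul_le_mul_right h4 (by positivity)
  · intro X hX0
    have hL1 : CL * (T : ℝ) ^ 3 * ((U : ℝ) ^ 2 / E + U) ≤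
        1 / 2 * Real.exp (-2 * l) * (V / 4 ^ k0) ^ 2 := by
      have h2 : (U : ℝ) ^ 2 / E + U ≤ 4 * (U : ℝ) ^ 2 * Real.exp (-(KE * l)) := by
        have h3 : (U : ℝ) ≤ (U : ℝ) ^ 2 / E := by
          rw [le_div_iff₀ hEpos, pow_two]; exact mul_le_mul_of_nonneg_left hEU hUpos.le
        have h4 : (U : ℝ) ^ 2 / E ≤ (U : ℝ) ^ 2 / (Real.exp (KE * l) / 2) :=
          div_le_div_of_nonneg_left (by positivity) (by positivity) hEge
        have h5 : (U : ℝ) ^ 2 / (Real.exp (KE * l) / 2) = 2 * (U : ℝ) ^ 2 * Real.exp (-(KE * l)) := by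
          rw [Real.exp_neg]; field_simp
        linarith
      have h3 : (T : ℝ) ^ 3 ≤ Real.exp (3 * l) := by
        calc (T : ℝ) ^ 3 ≤ (Real.exp l) ^ 3 := pow_le_pow_left₀ (Nat.cast_nonneg _) hTle _
          _ = Real.exp (3 * l) := by rw [← Real.exp_nat_mul]; norm_num
      calc CL * (T : ℝ) ^ 3 * ((U : ℝ) ^ 2 / E + U)
          ≤ CL * Real.exp (3 * l) * (4 * (U : ℝ) ^ 2 * Real.exp (-(KE * l))) := by gcongr
        _ = (8 * CL) * (1 / 2 * (U : ℝ) ^ 2 * (Real.exp (3 * l) * Real.exp (-(KE * l)))) := by ring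
        _ ≤ Real.exp l * (1 / 2 * (U : ℝ) ^ 2 * (Real.exp (3 * l) * Real.exp (-(KE * l)))) := by
            apply mul_le_mul_of_nonneg_right _ (by positivity)
            linarith
        _ = 1 / 2 * (U : ℝ) ^ 2 * Real.exp (l + (3 * l + -(KE * l))) := by
            rw [Real.exp_add, Real.exp_add]; ring
        _ ≤ 1 / 2 * (U : ℝ) ^ 2 * Real.exp (-2 * l + -((4 * K + 2) * l)) := by
            apply mul_le_mul_of_nonneg_left _ (by positivity)
            apply Real.exp_le_exp.2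
            have h8 : (4 * K + 8) * l ≤ KE * l := mul_le_mul_of_nonneg_right hKE1 hl0.le
            linarith
        _ = 1 / 2 * Real.exp (-2 * l) * ((U : ℝ) ^ 2 * Real.exp (-((4 * K + 2) * l))) := by
            rw [Real.exp_add]; ring
        _ ≤ 1 / 2 * Real.exp (-2 * l) * (V / 4 ^ k0) ^ 2 := by gcongr
    have hL2 : (U : ℝ) ^ C' ≤ 1 / 2 * Real.exp (-2 * l) * X * (V / 4 ^ k0) ^ 2 := by
      have h2 : 2 * Real.exp (2 * l) * (U : ℝ) ^ C' ≤ X := by
        refine (Nat.le_ceil _).trans ?_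
        rw [← hX]
        exact_mod_cast hX0
      calc (U : ℝ) ^ C' = 1 / 2 * (Real.exp (-2 * l) * Real.exp (2 * l)) * (2 * (U : ℝ) ^ C') * 1 := by
            rw [← Real.exp_add]; simp
        _ = 1 / 2 * Real.exp (-2 * l) * (2 * Real.exp (2 * l) * (U : ℝ) ^ C') * 1 := by ring
        _ ≤ 1 / 2 * Real.exp (-2 * l) * X * (V / 4 ^ k0) ^ 2 :=
            mul_le_mul (mul_le_mul_of_nonneg_left h2 (by positivity)) hV1 zero_le_one
              (by positivity)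
    have hXn : (0 : ℝ) ≤ X := Nat.cast_nonneg _
    calc CL * (T : ℝ) ^ 3 * ((U : ℝ) ^ 2 / E + U) * X + (U : ℝ) ^ C'
        ≤ (1 / 2 * Real.exp (-2 * l) * (V / 4 ^ k0) ^ 2) * X +
          1 / 2 * Real.exp (-2 * l) * X * (V / 4 ^ k0) ^ 2 :=
          add_le_add (mul_le_mul_of_nonneg_right hL1 hXn) hL2
      _ = Real.exp (-2 * l) * X * (V / 4 ^ k0) ^ 2 := by ring
  · rw [hX]
    apply Nat.one_le_ceil_iff.2
    positivity
  · rw [hX]
    have h2 : 2 * Real.exp (2 * l) * (U : ℝ) ^ C' ≤ 2 * Real.exp ((2 + 2 * C' * Λ) * l ^ 2) := by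
      have h3 : (U : ℝ) ^ C' ≤ Real.exp (2 * C' * Λ * l ^ 2) := by
        calc (U : ℝ) ^ C' ≤ (Real.exp (2 * g)) ^ C' := pow_le_pow_left₀ hUpos.le hUle _
          _ = Real.exp (C' * (2 * g)) := by rw [Real.exp_nat_mul]
          _ ≤ Real.exp (2 * C' * Λ * l ^ 2) := by
            apply Real.exp_le_exp.2
            have h9 : (C' : ℝ) * (2 * g) ≤ C' * (2 * (Λ * l ^ 2)) :=
              mul_le_mul_of_nonneg_left (by linarith) (Nat.cast_nonneg _)
            linarith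
      have h4 : Real.exp (2 * l) ≤ Real.exp (2 * l ^ 2) := Real.exp_le_exp.2 (by linarith)
      calc 2 * Real.exp (2 * l) * (U : ℝ) ^ C' ≤ 2 * Real.exp (2 * l ^ 2) *
            Real.exp (2 * C' * Λ * l ^ 2) := by gcongr
        _ = 2 * Real.exp ((2 + 2 * C' * Λ) * l ^ 2) := by
            rw [mul_assoc, ← Real.exp_add]; congr 2; ring
    have h5 := (Nat.ceil_lt_add_one (a := 2 * Real.exp (2 * l) * (U : ℝ) ^ C') (by positivity)).le
    have h6 : (1 : ℝ) ≤ Real.exp ((2 + 2 * C' * Λ) * l ^ 2) := by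
      apply Real.one_le_exp
      have := Nat.cast_nonneg (α := ℝ) C'
      positivity
    linarith
  · rw [hy]
    refine (Nat.floor_le (Real.exp_pos _).le).trans (Real.exp_le_exp.2 ?_)
    rw [mul_assoc]
    apply mul_le_mul_of_nonneg_left hg2
    have := Nat.cast_nonneg (α := ℝ) C1
    linarith
  · rw [hδ]; positivity
  · rw [hδ, Real.exp_add]
    apply mul_le_mul_of_nonneg_right _ (Real.exp_pos _).le
    rw [Real.rpow_neg hUpos.le]
    have h2 : Real.exp ((1 / 20) * l ^ 2) ≤ (U : ℝ) ^ (1 / 20 : ℝ) := by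
      calc Real.exp ((1 / 20) * l ^ 2) = (Real.exp (l ^ 2)) ^ (1 / 20 : ℝ) := by
            rw [← Real.exp_mul]; congr 1; ring
        _ ≤ (U : ℝ) ^ (1 / 20 : ℝ) := Real.rpow_le_rpow (Real.exp_pos _).le hUl2 (by norm_num)
    have h3 : Real.exp (-(1 / 20) * l ^ 2) = (Real.exp ((1 / 20) * l ^ 2))⁻¹ := by
      rw [← Real.exp_neg]; congr 1; ring
    rw [h3]
    exact inv_anti₀ (Real.exp_pos _) h2

end Pool.Agent.W313.HB
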