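import Mathlib
import Pool.Agent.W313.HB.AnaC
import Pool.Agent.W313.HB.Stm3

set_option autoImplicit false
set_option linter.all false
set_option maxHeartbeats 1000000

namespace Pool.Agent.W313.HB

open Finset Polynomial

lemma sN_dvd (N y b : ℕ) : sN N y b ∣ b := by
  have h : sN N y b ∣ ∏ q ∈ b.primeFactors, q :=
    Finset.prod_dvd_prod_of_subset _ _ _ (Finset.filter_subset _ _)
  exact h.trans (Nat.prod_primeFactors_dvd _)

open Classical in
lemma GS_congr {P : ℤ[X]} {N t0 U y E : ℕ} {φ φ' : ℕ → ℤ[X]} {σ σ' : ℕ → ℤ} {b : ℕ}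
    (h : ∀ p : ℕ, p.Prime → p ∣ b → φ p = φ' p ∧ σ p = σ' p) :
    GS P N t0 U y E φ σ b = GS P N t0 U y E φ' σ' b := by
  have e : bp P N t0 y φ σ b = bp P N t0 y φ' σ' b := by
    unfold bp
    exact base_congr fun p hp hps => h p hp (hps.trans (sN_dvd N y b))
  unfold GS
  rw [e]
  apply Finset.filter_congr
  intro u _
  apply and_congr Iff.rfl
  apply forall_congr'
  intro p
  apply forall_congr'
  intro hp
  have hp' := h p (Nat.prime_of_mem_primeFactors hp) (Nat.dvd_of_mem_primeFactors hp)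
  rw [hp'.1, hp'.2]

lemma bp_congr {P : ℤ[X]} {N t0 y : ℕ} {φ φ' : ℕ → ℤ[X]} {σ σ' : ℕ → ℤ} {b : ℕ}
    (h : ∀ p : ℕ, p.Prime → p ∣ b → φ p = φ' p ∧ σ p = σ' p) :
    bp P N t0 y φ σ b = bp P N t0 y φ' σ' b := by
  unfold bp
  exact base_congr fun p hp hps => h p hp (hps.trans (sN_dvd N y b))

lemma notdvd_of_base {P : ℤ[X]} {φ : ℕ → ℤ[X]} {σ : ℕ → ℤ} {N t0 s t1 : ℕ}
    (h : IsBase P φ σ N t0 s t1) {q : ℕ} (hq : q.Prime) (hqs : q ∣ s) (u : ℕ) :
    ¬ (q : ℤ) ∣ val P t1 (N * s) u := by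
  intro h1
  apply (h.2.2 q hq hqs).2
  have h2 : (q : ℤ) ∣ P.eval ((t1 : ℤ) + ((N * s : ℕ) : ℤ) * (u : ℤ)) - P.eval (t1 : ℤ) := by
    apply eval_congr
    rw [add_sub_cancel_left]
    apply Dvd.dvd.mul_right
    exact Int.natCast_dvd_natCast.2 (hqs.trans (Dvd.intro_left _ rfl))
  exact (dvd_sub_right h1).1 h2

/-- the labels -/
noncomputable def lab (F1 F2 : ℤ[X]) (a : ℕ) : ℕ → ℤ[X] := fun p => if p ∣ a then F1 else F2

/-- the signs of a set of primes -/
def sgS (S : Finset ℕ) : ℕ → ℤ := fun p => if p ∈ S then -1 else 1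

/-- the signs of a pair -/
def sgP (a b : ℕ) : ℕ → ℤ := fun p => if p ∣ a then jacobiSym (b : ℤ) p else jacobiSym (a : ℤ) p

lemma sgS_pm (S : Finset ℕ) (p : ℕ) : sgS S p = 1 ∨ sgS S p = -1 := by
  unfold sgS; split_ifs <;> simp

lemma sgP_pm {a b p : ℕ} (hab : a.Coprime b) (hp : p.Prime) (h : p ∣ a ∨ p ∣ b) :
    sgP a b p = 1 ∨ sgP a b p = -1 := by
  unfold sgP
  split_ifs with h1
  · apply jac_pm' hp
    intro h2
    have := Nat.dvd_gcd h1 (Int.natCast_dvd_natCast.1 h2)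
    rw [hab] at this
    exact hp.one_lt.ne' (Nat.dvd_one.1 this)
  · apply jac_pm' hp
    intro h2
    exact h1 (Int.natCast_dvd_natCast.1 h2)

lemma GS_pair {P F1 F2 : ℤ[X]} {N t0 U y E : ℕ} {a b a' b' : ℕ} (hab : a.Coprime b)
    (ha : a' ∣ a) (hb : b' ∣ b) :
    GS P N t0 U y E (lab F1 F2 a) (sgP a b) (a' * b') =
      GS P N t0 U y E (lab F1 F2 a')
        (sgS ((a' * b').primeFactors.filter (fun q => sgP a b q = -1))) (a' * b') ∧
    bp P N t0 y (lab F1 F2 a) (sgP a b) (a' * b') =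
      bp P N t0 y (lab F1 F2 a')
        (sgS ((a' * b').primeFactors.filter (fun q => sgP a b q = -1))) (a' * b') := by
  have key : ∀ p : ℕ, p.Prime → p ∣ a' * b' → lab F1 F2 a p = lab F1 F2 a' p ∧
      sgP a b p = sgS ((a' * b').primeFactors.filter (fun q => sgP a b q = -1)) p := by
    intro p hp hpd
    have h0 : p ∣ a ∨ p ∣ b := (hp.dvd_mul.1 hpd).imp (fun h => h.trans ha) (fun h => h.trans hb)
    refine ⟨?_, ?_⟩
    · unfold lab
      by_cases h1 : p ∣ a'
      · rw [if_pos h1, if_pos (h1.trans ha)]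
      · have h2 : p ∣ b := ((hp.dvd_mul.1 hpd).resolve_left h1).trans hb
        have h3 : ¬ p ∣ a := by
          intro h3
          have := Nat.dvd_gcd h3 h2
          rw [hab] at this
          exact hp.one_lt.ne' (Nat.dvd_one.1 this)
        rw [if_neg h1, if_neg h3]
    · unfold sgS
      by_cases h1 : p ∈ (a' * b').primeFactors.filter (fun q => sgP a b q = -1)
      · rw [if_pos h1]; exact (Finset.mem_filter.1 h1).2
      · rw [if_neg h1]
        rcases sgP_pm hab hp h0 with h2 | h2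
        · exact h2
        · exfalso; apply h1
          rw [Finset.mem_filter, Nat.mem_primeFactors]
          refine ⟨⟨hp, hpd, ?_⟩, h2⟩
          rintro h3
          have hab0 : a ≠ 0 ∨ b ≠ 0 := by
            by_contra h4
            push Not at h4
            rw [h4.1, h4.2] at hab
            simp at hab
          have h4 : a' = 0 ∨ b' = 0 := Nat.mul_eq_zero.1 h3
          have h5 : a = 0 ∨ b = 0 := h4.imp (fun h => by rw [h] at ha; exact Nat.eq_zero_of_zero_dvd ha)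
            (fun h => by rw [h] at hb; exact Nat.eq_zero_of_zero_dvd hb)
          -- the other one is 1
          rcases h5 with h5 | h5
          · rw [h5, Nat.coprime_zero_left] at hab
            rw [h5, hab] at h2
            unfold sgP at h2
            rw [if_pos (dvd_zero p)] at h2
            simp [jacobiSym.one_left] at h2
          · rw [h5, Nat.coprime_zero_right] at hab
            rw [h5, hab] at h2
            unfold sgP at h2
            rw [if_neg (fun h => hp.one_lt.ne' (Nat.dvd_one.1 h))] at h2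
            simp [jacobiSym.one_left] at h2
  exact ⟨GS_congr key, bp_congr key⟩

/-- the class of a prime divisor: whether it divides `v1` -/
noncomputable def gw2 (v1 v2 v3 : ℤ) (q : ℕ) : ℤ :=
  if (q : ℤ) ∣ v1 then jacobiSym (v2 * v3) q
  else if (q : ℤ) ∣ v2 then jacobiSym (v1 * v3) q
  else jacobiSym (-(v1 * v2)) q

/-- the part of `e` prime to `v1` -/
noncomputable def e23 (v1 : ℤ) (e : ℕ) : ℕ := ∏ q ∈ e.primeFactors.filter (fun q : ℕ => ¬ (q : ℤ) ∣ v1), q

/-- the part of `e` of the primes of the first and of the third kind -/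
noncomputable def e13 (v1 v2 : ℤ) (e : ℕ) : ℕ :=
  ∏ q ∈ e.primeFactors.filter (fun q : ℕ => (q : ℤ) ∣ v1 ∨ ¬ (q : ℤ) ∣ v2), q

/-- the factor for a prime -/
noncomputable def hq2 (v1 v2 v3 : ℤ) (a b : ℕ) (q : ℕ) : ℤ :=
  (if (q : ℤ) ∣ v1 then 1 else jacobiSym (a : ℤ) q) *
  (if (q : ℤ) ∣ v1 ∨ ¬ (q : ℤ) ∣ v2 then jacobiSym (b : ℤ) q else 1) * gw2 v1 v2 v3 q

lemma abs_gw2_le (v1 v2 v3 : ℤ) (q : ℕ) : |(gw2 v1 v2 v3 q : ℝ)| ≤ 1 := by
  unfold gw2
  split_ifs <;> exact abs_jac_le _ _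

lemma jac_prodS (n : ℤ) (S : Finset ℕ) (hS : ∀ q ∈ S, q.Prime) :
    (jacobiSym n (∏ q ∈ S, q) : ℝ) = ∏ q ∈ S, (jacobiSym n q : ℝ) := by
  rw [jac_prod n (squarefree_prod' hS), primeFactors_prod' hS]

lemma prod_hq2 (v1 v2 v3 : ℤ) (a b : ℕ) (e : ℕ) :
    ∏ q ∈ e.primeFactors, (hq2 v1 v2 v3 a b q : ℝ) =
      (jacobiSym (a : ℤ) (e23 v1 e) : ℝ) * (jacobiSym (b : ℤ) (e13 v1 v2 e) : ℝ) *
        ∏ q ∈ e.primeFactors, (gw2 v1 v2 v3 q : ℝ) := by
  unfold hq2 e23 e13
  push_cast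
  rw [Finset.prod_mul_distrib, Finset.prod_mul_distrib, jac_prodS, jac_prodS, Finset.prod_filter,
    Finset.prod_filter]
  · congr 2
    apply Finset.prod_congr rfl
    intro q _
    by_cases h : (q : ℤ) ∣ v1 <;> simp [h]
  · intro q hq; exact Nat.prime_of_mem_primeFactors (Finset.mem_filter.1 hq).1
  · intro q hq; exact Nat.prime_of_mem_primeFactors (Finset.mem_filter.1 hq).1

lemma e23_dvd (v1 : ℤ) (e : ℕ) : e23 v1 e ∣ e := by
  have h : e23 v1 e ∣ ∏ q ∈ e.primeFactors, q :=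
    Finset.prod_dvd_prod_of_subset _ _ _ (Finset.filter_subset _ _)
  exact h.trans (Nat.prod_primeFactors_dvd _)

lemma e23_pos (v1 : ℤ) (e : ℕ) : 0 < e23 v1 e :=
  Finset.prod_pos fun q hq => (Nat.prime_of_mem_primeFactors (Finset.mem_filter.1 hq).1).pos

lemma e23_eq_one {v1 : ℤ} {e : ℕ} : e23 v1 e = 1 ↔ ∀ q ∈ e.primeFactors, (q : ℤ) ∣ v1 := by
  unfold e23
  constructor
  · intro h q hq
    by_contra h1
    have h2 : q ∣ ∏ q ∈ e.primeFactors.filter (fun q : ℕ => ¬ (q : ℤ) ∣ v1), q :=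
      Finset.dvd_prod_of_mem _ (Finset.mem_filter.2 ⟨hq, h1⟩)
    rw [h] at h2
    exact (Nat.prime_of_mem_primeFactors hq).one_lt.ne' (Nat.dvd_one.1 h2)
  · intro h
    rw [Finset.filter_false_of_mem (fun q hq h1 => h1 (h q hq)), Finset.prod_empty]

lemma e13_of_one {v1 v2 : ℤ} {e : ℕ} (he : Squarefree e) (h : e23 v1 e = 1) : e13 v1 v2 e = e := by
  rw [e23_eq_one] at h
  unfold e13
  rw [Finset.filter_true_of_mem (fun q hq => Or.inl (h q hq))]
  exact Nat.prod_primeFactors_of_squarefree he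

end Pool.Agent.W313.HB
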