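import Mathlib
import Pool.Agent.W313.HB.Sc2A

set_option autoImplicit false
set_option linter.all false
set_option maxHeartbeats 1000000

namespace Pool.Agent.W313.HB

open Finset Polynomial

lemma card_pf_mul (a b : ℕ) : (a * b).primeFactors.card ≤ a.primeFactors.card + b.primeFactors.card := by
  by_cases ha : a = 0
  · simp [ha]
  by_cases hb : b = 0
  · simp [hb]
  rw [Nat.primeFactors_mul ha hb]
  exact Finset.card_union_le _ _

lemma card_divisors_sq {b : ℕ} (hb : Squarefree b) : b.divisors.card = 2 ^ b.primeFactors.card := by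
  have h := prod_expand b.primeFactors (fun q hq => Nat.prime_of_mem_primeFactors hq) (fun _ => 1)
  simp only [Finset.prod_const, one_pow, Finset.sum_const, nsmul_eq_mul, mul_one] at h
  rw [Nat.prod_primeFactors_of_squarefree hb] at h
  have h' : ((b.divisors.card : ℕ) : ℝ) = ((2 ^ b.primeFactors.card : ℕ) : ℝ) := by
    rw [← h]; push_cast; norm_num
  exact_mod_cast h'

lemma sN_le_mul {N y a b a' b' : ℕ} (ha : a ≠ 0) (hb : b ≠ 0) (h1 : a' ∣ a) (h2 : b' ∣ b) :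
    sN N y (a' * b') ≤ sm y a * sm y b := by
  have e : sN N y (a' * b') ∣ sm y a * sm y b := by
    have h3 : sN N y (a' * b') ∣ ∏ p ∈ (a.primeFactors.filter (fun p => p ≤ y)) ∪
        (b.primeFactors.filter (fun p => p ≤ y)), p := by
      apply Finset.prod_dvd_prod_of_subset
      intro p hp
      rw [Finset.mem_filter, Nat.mem_primeFactors] at hp
      obtain ⟨⟨hp, hd, hne⟩, hy, -⟩ := hp
      rw [Finset.mem_union, Finset.mem_filter, Finset.mem_filter, Nat.mem_primeFactors,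
        Nat.mem_primeFactors]
      rcases hp.dvd_mul.1 hd with h | h
      · exact Or.inl ⟨⟨hp, h.trans h1, ha⟩, hy⟩
      · exact Or.inr ⟨⟨hp, h.trans h2, hb⟩, hy⟩
    refine h3.trans ?_
    unfold sm
    rw [← Finset.prod_union_inter]
    exact Dvd.intro _ rfl
  apply Nat.le_of_dvd _ e
  apply Nat.mul_pos
  · exact Finset.prod_pos fun q hq => (Nat.prime_of_mem_primeFactors (Finset.mem_filter.1 hq).1).pos
  · exact Finset.prod_pos fun q hq => (Nat.prime_of_mem_primeFactors (Finset.mem_filter.1 hq).1).pos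

open Classical in
/-- counting by mean squares -/
lemma cntQ {f : ℕ → ℝ} {g κ W D R : ℝ} {X : ℕ} (hκ : 0 < κ) (hW : 0 < W) (hg : W ≤ g)
    (hsum : ∑ n ∈ (Icc 1 X).filter (fun n => Odd n), f n ^ 2 ≤ R) (hR : R ≤ D * W ^ 2) (hD : 0 ≤ D) :
    (((Icc 1 X).filter (fun p => Odd p ∧ g / κ ≤ |f p|)).card : ℝ) ≤ κ ^ 2 * D := by
  have hg0 : 0 < g := hW.trans_le hg
  have h5 : (((Icc 1 X).filter (fun p => Odd p ∧ g / κ ≤ |f p|)).card : ℝ) * (g / κ) ^ 2 ≤
      ∑ n ∈ (Icc 1 X).filter (fun n => Odd n), f n ^ 2 := by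
    rw [← nsmul_eq_mul, ← Finset.sum_const]
    refine le_trans ?_ (Finset.sum_le_sum_of_subset_of_nonneg
      (s := (Icc 1 X).filter (fun p => Odd p ∧ g / κ ≤ |f p|)) ?_ (fun _ _ _ => sq_nonneg _))
    · apply Finset.sum_le_sum
      intro p hp
      rw [Finset.mem_filter] at hp
      rw [← sq_abs (f p)]
      exact pow_le_pow_left₀ (by positivity) hp.2.2 2
    · intro p hp
      rw [Finset.mem_filter] at hp ⊢
      exact ⟨hp.1, hp.2.1⟩
  have h6 : D * W ^ 2 ≤ D * g ^ 2 :=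
    mul_le_mul_of_nonneg_left (pow_le_pow_left₀ hW.le hg 2) hD
  have h7 := h5.trans (hsum.trans (hR.trans h6))
  have h8 : (0 : ℝ) < (g / κ) ^ 2 := by positivity
  have h9 : D * g ^ 2 = κ ^ 2 * D * (g / κ) ^ 2 := by field_simp
  rw [h9] at h7
  exact le_of_mul_le_mul_right h7 h8

open Classical in
/-- union bound over two indices -/
lemma card_union2 {α : Type} (s : Finset ℕ) (𝒮 : Finset α) (Q : α → Bool → ℕ → Prop) (D : ℝ)
    (h : ∀ S ∈ 𝒮, ∀ i, ((s.filter (fun p => Q S i p)).card : ℝ) ≤ D) :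
    ((s.filter (fun p => ∃ S ∈ 𝒮, ∃ i, Q S i p)).card : ℝ) ≤ 𝒮.card * (2 * D) := by
  have h1 : s.filter (fun p => ∃ S ∈ 𝒮, ∃ i, Q S i p) ⊆
      𝒮.biUnion (fun S => (Finset.univ : Finset Bool).biUnion (fun i => s.filter (fun p => Q S i p))) := by
    intro p hp
    rw [Finset.mem_filter] at hp
    obtain ⟨hp, S, hS, i, hQ⟩ := hp
    rw [Finset.mem_biUnion]
    refine ⟨S, hS, ?_⟩
    rw [Finset.mem_biUnion]
    exact ⟨i, Finset.mem_univ _, Finset.mem_filter.2 ⟨hp, hQ⟩⟩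
  have h2 : ((s.filter (fun p => ∃ S ∈ 𝒮, ∃ i, Q S i p)).card : ℝ) ≤
      ∑ S ∈ 𝒮, ∑ i : Bool, ((s.filter (fun p => Q S i p)).card : ℝ) := by
    have h3 := (Finset.card_le_card h1).trans Finset.card_biUnion_le
    have h4 : ∑ S ∈ 𝒮, ((Finset.univ : Finset Bool).biUnion (fun i => s.filter (fun p => Q S i p))).card ≤
        ∑ S ∈ 𝒮, ∑ i : Bool, (s.filter (fun p => Q S i p)).card :=
      Finset.sum_le_sum fun S _ => Finset.card_biUnion_le
    exact_mod_cast h3.trans h4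
  refine h2.trans ?_
  calc ∑ S ∈ 𝒮, ∑ i : Bool, ((s.filter (fun p => Q S i p)).card : ℝ) ≤ ∑ S ∈ 𝒮, ∑ i : Bool, D :=
        Finset.sum_le_sum fun S hS => Finset.sum_le_sum fun i _ => h S hS i
    _ = 𝒮.card * (2 * D) := by simp

open Classical in
/-- union bound over one index -/
lemma card_union1 {α : Type} (s : Finset ℕ) (𝒮 : Finset α) (Q : α → ℕ → Prop) (D : ℝ)
    (h : ∀ S ∈ 𝒮, ((s.filter (fun p => Q S p)).card : ℝ) ≤ D) :
    ((s.filter (fun p => ∃ S ∈ 𝒮, Q S p)).card : ℝ) ≤ 𝒮.card * D := by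
  have h1 : s.filter (fun p => ∃ S ∈ 𝒮, Q S p) ⊆ 𝒮.biUnion (fun S => s.filter (fun p => Q S p)) := by
    intro p hp
    rw [Finset.mem_filter] at hp
    obtain ⟨hp, S, hS, hQ⟩ := hp
    rw [Finset.mem_biUnion]
    exact ⟨S, hS, Finset.mem_filter.2 ⟨hp, hQ⟩⟩
  have h2 : ((s.filter (fun p => ∃ S ∈ 𝒮, Q S p)).card : ℝ) ≤
      ∑ S ∈ 𝒮, ((s.filter (fun p => Q S p)).card : ℝ) := by
    have h3 := (Finset.card_le_card h1).trans Finset.card_biUnion_le
    exact_mod_cast h3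
  refine h2.trans ((Finset.sum_le_sum h).trans ?_)
  simp

section Sc

variable (P1 P2 P3 : ℤ[X]) (N t0 U y E : ℕ)

/-- the two polynomials -/
noncomputable def FF (i : Bool) : ℤ[X] := if i then P2 * P3 else P1 * P3

/-- the sets -/
noncomputable def GG (a' n' : ℕ) (S : Finset ℕ) : Finset ℕ :=
  GS (P1 * P2 * P3) N t0 U y E (lab (P2 * P3) (P1 * P3) a') (sgS S) n'

/-- the base points -/
noncomputable def TT (a' n' : ℕ) (S : Finset ℕ) : ℕ :=
  bp (P1 * P2 * P3) N t0 y (lab (P2 * P3) (P1 * P3) a') (sgS S) n'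

/-- the weights of the first kind -/
noncomputable def c2 (t1 M a0 b : ℕ) (x : ℕ × ℕ) : ℝ :=
  (jacobiSym (a0 : ℤ) x.2 : ℝ) * ∑ e ∈ (mm M (val (P1 * P2 * P3) t1 M x.1)).divisors.filter
    (fun e => e23 (val P1 t1 M x.1) e = x.2),
      (jacobiSym (b : ℤ) (e13 (val P1 t1 M x.1) (val P2 t1 M x.1) e) : ℝ) *
        ∏ q ∈ e.primeFactors, (gw2 (val P1 t1 M x.1) (val P2 t1 M x.1) (val P3 t1 M x.1) q : ℝ)

/-- the weights of the second kind -/
noncomputable def c3 (t1 M b0 : ℕ) (x : ℕ × ℕ) : ℝ :=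
  (jacobiSym (b0 : ℤ) x.2 : ℝ) *
    ∏ q ∈ x.2.primeFactors, (gw2 (val P1 t1 M x.1) (val P2 t1 M x.1) (val P3 t1 M x.1) q : ℝ)

open Classical in
/-- the index set of the divisors of the first kind -/
noncomputable def I1 (G : Finset ℕ) (t1 M : ℕ) : Finset (ℕ × ℕ) :=
  (II G M (fun u => val (P1 * P2 * P3) t1 M u)).filter
    (fun x => ∀ q ∈ x.2.primeFactors, (q : ℤ) ∣ val P1 t1 M x.1)

/-- the two sums over the divisors of the first kind -/
noncomputable def Tsum (G : Finset ℕ) (t1 M b0 : ℕ) (i : Bool) (p : ℕ) : ℝ :=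
  if i then ∑ x ∈ I1 P1 P2 P3 G t1 M, c3 P1 P2 P3 t1 M b0 x * (jacobiSym (p : ℤ) x.2 : ℝ)
  else ∑ x ∈ I1 P1 P2 P3 G t1 M, c3 P1 P2 P3 t1 M b0 x * ((jacobiSym (p : ℤ) x.2 : ℝ) *
    (jacobiSym (val (P1 * P3) t1 M x.1) p : ℝ))

end Sc

lemma abs_c2_le (P1 P2 P3 : ℤ[X]) (t1 M a0 b : ℕ) (x : ℕ × ℕ) :
    |c2 P1 P2 P3 t1 M a0 b x| ≤ ((mm M (val (P1 * P2 * P3) t1 M x.1)).divisors.card : ℝ) := by
  unfold c2
  rw [abs_mul]
  calc _ ≤ 1 * |∑ e ∈ (mm M (val (P1 * P2 * P3) t1 M x.1)).divisors.filter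
        (fun e => e23 (val P1 t1 M x.1) e = x.2),
        (jacobiSym (b : ℤ) (e13 (val P1 t1 M x.1) (val P2 t1 M x.1) e) : ℝ) *
        ∏ q ∈ e.primeFactors, (gw2 (val P1 t1 M x.1) (val P2 t1 M x.1) (val P3 t1 M x.1) q : ℝ)| :=
      mul_le_mul_of_nonneg_right (abs_jac_le _ _) (abs_nonneg _)
    _ ≤ ∑ e ∈ (mm M (val (P1 * P2 * P3) t1 M x.1)).divisors.filter
        (fun e => e23 (val P1 t1 M x.1) e = x.2), (1 : ℝ) := by
      rw [one_mul]
      refine (Finset.abs_sum_le_sum_abs _ _).trans (Finset.sum_le_sum fun e _ => ?_)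
      rw [abs_mul]
      exact mul_le_one₀ (abs_jac_le _ _) (abs_nonneg _)
        (abs_prod_le_one fun q _ => abs_gw2_le _ _ _ _)
    _ ≤ _ := by
      rw [Finset.sum_const, nsmul_eq_mul, mul_one]
      exact_mod_cast Finset.card_filter_le _ _

lemma abs_c3_le (P1 P2 P3 : ℤ[X]) (t1 M b0 : ℕ) (x : ℕ × ℕ) : |c3 P1 P2 P3 t1 M b0 x| ≤ 1 := by
  unfold c3
  rw [abs_mul]
  exact mul_le_one₀ (abs_jac_le _ _) (abs_nonneg _)
    (abs_prod_le_one fun q _ => abs_gw2_le _ _ _ _)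

/-- the decomposition of the weighted count -/
lemma decomp (P1 P2 P3 : ℤ[X]) (G : Finset ℕ) (t1 M a b a0 p : ℕ) (hap : a = a0 * p) :
    ∑ u ∈ G, ∏ q ∈ Dm M (val (P1 * P2 * P3) t1 M u),
      (1 + (hq2 (val P1 t1 M u) (val P2 t1 M u) (val P3 t1 M u) a b q : ℝ)) =
    (G.card : ℝ) + ∑ x ∈ II G M (fun u => val (P1 * P2 * P3) t1 M u),
        c2 P1 P2 P3 t1 M a0 b x * (jacobiSym (p : ℤ) x.2 : ℝ) +
      ∑ x ∈ I1 P1 P2 P3 G t1 M, c3 P1 P2 P3 t1 M b x := by
  classical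
  have h0 := expand (G := G) (M := M) (v := fun u => val (P1 * P2 * P3) t1 M u)
    (fun u q => (hq2 (val P1 t1 M u) (val P2 t1 M u) (val P3 t1 M u) a b q : ℝ))
  rw [h0, add_assoc]
  congr 1
  set v : ℕ → ℤ := fun u => val (P1 * P2 * P3) t1 M u with hv
  set f : ℕ → ℕ → ℝ := fun u e => (jacobiSym (b : ℤ) (e13 (val P1 t1 M u) (val P2 t1 M u) e) : ℝ) *
    ∏ q ∈ e.primeFactors, (gw2 (val P1 t1 M u) (val P2 t1 M u) (val P3 t1 M u) q : ℝ) with hf
  have h1 : ∀ x ∈ II G M v, ∏ q ∈ x.2.primeFactors,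
      (hq2 (val P1 t1 M x.1) (val P2 t1 M x.1) (val P3 t1 M x.1) a b q : ℝ) =
      (jacobiSym (a : ℤ) (e23 (val P1 t1 M x.1) x.2) : ℝ) * f x.1 x.2 := by
    intro x _
    rw [prod_hq2]; simp only [hf]; ring
  rw [Finset.sum_congr rfl h1, ← Finset.sum_filter_add_sum_filter_not (II G M v)
    (fun x => ¬ e23 (val P1 t1 M x.1) x.2 = 1)]
  congr 1
  · -- the first sum
    rw [Finset.sum_filter, sum_II, sum_II]
    apply Finset.sum_congr rfl
    intro u hu
    have h2 : ∀ k ∈ (mm M (v u)).divisors.filter (fun e => 1 < e),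
        c2 P1 P2 P3 t1 M a0 b (u, k) * (jacobiSym (p : ℤ) k : ℝ) =
        ∑ e ∈ (mm M (v u)).divisors.filter (fun e => 1 < e),
          if e23 (val P1 t1 M u) e = k then (jacobiSym (a : ℤ) k : ℝ) * f u e else 0 := by
      intro k hk
      rw [Finset.mem_filter] at hk
      unfold c2
      rw [← Finset.sum_filter, Finset.filter_filter]
      have h3 : (mm M (v u)).divisors.filter (fun e => 1 < e ∧ e23 (val P1 t1 M u) e = k) =
          (mm M (v u)).divisors.filter (fun e => e23 (val P1 t1 M u) e = k) := by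
        apply Finset.filter_congr
        intro e he
        constructor
        · exact fun h => h.2
        · intro h
          refine ⟨?_, h⟩
          have h4 : e23 (val P1 t1 M u) e ≤ e :=
            Nat.le_of_dvd (Nat.pos_of_mem_divisors he) (e23_dvd _ _)
          omega
      rw [h3, ← Finset.mul_sum, hap]
      push_cast
      rw [jacobiSym.mul_left]
      push_cast
      ring
    dsimp only
    rw [Finset.sum_congr rfl h2, Finset.sum_comm]
    apply Finset.sum_congr rfl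
    intro e he
    rw [Finset.mem_filter] at he
    rw [Finset.sum_ite_eq]
    by_cases h3 : e23 (val P1 t1 M u) e = 1
    · rw [if_neg (not_not.2 h3), if_neg]
      rw [h3, Finset.mem_filter]
      rintro ⟨-, h4⟩
      omega
    · rw [if_pos h3, if_pos]
      rw [Finset.mem_filter, Nat.mem_divisors]
      have h4 := e23_pos (val P1 t1 M u) e
      exact ⟨⟨(e23_dvd _ _).trans (Nat.dvd_of_mem_divisors he.1), (mm_sq _ _).ne_zero⟩, by omega⟩
  · -- the second sum
    unfold I1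
    have h2 : (II G M v).filter (fun x => ¬ ¬ e23 (val P1 t1 M x.1) x.2 = 1) =
        (II G M v).filter (fun x : ℕ × ℕ => ∀ q ∈ x.2.primeFactors,
          ((q : ℕ) : ℤ) ∣ val P1 t1 M x.1) := by
      apply Finset.filter_congr
      intro x _
      rw [not_not, e23_eq_one]
    rw [h2]
    apply Finset.sum_congr rfl
    intro x hx
    rw [Finset.mem_filter, mem_II] at hx
    have h3 : e23 (val P1 t1 M x.1) x.2 = 1 := e23_eq_one.2 hx.2
    have h4 : Squarefree x.2 := (mm_sq M (v x.1)).squarefree_of_dvd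
      (Nat.dvd_of_mem_divisors hx.1.2.1)
    simp only [hf]
    unfold c3
    rw [h3, e13_of_one h4 h3, jacobiSym.one_right]
    push_cast
    ring

/-- the sum over the divisors of the first kind when the last prime of `b` varies -/
lemma ysum (P1 P2 P3 : ℤ[X]) (G' : Finset ℕ) (t1 M b b0 p : ℕ) (τ : ℤ) (hbp : b = b0 * p)
    (hτ : τ = 1 ∨ τ = -1)
    (hJ : ∀ u ∈ G', jacobiSym (val (P1 * P3) t1 M u) p = 1 ∨ jacobiSym (val (P1 * P3) t1 M u) p = -1) :
    |∑ x ∈ I1 P1 P2 P3 (G'.filter (fun u => jacobiSym (val (P1 * P3) t1 M u) p = τ)) t1 M,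
      c3 P1 P2 P3 t1 M b x| ≤
    (|Tsum P1 P2 P3 G' t1 M b0 true p| + |Tsum P1 P2 P3 G' t1 M b0 false p|) / 2 := by
  classical
  have key : ∑ x ∈ I1 P1 P2 P3 (G'.filter (fun u => jacobiSym (val (P1 * P3) t1 M u) p = τ)) t1 M,
      c3 P1 P2 P3 t1 M b x = (Tsum P1 P2 P3 G' t1 M b0 true p +
        (τ : ℝ) * Tsum P1 P2 P3 G' t1 M b0 false p) / 2 := by
    have h1 : I1 P1 P2 P3 (G'.filter (fun u => jacobiSym (val (P1 * P3) t1 M u) p = τ)) t1 M =
        (I1 P1 P2 P3 G' t1 M).filter (fun x => jacobiSym (val (P1 * P3) t1 M x.1) p = τ) := by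
      ext x
      unfold I1
      simp only [Finset.mem_filter, mem_II]
      tauto
    rw [h1, Finset.sum_filter]
    unfold Tsum
    simp only [if_true, Bool.false_eq_true, if_false]
    rw [Finset.mul_sum, ← Finset.sum_add_distrib, Finset.sum_div]
    apply Finset.sum_congr rfl
    intro x hx
    have h2 : x.1 ∈ G' := by
      unfold I1 at hx
      rw [Finset.mem_filter, mem_II] at hx
      exact hx.1.1
    have h3 : c3 P1 P2 P3 t1 M b x = c3 P1 P2 P3 t1 M b0 x * (jacobiSym (p : ℤ) x.2 : ℝ) := by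
      unfold c3
      rw [hbp]
      push_cast
      rw [jacobiSym.mul_left]
      push_cast
      ring
    rw [h3]
    rcases hJ x.1 h2 with h4 | h4 <;> rcases hτ with h5 | h5 <;> rw [h4, h5] <;> norm_num <;> ring
  rw [key, abs_div, abs_of_pos (by norm_num : (0 : ℝ) < 2)]
  apply div_le_div_of_nonneg_right _ (by norm_num)
  refine (abs_add_le _ _).trans ?_
  apply add_le_add le_rfl
  rw [abs_mul]
  rcases hτ with h5 | h5 <;> rw [h5] <;> norm_num

end Pool.Agent.W313.HB
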