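import Mathlib
import Pool.Agent.W313.HB.Sc2B

set_option autoImplicit false
set_option linter.all false
set_option maxHeartbeats 2000000

namespace Pool.Agent.W313.HB

open Finset Polynomial

open Classical in
lemma GG_mem {P1 P2 P3 : ℤ[X]} {N t0 U y E a' n' u : ℕ} {S : Finset ℕ}
    (h : u ∈ GG P1 P2 P3 N t0 U y E a' n' S) : u ∈ Ioc U (2 * U) ∧
    (∀ q : ℕ, q.Prime → q ≤ E → ¬ q ∣ md N y n' →
      ¬ (q : ℤ) ∣ val (P1 * P2 * P3) (TT P1 P2 P3 N t0 y a' n' S) (md N y n') u) := by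
  unfold GG GS at h
  rw [Finset.mem_filter] at h
  exact ⟨h.1, h.2.1⟩

lemma seg_mul {a b r : ℕ} (hab : a.Coprime b) (ha : a ≠ 0) (hb : b ≠ 0) :
    seg (a * b) r = seg a r * seg b r := by
  unfold seg
  rw [Nat.primeFactors_mul ha hb, Finset.filter_union, Finset.prod_union]
  exact Finset.disjoint_filter_filter hab.disjoint_primeFactors

lemma seg_dvd (a r : ℕ) : seg a r ∣ a := by
  have h : seg a r ∣ ∏ q ∈ a.primeFactors, q :=
    Finset.prod_dvd_prod_of_subset _ _ _ (Finset.filter_subset _ _)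
  exact h.trans (Nat.prod_primeFactors_dvd _)

lemma seg_seg {a r s : ℕ} (h : r ≤ s) : seg (seg a s) r = seg a r := by
  unfold seg
  rw [primeFactors_prod' fun q hq => Nat.prime_of_mem_primeFactors (Finset.mem_filter.1 hq).1,
    Finset.filter_filter]
  congr 1
  ext q
  simp only [Finset.mem_filter]
  constructor
  · rintro ⟨h1, h2, h3⟩; exact ⟨h1, h3⟩
  · rintro ⟨h1, h3⟩; exact ⟨h1, by omega, h3⟩

lemma seg_max {a p : ℕ} (hsq : Squarefree a) (hp : p ∈ a.primeFactors)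
    (hmax : ∀ q ∈ a.primeFactors, q ≤ p) : seg a p * p = a ∧ a / p = seg a p := by
  have h1 : seg a p * p = a := by
    rw [← seg_succ_mem hp]
    exact seg_all hsq fun q hq => Nat.lt_succ_of_le (hmax q hq)
  refine ⟨h1, ?_⟩
  conv_lhs => rw [← h1]
  exact Nat.mul_div_cancel _ (Nat.prime_of_mem_primeFactors hp).pos

/-- the argument for one pair -/
theorem pair_main {P1 P2 P3 : ℤ[X]} {T0 : ℤ} {N t0 U y E k0 C1 S0 a b p r : ℕ} {V : ℝ}
    (hT0 : T0 ≤ (U : ℤ)) (hN : 1 ≤ N) (h2N : 2 ∣ N)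
    (hNS : N * S0 ≤ U) (hyN : N ≤ y) (hyU : U ^ C1 ≤ y) (hV : 0 < V)
    (hsize : ∀ M t1 u : ℕ, 1 ≤ M → M ≤ U → t1 ≤ U → U < u → u ≤ 2 * U →
      val (P1 * P2 * P3) t1 M u ≠ 0 ∧ |val (P1 * P2 * P3) t1 M u| ≤ (U : ℤ) ^ C1 ∧
        (∀ i, |val (FF P1 P2 P3 i) t1 M u| ≤ (U : ℤ) ^ C1) ∧
        (0 < val P1 t1 M u * val P3 t1 M u ∨ 0 < val P2 t1 M u * val P3 t1 M u))
    (hsieve : ∀ (M t1 : ℕ) (Q : Finset ℕ), (∀ q ∈ Q, q.Prime ∧ q ≤ E ∧ ¬ q ∣ M ∧ ¬ q ∣ N) →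
      V ≤ (((Ioc U (2 * U)).filter
        (fun u : ℕ => ∀ q ∈ Q, ¬ (q : ℤ) ∣ val (P1 * P2 * P3) t1 M u)).card : ℝ))
    (hexist : ∀ p : ℕ, p.Prime → ¬ p ∣ N → ∀ (i : Bool) (τ : ℤ), (τ = 1 ∨ τ = -1) → ∃ x : ℕ, x < p ∧
      jacobiSym ((FF P1 P2 P3 i).eval (x : ℤ)) p = τ ∧ ¬ (p : ℤ) ∣ (P1 * P2 * P3).eval (x : ℤ))
    (hres : ∀ q : ℕ, q.Prime → ¬ q ∣ N → ∀ x : ℤ,
      ((q : ℤ) ∣ P1.eval x → ¬ (q : ℤ) ∣ P2.eval x ∧ ¬ (q : ℤ) ∣ P3.eval x) ∧
      ((q : ℤ) ∣ P2.eval x → ¬ (q : ℤ) ∣ P3.eval x))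
    (hsqa : Squarefree a) (hsqb : Squarefree b) (hab : a.Coprime b)
    (hsm : sm y a * sm y b ≤ S0)
    (hcard : a.primeFactors.card + b.primeFactors.card ≤ k0)
    (hp : p ∈ a.primeFactors) (hmax : ∀ q ∈ a.primeFactors, q ≤ p) (hyp : y < p)
    (hr : r ∈ b.primeFactors) (hmaxr : ∀ q ∈ b.primeFactors, q ≤ r) (hyr : y < r)
    (hnA : ∀ q ∈ a.primeFactors, y < q → ∀ d ∈ b.divisors, ∀ S ∈ (seg a q * d).primeFactors.powerset,
      ∀ i, V / 4 ^ k0 ≤ ((GG P1 P2 P3 N t0 U y E (seg a q) (seg a q * d) S).card : ℝ) →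
        |((∑ u ∈ GG P1 P2 P3 N t0 U y E (seg a q) (seg a q * d) S,
          jacobiSym (val (FF P1 P2 P3 i) (TT P1 P2 P3 N t0 y (seg a q) (seg a q * d) S)
            (md N y (seg a q * d)) u) q : ℤ) : ℝ)| ≤
        ((GG P1 P2 P3 N t0 U y E (seg a q) (seg a q * d) S).card : ℝ) / 2)
    (hnB : ∀ q ∈ b.primeFactors, y < q → ∀ d ∈ a.divisors, ∀ S ∈ (d * seg b q).primeFactors.powerset,
      ∀ i, V / 4 ^ k0 ≤ ((GG P1 P2 P3 N t0 U y E d (d * seg b q) S).card : ℝ) →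
        |((∑ u ∈ GG P1 P2 P3 N t0 U y E d (d * seg b q) S,
          jacobiSym (val (FF P1 P2 P3 i) (TT P1 P2 P3 N t0 y d (d * seg b q) S)
            (md N y (d * seg b q)) u) q : ℤ) : ℝ)| ≤
        ((GG P1 P2 P3 N t0 U y E d (d * seg b q) S).card : ℝ) / 2)
    (hn2 : ∀ S ∈ (seg a p * b).primeFactors.powerset,
      V / 4 ^ k0 ≤ ((GG P1 P2 P3 N t0 U y E (seg a p) (seg a p * b) S).card : ℝ) →
        |∑ x ∈ II (GG P1 P2 P3 N t0 U y E (seg a p) (seg a p * b) S) (md N y (seg a p * b))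
          (fun u => val (P1 * P2 * P3) (TT P1 P2 P3 N t0 y (seg a p) (seg a p * b) S)
            (md N y (seg a p * b)) u),
          c2 P1 P2 P3 (TT P1 P2 P3 N t0 y (seg a p) (seg a p * b) S) (md N y (seg a p * b))
            (seg a p) b x * (jacobiSym (p : ℤ) x.2 : ℝ)| <
        ((GG P1 P2 P3 N t0 U y E (seg a p) (seg a p * b) S).card : ℝ) / 3)
    (hn3 : ∀ d ∈ a.divisors, ∀ S ∈ (d * seg b r).primeFactors.powerset, ∀ i,
      V / 4 ^ k0 ≤ ((GG P1 P2 P3 N t0 U y E d (d * seg b r) S).card : ℝ) →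
        |Tsum P1 P2 P3 (GG P1 P2 P3 N t0 U y E d (d * seg b r) S)
          (TT P1 P2 P3 N t0 y d (d * seg b r) S) (md N y (d * seg b r)) (seg b r) i r| <
        ((GG P1 P2 P3 N t0 U y E d (d * seg b r) S).card : ℝ) / 12) :
    ∃ (ps : ℕ) (t : ℤ), ps.Prime ∧ ¬ ps ∣ N ∧ (N : ℤ) ∣ t - t0 ∧ T0 ≤ t ∧
      Cond2 P1 P2 P3 N a b ps t := by
  classical
  set P := P1 * P2 * P3 with hP
  have ha0 : a ≠ 0 := hsqa.ne_zero
  have hb0 : b ≠ 0 := hsqb.ne_zero
  have hpp : p.Prime := Nat.prime_of_mem_primeFactors hp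
  have hrp : r.Prime := Nat.prime_of_mem_primeFactors hr
  have hVk : 0 < V / 4 ^ k0 := div_pos hV (by positivity)
  obtain ⟨φ, hφ⟩ : ∃ φ, φ = lab (P2 * P3) (P1 * P3) a := ⟨_, rfl⟩
  obtain ⟨σ, hσ⟩ : ∃ σ, σ = sgP a b := ⟨_, rfl⟩
  have hsegp := seg_max hsqa hp hmax
  have hsegr := seg_max hsqb hr hmaxr
  obtain ⟨a0, hA0⟩ : ∃ a0, a0 = seg a p := ⟨_, rfl⟩
  obtain ⟨b0, hB0⟩ : ∃ b0, b0 = seg b r := ⟨_, rfl⟩
  have ha0d : a0 ∣ a := by rw [hA0]; exact seg_dvd a p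
  have hb0d : b0 ∣ b := by rw [hB0]; exact seg_dvd b r
  have ha0ne : a0 ≠ 0 := by rw [hA0]; exact seg_ne a p
  have hb0ne : b0 ≠ 0 := by rw [hB0]; exact seg_ne b r
  have hnab : ∀ q : ℕ, q.Prime → q ∣ a → q ∣ b → False := by
    intro q hq h1 h2
    have := Nat.dvd_gcd h1 h2
    rw [hab] at this
    exact hq.one_lt.ne' (Nat.dvd_one.1 this)
  have ha0b : a0.Coprime b := Nat.Coprime.coprime_dvd_left ha0d hab
  have hsS : ∀ a' b', a' ∣ a → b' ∣ b → sN N y (a' * b') ≤ S0 := fun a' b' h1 h2 =>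
    (sN_le_mul ha0 hb0 h1 h2).trans hsm
  have hM1 : ∀ n', 1 ≤ md N y n' := fun n' => md_pos hN
  have hMU : ∀ n', sN N y n' ≤ S0 → md N y n' ≤ U := fun n' hb => (Nat.mul_le_mul_left N hb).trans hNS
  have htU : ∀ n', sN N y n' ≤ S0 → bp P N t0 y φ σ n' ≤ U :=
    fun n' hb => (bp_le _ _ _ _ _ _ _).trans (hMU n' hb)
  have hGsub : ∀ n', GS P N t0 U y E φ σ n' ⊆ Ioc U (2 * U) := fun n' => Finset.filter_subset _ _
  have hφF : ∀ q, φ q = FF P1 P2 P3 (decide (q ∣ a)) := by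
    intro q
    rw [hφ]
    unfold lab FF
    by_cases h : q ∣ a <;> simp [h]
  have hσpm : ∀ q : ℕ, q.Prime → q ∣ a ∨ q ∣ b → σ q = 1 ∨ σ q = -1 := by
    intro q hq h; rw [hσ]; exact sgP_pm hab hq h
  -- the sets with labels
  have hGS : ∀ a' b', a' ∣ a → b' ∣ b → ∃ S ∈ (a' * b').primeFactors.powerset,
      GS P N t0 U y E φ σ (a' * b') = GG P1 P2 P3 N t0 U y E a' (a' * b') S ∧
      bp P N t0 y φ σ (a' * b') = TT P1 P2 P3 N t0 y a' (a' * b') S := by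
    intro a' b' h1 h2
    refine ⟨(a' * b').primeFactors.filter (fun q => sgP a b q = -1), ?_, ?_, ?_⟩
    · exact Finset.mem_powerset.2 (Finset.filter_subset _ _)
    · rw [hφ, hσ]; exact (GS_pair (U := U) (E := E) hab h1 h2).1
    · rw [hφ, hσ]; exact (GS_pair (U := U) (E := E) hab h1 h2).2
  -- properties of the values
  have hvne : ∀ n', sN N y n' ≤ S0 → ∀ u ∈ GS P N t0 U y E φ σ n',
      val P (bp P N t0 y φ σ n') (md N y n') u ≠ 0 ∧
      (∀ i, |val (FF P1 P2 P3 i) (bp P N t0 y φ σ n') (md N y n') u| ≤ (U : ℤ) ^ C1) := by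
    intro n' hb u hu
    have h1 := Finset.mem_Ioc.1 (hGsub n' hu)
    have h2 := hsize (md N y n') (bp P N t0 y φ σ n') u (hM1 n') (hMU n' hb) (htU n' hb) h1.1 h1.2
    exact ⟨h2.1, h2.2.2.1⟩
  have hJall : ∀ n', sN N y n' ≤ S0 → ∀ u ∈ GS P N t0 U y E φ σ n', ∀ i, ∀ q : ℕ, q.Prime → y < q →
      jacobiSym (val (FF P1 P2 P3 i) (bp P N t0 y φ σ n') (md N y n') u) q = 1 ∨
      jacobiSym (val (FF P1 P2 P3 i) (bp P N t0 y φ σ n') (md N y n') u) q = -1 := by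
    intro n' hb u hu i q hq hyq
    have h1 := hvne n' hb u hu
    apply jac_pm hq
    · have h2 := h1.1
      rw [hP] at h2
      unfold val at h2 ⊢
      rw [eval_mul, eval_mul] at h2
      unfold FF
      cases i
      · simp only [Bool.false_eq_true, if_false, eval_mul]
        intro h3; apply h2
        rcases mul_eq_zero.1 h3 with h4 | h4 <;> rw [h4] <;> ring
      · simp only [if_true, eval_mul]
        intro h3; apply h2
        rcases mul_eq_zero.1 h3 with h4 | h4 <;> rw [h4] <;> ring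
    · have h3 : ((U ^ C1 : ℕ) : ℤ) < (q : ℤ) := by exact_mod_cast hyU.trans_lt hyq
      push_cast at h3
      exact (h1.2 i).trans_lt h3
  -- the large sets
  have hsegm : ∀ q, q ≤ p → seg (a0 * b) q = seg a q * seg b q := by
    intro q hq
    rw [seg_mul ha0b ha0ne hb0, hA0, seg_seg hq]
  have hsegm' : ∀ q, seg (a0 * b) q = seg a0 q * seg b q := fun q => seg_mul ha0b ha0ne hb0
  have hchain : ∀ s, y < s → V / 4 ^ k0 ≤ ((GS P N t0 U y E φ σ (seg (a0 * b) s)).card : ℝ) := by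
    apply chain hV.le
    · refine (card_pf_mul a0 b).trans (le_trans ?_ hcard)
      exact Nat.add_le_add_right (Finset.card_le_card (Nat.primeFactors_mono ha0d ha0)) _
    · refine (hsieve (md N y (seg (a0 * b) (y + 1))) (bp P N t0 y φ σ (seg (a0 * b) (y + 1)))
        ((range (E + 1)).filter (fun q => q.Prime ∧ ¬ q ∣ md N y (seg (a0 * b) (y + 1)))) ?_).trans ?_
      · intro q hq
        rw [Finset.mem_filter, Finset.mem_range] at hq
        exact ⟨hq.2.1, Nat.lt_succ_iff.1 hq.1, hq.2.2, fun h => hq.2.2 (h.trans (Dvd.intro _ rfl))⟩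
      · apply Nat.cast_le.2
        apply Finset.card_le_card
        intro u hu
        rw [Finset.mem_filter] at hu
        unfold GS
        rw [Finset.mem_filter]
        refine ⟨hu.1, fun q hq hqE hqM => hu.2 q ?_, fun q hq hyq => ?_⟩
        · rw [Finset.mem_filter, Finset.mem_range]
          exact ⟨Nat.lt_succ_of_le hqE, hq, hqM⟩
        · rw [seg_primeFactors, Finset.mem_filter] at hq
          omega
    · intro q hq hyq u hu
      rw [hφF q]
      have h0 : sN N y (seg (a0 * b) q) ≤ S0 := by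
        rw [hsegm' q]
        exact hsS _ _ ((seg_dvd a0 q).trans ha0d) (seg_dvd b q)
      exact hJall _ h0 u hu _ q (Nat.prime_of_mem_primeFactors hq) hyq
    · intro q hq _
      apply hσpm q (Nat.prime_of_mem_primeFactors hq)
      have h1 := Nat.dvd_of_mem_primeFactors hq
      exact ((Nat.prime_of_mem_primeFactors hq).dvd_mul.1 h1).imp (fun h => h.trans ha0d) id
    · intro q hq hyq hVq
      have hqp := Nat.prime_of_mem_primeFactors hq
      rcases hqp.dvd_mul.1 (Nat.dvd_of_mem_primeFactors hq) with h1 | h1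
      · have hqa : q ∣ a := h1.trans ha0d
        have hqa' : q ∈ a.primeFactors := Nat.mem_primeFactors.2 ⟨hqp, hqa, ha0⟩
        have h2 := hsegm q (hmax q hqa')
        obtain ⟨S, hS, e1, e2⟩ := hGS (seg a q) (seg b q) (seg_dvd a q) (seg_dvd b q)
        have h3 := hnA q hqa' hyq (seg b q) (Nat.mem_divisors.2 ⟨seg_dvd b q, hb0⟩) S hS true
        rw [h2] at hVq ⊢
        rw [e1] at hVq ⊢
        rw [e2, hφF q, decide_eq_true hqa]
        exact h3 hVq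
      · have hqa : ¬ q ∣ a := fun h => hnab q hqp h h1
        have hqb' : q ∈ b.primeFactors := Nat.mem_primeFactors.2 ⟨hqp, h1, hb0⟩
        have h2 := hsegm' q
        have h4 : seg a0 q ∣ a := (seg_dvd a0 q).trans ha0d
        obtain ⟨S, hS, e1, e2⟩ := hGS (seg a0 q) (seg b q) h4 (seg_dvd b q)
        have h3 := hnB q hqb' hyq (seg a0 q) (Nat.mem_divisors.2 ⟨h4, ha0⟩) S hS false
        rw [h2] at hVq ⊢
        rw [e1] at hVq ⊢
        rw [e2, hφF q, decide_eq_false hqa]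
        exact h3 hVq
  have hn0sq : Squarefree (a0 * b) := by
    rw [Nat.squarefree_mul ha0b]
    exact ⟨hsqa.squarefree_of_dvd ha0d, hsqb⟩
  have hGcard : V / 4 ^ k0 ≤ ((GS P N t0 U y E φ σ (a0 * b)).card : ℝ) := by
    have h1 := hchain (max (y + 1) (a0 * b + 1)) (by omega)
    rwa [seg_all hn0sq] at h1
    intro q hq
    have := Nat.le_of_dvd (Nat.pos_of_ne_zero hn0sq.ne_zero) (Nat.dvd_of_mem_primeFactors hq)
    omega
  -- the smaller index
  have hn0r : a0 * b = (a0 * b0) * r := by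
    rw [mul_assoc, hB0, hsegr.1]
  have hab0ne : a0 * b0 ≠ 0 := mul_ne_zero ha0ne hb0ne
  have hra : ¬ r ∣ a := fun h => hnab r hrp h (Nat.dvd_of_mem_primeFactors hr)
  have hφr : φ r = FF P1 P2 P3 false := by rw [hφF r, decide_eq_false hra]
  have hGr : GS P N t0 U y E φ σ (a0 * b) = (GS P N t0 U y E φ σ (a0 * b0)).filter
      (fun u => jacobiSym (val (FF P1 P2 P3 false) (bp P N t0 y φ σ (a0 * b0)) (md N y (a0 * b0)) u) r
        = σ r) := by
    rw [hn0r, GS_mul hab0ne hrp hyr, hφr]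
  have hmd : md N y (a0 * b) = md N y (a0 * b0) := by
    unfold md; rw [hn0r, sN_mul hab0ne hrp hyr]
  have hbp : bp P N t0 y φ σ (a0 * b) = bp P N t0 y φ σ (a0 * b0) := by
    unfold bp; rw [hn0r, sN_mul hab0ne hrp hyr]
  have hs0 : sN N y (a0 * b) ≤ S0 := hsS _ _ ha0d (dvd_refl b)
  have hs00 : sN N y (a0 * b0) ≤ S0 := hsS _ _ ha0d hb0d
  have hG'card : V / 4 ^ k0 ≤ ((GS P N t0 U y E φ σ (a0 * b0)).card : ℝ) := by
    refine hGcard.trans ?_
    rw [hGr]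
    exact_mod_cast Finset.card_filter_le _ _
  obtain ⟨S', hS', eG', eT'⟩ := hGS a0 b0 ha0d hb0d
  obtain ⟨S, hS, eG, eT⟩ := hGS a0 b ha0d (dvd_refl b)
  have ha0div : a0 ∈ a.divisors := Nat.mem_divisors.2 ⟨ha0d, ha0⟩
  -- the halving for the last prime of b
  have hquart : ((GS P N t0 U y E φ σ (a0 * b0)).card : ℝ) / 4 ≤
      ((GS P N t0 U y E φ σ (a0 * b)).card : ℝ) := by
    rw [hn0r]
    apply halv hab0ne hrp hyr
    · intro u hu
      rw [hφr]
      exact hJall _ hs00 u hu false r hrp hyr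
    · exact hσpm r hrp (Or.inr (Nat.dvd_of_mem_primeFactors hr))
    · have h3 := hnB r hr hyr a0 ha0div S' (by rw [← hB0]; exact hS') false
      rw [← hB0] at h3
      rw [hφr, eG', eT']
      apply h3
      rw [← eG']; exact hG'card
  obtain ⟨G, hG⟩ : ∃ G, G = GS P N t0 U y E φ σ (a0 * b) := ⟨_, rfl⟩
  obtain ⟨G', hG'⟩ : ∃ G', G' = GS P N t0 U y E φ σ (a0 * b0) := ⟨_, rfl⟩
  obtain ⟨t1, ht1⟩ : ∃ t1, t1 = bp P N t0 y φ σ (a0 * b) := ⟨_, rfl⟩
  obtain ⟨M, hM⟩ : ∃ M, M = md N y (a0 * b) := ⟨_, rfl⟩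
  -- the second sum
  have hT : ∀ i, |Tsum P1 P2 P3 G' t1 M b0 i r| < (G'.card : ℝ) / 12 := by
    intro i
    have h3 := hn3 a0 ha0div S' (by rw [← hB0]; exact hS') i
    rw [← hB0] at h3
    rw [hG', ht1, hM, hmd, hbp, eG', eT']
    apply h3
    rw [← eG']; exact hG'card
  have hτ : σ r = 1 ∨ σ r = -1 := hσpm r hrp (Or.inr (Nat.dvd_of_mem_primeFactors hr))
  have hFf : FF P1 P2 P3 false = P1 * P3 := by unfold FF; simp
  have hGfil : G = G'.filter (fun u => jacobiSym (val (P1 * P3) t1 M u) r = σ r) := by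
    rw [hG, hG', hGr, ht1, hM, hmd, hbp, hFf]
  have hY := ysum P1 P2 P3 G' t1 M b b0 r (σ r) (by rw [hB0]; exact hsegr.1.symm) hτ (by
    intro u hu
    rw [← hFf, ht1, hM, hmd, hbp]
    rw [hG'] at hu
    exact hJall _ hs00 u hu false r hrp hyr)
  rw [← hGfil] at hY
  -- the first sum
  have hX : |∑ x ∈ II G M (fun u => val P t1 M u),
      c2 P1 P2 P3 t1 M a0 b x * (jacobiSym (p : ℤ) x.2 : ℝ)| < (G.card : ℝ) / 3 := by
    have h3 := hn2 S (by rw [← hA0]; exact hS)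
    rw [← hA0] at h3
    rw [hG, ht1, hM, eG, eT]
    apply h3
    rw [← eG]; exact hGcard
  have hdec := decomp P1 P2 P3 G t1 M a b a0 p (by rw [hA0]; exact hsegp.1.symm)
  have hGpos : 0 < (G.card : ℝ) := by rw [hG]; exact hVk.trans_le hGcard
  have hpos : 0 < ∑ u ∈ G, ∏ q ∈ Dm M (val P t1 M u),
      (1 + (hq2 (val P1 t1 M u) (val P2 t1 M u) (val P3 t1 M u) a b q : ℝ)) := by
    rw [hdec]
    have h1 := (abs_lt.1 hX).1
    have h2 := hT true
    have h3 := hT false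
    have h4 := (abs_le.1 hY).1
    have h5 : (G'.card : ℝ) / 4 ≤ (G.card : ℝ) := by rw [hG, hG']; exact hquart
    linarith
  obtain ⟨u, hu, hune⟩ := Finset.exists_ne_zero_of_sum_ne_zero hpos.ne'
  rw [Finset.prod_ne_zero_iff] at hune
  rw [hG] at hu
  have hu' := Finset.mem_Ioc.1 (hGsub _ hu)
  have hsz := hsize M t1 u (by rw [hM]; exact hM1 _) (by rw [hM]; exact hMU _ hs0)
    (by rw [ht1]; exact htU _ hs0) hu'.1 hu'.2
  have hvb : val P t1 M u ≠ 0 := hsz.1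
  have hpN : ¬ p ∣ N := fun h => by have := Nat.le_of_dvd hN h; omega
  have hbase : IsBase P φ σ N t0 (sN N y (a0 * b)) t1 := by
    rw [ht1]
    apply base_spec t0 hN (sN_sq N y _) (sN_cop N y _)
    intro q hq hqs
    have hq1 := (mem_sN hq (mul_ne_zero ha0ne hb0)).1 hqs
    rw [hφF q]
    apply hexist q hq hq1.2.2
    apply hσpm q hq
    exact (hq.dvd_mul.1 hq1.1).imp (fun h => h.trans ha0d) id
  obtain ⟨t, ht⟩ : ∃ t : ℤ, t = (t1 : ℤ) + (M : ℤ) * (u : ℤ) := ⟨_, rfl⟩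
  have hv1 : val P1 t1 M u = P1.eval t := by rw [ht]; rfl
  have hv2 : val P2 t1 M u = P2.eval t := by rw [ht]; rfl
  have hv3 : val P3 t1 M u = P3.eval t := by rw [ht]; rfl
  have hev : val P t1 M u = P1.eval t * P2.eval t * P3.eval t := by
    rw [ht]; simp only [val, hP, eval_mul]
  have hne := hvb
  rw [hev] at hne
  -- the symbols at the primes of a0 * b
  have hsym : ∀ q : ℕ, q.Prime → ¬ q ∣ N → q ∣ a0 * b → jacobiSym ((φ q).eval t) q = σ q := by
    intro q hq hqN hqd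
    by_cases hqy : q ≤ y
    · have hqs : q ∣ sN N y (a0 * b) := (mem_sN hq (mul_ne_zero ha0ne hb0)).2 ⟨hqd, hqy, hqN⟩
      have h1 := (hbase.2.2 q hq hqs).1
      have h2 : (q : ℤ) ∣ (M : ℤ) := by
        rw [hM]; exact Int.natCast_dvd_natCast.2 (hqs.trans (Dvd.intro_left _ rfl))
      rw [← h1]
      apply jac_congr
      apply eval_congr
      rw [ht, add_sub_cancel_left]
      exact h2.mul_right _
    · unfold GS at hu
      rw [Finset.mem_filter] at hu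
      have h2 := hu.2.2 q (Nat.mem_primeFactors.2 ⟨hq, hqd, mul_ne_zero ha0ne hb0⟩) (not_le.1 hqy)
      rw [← ht1, ← hM] at h2
      rw [ht]; exact h2
  have hqM : ∀ q : ℕ, q.Prime → ¬ q ∣ N → ¬ q ∣ a → ¬ q ∣ b → ¬ q ∣ M := by
    intro q hq hqN hqa hqb h
    rw [hM] at h
    rcases (Nat.Prime.dvd_mul hq).1 h with h1 | h1
    · exact hqN h1
    · have h2 := ((mem_sN hq (mul_ne_zero ha0ne hb0)).1 h1).1
      rcases hq.dvd_mul.1 h2 with h3 | h3
      · exact hqa (h3.trans ha0d)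
      · exact hqb h3
  have hfac : ∀ q : ℕ, q.Prime → ¬ q ∣ N → ¬ q ∣ a → ¬ q ∣ b →
      (q : ℤ) ∣ P1.eval t * P2.eval t * P3.eval t →
      1 + (hq2 (P1.eval t) (P2.eval t) (P3.eval t) a b q : ℝ) ≠ 0 := by
    intro q hq hqN hqa hqb hqd
    have hqD : q ∈ Dm M (val P t1 M u) := (mem_Dm hvb).2 ⟨hq, by rw [hev]; exact hqd,
      hqM q hq hqN hqa hqb⟩
    have h1 := hune q hqD
    rwa [hv1, hv2, hv3] at h1
  refine ⟨p, t, hpp, hpN, ?_, ?_, left_ne_zero_of_mul (left_ne_zero_of_mul hne),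
    right_ne_zero_of_mul (left_ne_zero_of_mul hne), right_ne_zero_of_mul hne, ?_, ?_, ?_, ?_, ?_, ?_⟩
  · have h1 := hbase.2.1
    have h2 : (N : ℤ) ∣ (M : ℤ) := by
      rw [hM]; exact Int.natCast_dvd_natCast.2 (Dvd.intro _ rfl)
    have h3 : t - t0 = ((t1 : ℤ) - t0) + (M : ℤ) * u := by rw [ht]; ring
    rw [h3]
    exact dvd_add h1 (h2.mul_right _)
  · have h1 : (1 : ℤ) ≤ (M : ℤ) := by rw [hM]; exact_mod_cast hM1 _
    have h2 : (U : ℤ) < (u : ℤ) := by exact_mod_cast hu'.1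
    have h3 : (0 : ℤ) ≤ (t1 : ℤ) := Int.natCast_nonneg _
    rw [ht]
    nlinarith
  · have h1 := hsz.2.2.2
    rwa [hv1, hv2, hv3] at h1
  · intro q hq hqN hqa hqp
    have hqa' : q ∈ a.primeFactors := Nat.mem_primeFactors.2 ⟨hq, hqa, ha0⟩
    have hqa0 : q ∣ a0 := by
      have h1 : q ∈ a0.primeFactors := by
        rw [hA0, seg_primeFactors, Finset.mem_filter]
        exact ⟨hqa', lt_of_le_of_ne (hmax q hqa') hqp⟩
      exact Nat.dvd_of_mem_primeFactors h1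
    have h1 := hsym q hq hqN (hqa0.mul_right _)
    have h2 : φ q = P2 * P3 := by rw [hφ]; unfold lab; rw [if_pos hqa]
    have h3 : σ q = jacobiSym (b : ℤ) q := by rw [hσ]; unfold sgP; rw [if_pos hqa]
    rw [h2, h3, eval_mul] at h1
    have h4 : ¬ (q : ℤ) ∣ (b : ℤ) := fun h => hnab q hq hqa (Int.natCast_dvd_natCast.1 h)
    rw [jacobiSym.mul_left, h1]
    rcases jac_pm' hq h4 with h6 | h6 <;> rw [h6] <;> norm_num
  · intro q hq hqN hqb hqp
    have hqa : ¬ q ∣ a := fun h => hnab q hq h hqb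
    have h1 := hsym q hq hqN (hqb.mul_left _)
    have h2 : φ q = P1 * P3 := by rw [hφ]; unfold lab; rw [if_neg hqa]
    have h3 : σ q = jacobiSym (a : ℤ) q := by rw [hσ]; unfold sgP; rw [if_neg hqa]
    rw [h2, h3, eval_mul] at h1
    have h4 : ¬ (q : ℤ) ∣ (a : ℤ) := fun h => hqa (Int.natCast_dvd_natCast.1 h)
    rw [jacobiSym.mul_left, h1]
    rcases jac_pm' hq h4 with h6 | h6 <;> rw [h6] <;> norm_num
  · intro q hq hqN hqa hqb hq1
    have h1 := hfac q hq hqN hqa hqb ((hq1.mul_right _).mul_right _)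
    have hr1 := (hres q hq hqN t).1 hq1
    have h2 : hq2 (P1.eval t) (P2.eval t) (P3.eval t) a b q =
        jacobiSym (b : ℤ) q * (jacobiSym (P2.eval t) q * jacobiSym (P3.eval t) q) := by
      unfold hq2 gw2
      rw [if_pos hq1, if_pos (Or.inl hq1), if_pos hq1, jacobiSym.mul_left, one_mul]
    rw [h2] at h1
    have h4 : ¬ (q : ℤ) ∣ (b : ℤ) := fun h => hqb (Int.natCast_dvd_natCast.1 h)
    rw [jacobiSym.mul_left, jacobiSym.mul_left]
    rcases jac_pm' hq hr1.1 with h5 | h5 <;> rcases jac_pm' hq hr1.2 with h6 | h6 <;>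
      rcases jac_pm' hq h4 with h7 | h7 <;>
      first
      | (simp only [h5, h6, h7]; norm_num; done)
      | (exfalso; apply h1; rw [h5, h6, h7]; norm_num; done)
  · intro q hq hqN hqa hqb hq2'
    have h1 := hfac q hq hqN hqa hqb ((hq2'.mul_left _).mul_right _)
    have hr1 : ¬ (q : ℤ) ∣ P1.eval t := fun h => ((hres q hq hqN t).1 h).1 hq2'
    have hr3 : ¬ (q : ℤ) ∣ P3.eval t := (hres q hq hqN t).2 hq2'
    have h2 : hq2 (P1.eval t) (P2.eval t) (P3.eval t) a b q =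
        jacobiSym (a : ℤ) q * (jacobiSym (P1.eval t) q * jacobiSym (P3.eval t) q) := by
      unfold hq2 gw2
      rw [if_neg hr1, if_neg (by tauto), if_neg hr1, if_pos hq2', jacobiSym.mul_left, mul_one]
    rw [h2] at h1
    have h4 : ¬ (q : ℤ) ∣ (a : ℤ) := fun h => hqa (Int.natCast_dvd_natCast.1 h)
    rw [jacobiSym.mul_left, jacobiSym.mul_left]
    rcases jac_pm' hq hr1 with h5 | h5 <;> rcases jac_pm' hq hr3 with h6 | h6 <;>
      rcases jac_pm' hq h4 with h7 | h7 <;>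
      first
      | (simp only [h5, h6, h7]; norm_num; done)
      | (exfalso; apply h1; rw [h5, h6, h7]; norm_num; done)
  · intro q hq hqN hqa hqb hq3
    have h1 := hfac q hq hqN hqa hqb (hq3.mul_left _)
    have hr1 : ¬ (q : ℤ) ∣ P1.eval t := fun h => ((hres q hq hqN t).1 h).2 hq3
    have hr2 : ¬ (q : ℤ) ∣ P2.eval t := fun h => (hres q hq hqN t).2 h hq3
    have h2 : hq2 (P1.eval t) (P2.eval t) (P3.eval t) a b q =
        jacobiSym (a : ℤ) q * jacobiSym (b : ℤ) q * jacobiSym (-(P1.eval t * P2.eval t)) q := by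
      unfold hq2 gw2
      rw [if_neg hr1, if_pos (Or.inr hr2), if_neg hr1, if_neg hr2]
    rw [h2] at h1
    have h4 : ¬ (q : ℤ) ∣ (a : ℤ) := fun h => hqa (Int.natCast_dvd_natCast.1 h)
    have h4' : ¬ (q : ℤ) ∣ (b : ℤ) := fun h => hqb (Int.natCast_dvd_natCast.1 h)
    have h8 : ¬ (q : ℤ) ∣ -(P1.eval t * P2.eval t) := by
      rw [dvd_neg]
      intro h
      rcases Int.Prime.dvd_mul' hq h with h9 | h9
      · exact hr1 h9
      · exact hr2 h9
    have h9 : -((a : ℤ) * b * (P1.eval t * P2.eval t)) = (a : ℤ) * b * (-(P1.eval t * P2.eval t)) := by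
      ring
    rw [h9, jacobiSym.mul_left, jacobiSym.mul_left]
    rcases jac_pm' hq h8 with h5 | h5 <;> rcases jac_pm' hq h4' with h6 | h6 <;>
      rcases jac_pm' hq h4 with h7 | h7 <;>
      first
      | (simp only [h5, h6, h7]; norm_num; done)
      | (exfalso; apply h1; rw [h5, h6, h7]; norm_num; done)

end Pool.Agent.W313.HB
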