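import Mathlib
import Pool.Agent.W313.HB.Sc2C

set_option autoImplicit false
set_option linter.all false
set_option maxHeartbeats 2000000

namespace Pool.Agent.W313.HB

open Finset Polynomial

open Classical in
/-- the theorem at a fixed scale for two parameters -/
theorem scale2 {P1 P2 P3 : ℤ[X]} {T0 : ℤ} {N t0 U y E k1 k0 T X0 S0 A C1 : ℕ} {V δ δ2 L1 L2 : ℝ}
    (hT0 : T0 ≤ (U : ℤ)) (hS : S_COUNT) (hS2 : S_COUNT2) (hA : 2 ≤ A) (hX0 : 1 ≤ X0)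
    (hN : 1 ≤ N) (h2N : 2 ∣ N) (hk : 2 * k1 ≤ k0)
    (hNS : N * S0 ≤ U) (hyN : N ≤ y) (hyU : U ^ C1 ≤ y) (hE2 : 2 ≤ E)
    (hV : 0 < V) (hδ0 : 0 ≤ δ) (hδ20 : 0 ≤ δ2)
    (hbadc : ∀ i : Bool, ∀ M t1 : ℕ, 1 ≤ M → M ≤ U → t1 ≤ U → ∀ G : Finset ℕ,
      G ⊆ Ioc U (2 * U) → ∀ B : ℕ, U ^ C1 ≤ B →
      (((Ioc B (2 * B)).filter (fun p : ℕ => p.Prime ∧
        (G.card : ℝ) / 2 < |((∑ u ∈ G, jacobiSym (val (FF P1 P2 P3 i) t1 M u) p : ℤ) : ℝ)|)).card : ℝ) *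
        (G.card : ℝ) ^ 2 ≤ B * (U : ℝ) ^ (39 / 20 : ℝ))
    (hlarge : ∀ M t1 : ℕ, 1 ≤ M → M ≤ U → t1 ≤ U →
      ∀ (I : Finset (ℕ × ℕ)) (c : ℕ × ℕ → ℝ), (∀ x ∈ I, |c x| ≤ T) →
      (∀ x ∈ I, x.1 ∈ Ioc U (2 * U) ∧ Odd x.2 ∧ Squarefree x.2 ∧ 1 < x.2 ∧
        (x.2 : ℤ) ∣ val (P1 * P2 * P3) t1 M x.1 ∧ ∀ q : ℕ, q.Prime → q ∣ x.2 → E < q ∧ ¬ q ∣ M) →
      (∀ u : ℕ, (I.filter (fun x => x.1 = u)).card ≤ T) →
      ∀ X : ℕ, ∑ n ∈ (Icc 1 X).filter (fun n => Odd n),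
        (∑ x ∈ I, c x * (jacobiSym (n : ℤ) x.2 : ℝ)) ^ 2 ≤ L1 * X + L2)
    (hlarge3 : ∀ M t1 : ℕ, 1 ≤ M → M ≤ U → t1 ≤ U →
      ∀ (I : Finset (ℕ × ℕ)) (c : ℕ × ℕ → ℝ), (∀ x ∈ I, |c x| ≤ T) →
      (∀ x ∈ I, x.1 ∈ Ioc U (2 * U) ∧ Odd x.2 ∧ Squarefree x.2 ∧
        (∀ q : ℕ, q.Prime → q ∣ x.2 → ¬ q ∣ N ∧ (q : ℤ) ∣ val P1 t1 M x.1) ∧
        (∀ q : ℕ, q.Prime → ¬ q ∣ N → (q : ℤ) ∣ val (P1 * P2 * P3) t1 M x.1 → E < q ∧ ¬ q ∣ M)) →
      (∀ u : ℕ, (I.filter (fun x => x.1 = u)).card ≤ T) →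
      ∀ X : ℕ, ∑ n ∈ (Icc 1 X).filter (fun n => Odd n),
        (∑ x ∈ I, c x * ((jacobiSym (n : ℤ) x.2 : ℝ) *
          (jacobiSym (val (P1 * P3) t1 M x.1) n : ℝ))) ^ 2 ≤ L1 * X + L2)
    (hsize : ∀ M t1 u : ℕ, 1 ≤ M → M ≤ U → t1 ≤ U → U < u → u ≤ 2 * U →
      val (P1 * P2 * P3) t1 M u ≠ 0 ∧ |val (P1 * P2 * P3) t1 M u| ≤ (U : ℤ) ^ C1 ∧
        (∀ i, |val (FF P1 P2 P3 i) t1 M u| ≤ (U : ℤ) ^ C1) ∧
        (0 < val P1 t1 M u * val P3 t1 M u ∨ 0 < val P2 t1 M u * val P3 t1 M u))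
    (hsieve : ∀ (M t1 : ℕ) (Q : Finset ℕ), (∀ q ∈ Q, q.Prime ∧ q ≤ E ∧ ¬ q ∣ M ∧ ¬ q ∣ N) →
      V ≤ (((Ioc U (2 * U)).filter
        (fun u : ℕ => ∀ q ∈ Q, ¬ (q : ℤ) ∣ val (P1 * P2 * P3) t1 M u)).card : ℝ))
    (hexist : ∀ p : ℕ, p.Prime → ¬ p ∣ N → ∀ (i : Bool) (τ : ℤ), (τ = 1 ∨ τ = -1) → ∃ x : ℕ, x < p ∧
      jacobiSym ((FF P1 P2 P3 i).eval (x : ℤ)) p = τ ∧ ¬ (p : ℤ) ∣ (P1 * P2 * P3).eval (x : ℤ))
    (hres : ∀ q : ℕ, q.Prime → ¬ q ∣ N → ∀ x : ℤ,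
      ((q : ℤ) ∣ P1.eval x → ¬ (q : ℤ) ∣ P2.eval x ∧ ¬ (q : ℤ) ∣ P3.eval x) ∧
      ((q : ℤ) ∣ P2.eval x → ¬ (q : ℤ) ∣ P3.eval x))
    (hδ : (U : ℝ) ^ (39 / 20 : ℝ) ≤ δ * (V / 4 ^ k0) ^ 2)
    (hT1 : 1 ≤ T) (hT : ∀ w : ℕ, E ^ w ≤ U ^ C1 → 2 ^ w ≤ T)
    (hδ2 : ∀ X : ℕ, X0 ≤ X → L1 * X + L2 ≤ δ2 * X * (V / 4 ^ k0) ^ 2) :
    ((((Icc 1 A) ×ˢ (Icc 1 A)).filter (fun x : ℕ × ℕ => Squarefree x.1 ∧ Squarefree x.2 ∧
      x.1.Coprime x.2 ∧ x.1.primeFactors.card ≤ k1 ∧ x.2.primeFactors.card ≤ k1 ∧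
      sm y x.1 * sm y x.2 ≤ S0 ∧
      (∃ p ∈ x.1.primeFactors, (∀ q ∈ x.1.primeFactors, q ≤ p) ∧ y < p ∧ (x.1 / p) * X0 ≤ A) ∧
      (∃ p ∈ x.2.primeFactors, (∀ q ∈ x.2.primeFactors, q ≤ p) ∧ y < p ∧ (x.2 / p) * X0 ≤ A) ∧
      ¬ ∃ (ps : ℕ) (t : ℤ), ps.Prime ∧ ¬ ps ∣ N ∧ (N : ℤ) ∣ t - t0 ∧ T0 ≤ t ∧
        Cond2 P1 P2 P3 N x.1 x.2 ps t)).card : ℝ) ≤
      16 * 4 ^ k0 * δ * (A : ℝ) ^ 2 * (1 + Real.log A) ^ 2 +
        600 * 4 ^ k0 * δ2 * (A : ℝ) ^ 2 * (1 + Real.log A) := by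
  set P := P1 * P2 * P3 with hP
  have hVk : 0 < V / 4 ^ k0 := div_pos hV (by positivity)
  have h2k : (2 : ℝ) ^ k1 ≤ 2 ^ k0 := pow_le_pow_right₀ (by norm_num) (by omega)
  have h24 : (2 : ℝ) ^ k0 * 2 ^ k0 = 4 ^ k0 := by rw [← mul_pow]; norm_num
  have h24' : (2 : ℝ) ^ k1 * 2 ^ k0 ≤ 4 ^ k0 := by
    rw [← h24]; exact mul_le_mul_of_nonneg_right h2k (by positivity)
  have h24'' : (2 : ℝ) ^ k0 ≤ 4 ^ k0 := pow_le_pow_left₀ (by norm_num) (by norm_num) _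
  have hM1 : ∀ n', 1 ≤ md N y n' := fun n' => md_pos hN
  have hMU : ∀ n', sN N y n' ≤ S0 → md N y n' ≤ U := fun n' hb => (Nat.mul_le_mul_left N hb).trans hNS
  have htU : ∀ a' n' S, sN N y n' ≤ S0 → TT P1 P2 P3 N t0 y a' n' S ≤ U :=
    fun a' n' S hb => (bp_le _ _ _ _ _ _ _).trans (hMU n' hb)
  have hGsub : ∀ a' n' S, GG P1 P2 P3 N t0 U y E a' n' S ⊆ Ioc U (2 * U) :=
    fun a' n' S u hu => (GG_mem hu).1
  have hlabFF : ∀ a' p, lab (P2 * P3) (P1 * P3) a' p = FF P1 P2 P3 (decide (p ∣ a')) := by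
    intro a' p
    unfold lab FF
    by_cases h : p ∣ a' <;> simp [h]
  have hbase : ∀ a' n' S, IsBase P (lab (P2 * P3) (P1 * P3) a') (sgS S) N t0 (sN N y n')
      (TT P1 P2 P3 N t0 y a' n' S) := by
    intro a' n' S
    apply base_spec t0 hN (sN_sq N y n') (sN_cop N y n')
    intro p hp hps
    have hpN : ¬ p ∣ N := by
      intro h
      have h2 := Nat.Coprime.eq_one_of_dvd (Nat.Coprime.coprime_dvd_left h (sN_cop N y n')) hps
      exact hp.one_lt.ne' h2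
    rw [hlabFF]
    exact hexist p hp hpN _ _ (sgS_pm S p)
  have hvne : ∀ a' n' S, sN N y n' ≤ S0 → ∀ u ∈ GG P1 P2 P3 N t0 U y E a' n' S,
      val P (TT P1 P2 P3 N t0 y a' n' S) (md N y n') u ≠ 0 ∧
      |val P (TT P1 P2 P3 N t0 y a' n' S) (md N y n') u| ≤ (U : ℤ) ^ C1 := by
    intro a' n' S hb u hu
    have h1 := Finset.mem_Ioc.1 (GG_mem hu).1
    have h2 := hsize (md N y n') (TT P1 P2 P3 N t0 y a' n' S) u (hM1 n') (hMU n' hb)
      (htU a' n' S hb) h1.1 h1.2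
    exact ⟨h2.1, h2.2.1⟩
  have hDE : ∀ a' n' S, sN N y n' ≤ S0 → ∀ u ∈ GG P1 P2 P3 N t0 U y E a' n' S, ∀ q : ℕ, q.Prime →
      ¬ q ∣ N → (q : ℤ) ∣ val P (TT P1 P2 P3 N t0 y a' n' S) (md N y n') u →
      E < q ∧ ¬ q ∣ md N y n' := by
    intro a' n' S hb u hu q hq hqN hqv
    have h1 : ¬ q ∣ md N y n' := by
      intro h
      rcases (Nat.Prime.dvd_mul hq).1 h with h2 | h2
      · exact hqN h2
      · exact notdvd_of_base (hbase a' n' S) hq h2 u hqv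
    refine ⟨?_, h1⟩
    by_contra hlt
    exact (GG_mem hu).2 q hq (not_lt.1 hlt) h1 hqv
  have hdivT : ∀ a' n' S, sN N y n' ≤ S0 → ∀ u ∈ GG P1 P2 P3 N t0 U y E a' n' S,
      (mm (md N y n') (val P (TT P1 P2 P3 N t0 y a' n' S) (md N y n') u)).divisors.card ≤ T := by
    intro a' n' S hb u hu
    apply card_div_le (hvne a' n' S hb u hu).1 (hvne a' n' S hb u hu).2 _ hT
    intro q hq
    rw [mem_Dm (hvne a' n' S hb u hu).1] at hq
    exact (hDE a' n' S hb u hu q hq.1 (fun h => hq.2.2 (h.trans (Dvd.intro _ rfl))) hq.2.1).1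
  -- facts on the index sets
  have hIIfac : ∀ a' n' S, sN N y n' ≤ S0 → ∀ x ∈ II (GG P1 P2 P3 N t0 U y E a' n' S) (md N y n')
      (fun u => val P (TT P1 P2 P3 N t0 y a' n' S) (md N y n') u),
      x.1 ∈ Ioc U (2 * U) ∧ Odd x.2 ∧ Squarefree x.2 ∧ 1 < x.2 ∧
      (x.2 : ℤ) ∣ val P (TT P1 P2 P3 N t0 y a' n' S) (md N y n') x.1 ∧
      ∀ q : ℕ, q.Prime → q ∣ x.2 → E < q ∧ ¬ q ∣ md N y n' := by
    intro a' n' S hb x hx
    rw [mem_II] at hx
    obtain ⟨h2, h3, h4⟩ := hx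
    have h5 := hvne a' n' S hb x.1 h2
    have h6 : Squarefree x.2 := (mm_sq _ _).squarefree_of_dvd (Nat.dvd_of_mem_divisors h3)
    have h7 : ∀ q : ℕ, q.Prime → q ∣ x.2 → E < q ∧ ¬ q ∣ md N y n' := by
      intro q hq hqx
      have h8 : q ∈ Dm (md N y n') (val P (TT P1 P2 P3 N t0 y a' n' S) (md N y n') x.1) := by
        rw [← mm_pf]
        exact Nat.mem_primeFactors.2 ⟨hq, hqx.trans (Nat.dvd_of_mem_divisors h3), (mm_sq _ _).ne_zero⟩
      rw [mem_Dm h5.1] at h8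
      exact hDE a' n' S hb x.1 h2 q hq (fun h => h8.2.2 (h.trans (Dvd.intro _ rfl))) h8.2.1
    refine ⟨(GG_mem h2).1, ?_, h6, h4, ?_, h7⟩
    · rw [← Nat.not_even_iff_odd]
      intro h8
      have := (h7 2 Nat.prime_two h8.two_dvd).1
      omega
    · exact (Int.natCast_dvd_natCast.2 ((Nat.dvd_of_mem_divisors h3).trans
        (mm_dvd _ h5.1))).trans (Int.natAbs_dvd.2 (dvd_refl _))
  have hIIT : ∀ a' n' S, sN N y n' ≤ S0 → ∀ (I : Finset (ℕ × ℕ)),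
      I ⊆ II (GG P1 P2 P3 N t0 U y E a' n' S) (md N y n')
      (fun u => val P (TT P1 P2 P3 N t0 y a' n' S) (md N y n') u) →
      ∀ u : ℕ, (I.filter (fun x => x.1 = u)).card ≤ T := by
    intro a' n' S hb I hI u
    by_cases hu : u ∈ GG P1 P2 P3 N t0 U y E a' n' S
    · have h2 : (I.filter (fun x => x.1 = u)).card ≤
          (mm (md N y n') (val P (TT P1 P2 P3 N t0 y a' n' S) (md N y n') u)).divisors.card := by
        apply Finset.card_le_card_of_injOn (fun x => x.2)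
        · intro x hx
          rw [Finset.mem_coe, Finset.mem_filter] at hx
          have h3 := mem_II.1 (hI hx.1)
          rw [Finset.mem_coe, ← hx.2]
          exact h3.2.1
        · intro x hx x' hx' h
          rw [Finset.mem_coe, Finset.mem_filter] at hx hx'
          exact Prod.ext (hx.2.trans hx'.2.symm) h
      exact h2.trans (hdivT a' n' S hb u hu)
    · have h2 : I.filter (fun x => x.1 = u) = ∅ := by
        apply Finset.filter_false_of_mem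
        rintro x hx rfl
        exact hu (mem_II.1 (hI hx)).1
      rw [h2]; simp
  -- the bad primes
  obtain ⟨badQ, hbadQ⟩ : ∃ badQ : ℕ → ℕ → Finset ℕ → Bool → ℕ → Prop, ∀ a' b' S i p,
      badQ a' b' S i p ↔ (p.Prime ∧ sN N y (a' * b') ≤ S0 ∧
      V / 4 ^ k0 ≤ ((GG P1 P2 P3 N t0 U y E a' (a' * b') S).card : ℝ) ∧
      ((GG P1 P2 P3 N t0 U y E a' (a' * b') S).card : ℝ) / 2 <
        |((∑ u ∈ GG P1 P2 P3 N t0 U y E a' (a' * b') S,
          jacobiSym (val (FF P1 P2 P3 i) (TT P1 P2 P3 N t0 y a' (a' * b') S) (md N y (a' * b')) u) p :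
            ℤ) : ℝ)|) := ⟨_, fun _ _ _ _ _ => Iff.rfl⟩
  have hcQ : ∀ a' b' S i B, y ≤ B →
      (((Ioc B (2 * B)).filter (fun p => badQ a' b' S i p)).card : ℝ) ≤ δ * B := by
    intro a' b' S i B hB
    by_cases hb : sN N y (a' * b') ≤ S0 ∧
        V / 4 ^ k0 ≤ ((GG P1 P2 P3 N t0 U y E a' (a' * b') S).card : ℝ)
    · set G := GG P1 P2 P3 N t0 U y E a' (a' * b') S with hG
      have h1 := hbadc i (md N y (a' * b')) (TT P1 P2 P3 N t0 y a' (a' * b') S) (hM1 _)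
        (hMU _ hb.1) (htU _ _ _ hb.1) G (hGsub _ _ _) B (hyU.trans hB)
      have h2 : (((Ioc B (2 * B)).filter (fun p => badQ a' b' S i p)).card : ℝ) ≤
          (((Ioc B (2 * B)).filter (fun p : ℕ => p.Prime ∧
          (G.card : ℝ) / 2 < |((∑ u ∈ G, jacobiSym (val (FF P1 P2 P3 i)
            (TT P1 P2 P3 N t0 y a' (a' * b') S) (md N y (a' * b')) u) p : ℤ) : ℝ)|)).card : ℝ) := by
        apply Nat.cast_le.2
        apply Finset.card_le_card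
        intro p hp
        rw [Finset.mem_filter] at hp ⊢
        have h3 := (hbadQ a' b' S i p).1 hp.2
        exact ⟨hp.1, h3.1, h3.2.2.2⟩
      have h3 : (0 : ℝ) < (G.card : ℝ) ^ 2 := by
        have := hVk.trans_le hb.2; positivity
      have h4 : (V / 4 ^ k0) ^ 2 ≤ (G.card : ℝ) ^ 2 := pow_le_pow_left₀ hVk.le hb.2 2
      have h5 : (B : ℝ) * (U : ℝ) ^ (39 / 20 : ℝ) ≤ δ * B * (G.card : ℝ) ^ 2 := by
        calc (B : ℝ) * (U : ℝ) ^ (39 / 20 : ℝ) ≤ B * (δ * (V / 4 ^ k0) ^ 2) :=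
              mul_le_mul_of_nonneg_left hδ (Nat.cast_nonneg _)
          _ ≤ B * (δ * (G.card : ℝ) ^ 2) := by gcongr
          _ = δ * B * (G.card : ℝ) ^ 2 := by ring
      exact le_of_mul_le_mul_right ((mul_le_mul_of_nonneg_right h2 h3.le).trans (h1.trans h5)) h3
    · have : (Ioc B (2 * B)).filter (fun p => badQ a' b' S i p) = ∅ := by
        apply Finset.filter_false_of_mem
        intro p _ h0
        obtain ⟨-, h1, h2, -⟩ := (hbadQ a' b' S i p).1 h0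
        exact hb ⟨h1, h2⟩
      rw [this]
      simp only [Finset.card_empty, Nat.cast_zero]
      positivity
  obtain ⟨bad, hbad⟩ : ∃ bad : ℕ → ℕ → ℕ → Prop, ∀ a' b' p,
      bad a' b' p ↔ ∃ S ∈ (a' * b').primeFactors.powerset, ∃ i, badQ a' b' S i p :=
    ⟨_, fun _ _ _ => Iff.rfl⟩
  have hcB : ∀ a' b' B, a'.primeFactors.card ≤ k1 → b'.primeFactors.card ≤ k1 → y ≤ B →
      (((Ioc B (2 * B)).filter (fun p => bad a' b' p)).card : ℝ) ≤ 2 ^ k0 * (2 * (δ * B)) := by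
    intro a' b' B h1 h2 hB
    have h3 := card_union2 (Ioc B (2 * B)) (a' * b').primeFactors.powerset
      (fun S i p => badQ a' b' S i p) (δ * B) (fun S _ i => hcQ a' b' S i B hB)
    have h4 : (Ioc B (2 * B)).filter (fun p => bad a' b' p) = (Ioc B (2 * B)).filter
        (fun p => ∃ S ∈ (a' * b').primeFactors.powerset, ∃ i, badQ a' b' S i p) :=
      Finset.filter_congr fun p _ => hbad a' b' p
    rw [h4]
    refine h3.trans ?_
    apply mul_le_mul_of_nonneg_right _ (by positivity)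
    rw [Finset.card_powerset]
    push_cast
    apply pow_le_pow_right₀ (by norm_num)
    have := card_pf_mul a' b'
    omega
  -- bad for a with b fixed
  obtain ⟨badA, hbadA⟩ : ∃ badA : ℕ → ℕ → ℕ → Prop, ∀ b a' p,
      badA b a' p ↔ (a'.primeFactors.card ≤ k1 ∧ Squarefree b ∧ b.primeFactors.card ≤ k1 ∧
        ∃ d ∈ b.divisors, bad a' d p) := ⟨_, fun _ _ _ => Iff.rfl⟩
  obtain ⟨badB, hbadB⟩ : ∃ badB : ℕ → ℕ → ℕ → Prop, ∀ a b' p,
      badB a b' p ↔ (b'.primeFactors.card ≤ k1 ∧ Squarefree a ∧ a.primeFactors.card ≤ k1 ∧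
        ∃ d ∈ a.divisors, bad d b' p) := ⟨_, fun _ _ _ => Iff.rfl⟩
  have hcA : ∀ b a' B : ℕ, y ≤ B →
      (((Ioc B (2 * B)).filter (fun p => p.Prime ∧ badA b a' p)).card : ℝ) ≤
        (2 * 4 ^ k0 * δ) * B := by
    intro b a' B hB
    by_cases hc : a'.primeFactors.card ≤ k1 ∧ Squarefree b ∧ b.primeFactors.card ≤ k1
    · have h1 := card_union1 (Ioc B (2 * B)) b.divisors (fun d p => bad a' d p)
        (2 ^ k0 * (2 * (δ * B))) (by
          intro d hd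
          apply hcB a' d B hc.1 _ hB
          exact (Finset.card_le_card (Nat.primeFactors_mono (Nat.dvd_of_mem_divisors hd)
            hc.2.1.ne_zero)).trans hc.2.2)
      refine le_trans (Nat.cast_le.2 (Finset.card_le_card ?_)) (h1.trans ?_)
      · intro p hp
        rw [Finset.mem_filter] at hp ⊢
        exact ⟨hp.1, ((hbadA b a' p).1 hp.2.2).2.2.2⟩
      · rw [card_divisors_sq hc.2.1]
        push_cast
        have h2 : (2 : ℝ) ^ b.primeFactors.card ≤ 2 ^ k1 := pow_le_pow_right₀ (by norm_num) hc.2.2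
        calc (2 : ℝ) ^ b.primeFactors.card * (2 ^ k0 * (2 * (δ * B))) ≤
            2 ^ k1 * (2 ^ k0 * (2 * (δ * B))) := by gcongr
          _ = (2 ^ k1 * 2 ^ k0) * (2 * (δ * B)) := by ring
          _ ≤ 4 ^ k0 * (2 * (δ * B)) := by gcongr
          _ = (2 * 4 ^ k0 * δ) * B := by ring
    · have : (Ioc B (2 * B)).filter (fun p => p.Prime ∧ badA b a' p) = ∅ := by
        apply Finset.filter_false_of_mem
        rintro p - ⟨-, h0⟩
        obtain ⟨h1, h2, h3, -⟩ := (hbadA b a' p).1 h0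
        exact hc ⟨h1, h2, h3⟩
      rw [this]
      simp only [Finset.card_empty, Nat.cast_zero]
      positivity
  have hcB' : ∀ a b' B : ℕ, y ≤ B →
      (((Ioc B (2 * B)).filter (fun p => p.Prime ∧ badB a b' p)).card : ℝ) ≤
        (2 * 4 ^ k0 * δ) * B := by
    intro a b' B hB
    by_cases hc : b'.primeFactors.card ≤ k1 ∧ Squarefree a ∧ a.primeFactors.card ≤ k1
    · have h1 := card_union1 (Ioc B (2 * B)) a.divisors (fun d p => bad d b' p)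
        (2 ^ k0 * (2 * (δ * B))) (by
          intro d hd
          apply hcB d b' B _ hc.1 hB
          exact (Finset.card_le_card (Nat.primeFactors_mono (Nat.dvd_of_mem_divisors hd)
            hc.2.1.ne_zero)).trans hc.2.2)
      refine le_trans (Nat.cast_le.2 (Finset.card_le_card ?_)) (h1.trans ?_)
      · intro p hp
        rw [Finset.mem_filter] at hp ⊢
        exact ⟨hp.1, ((hbadB a b' p).1 hp.2.2).2.2.2⟩
      · rw [card_divisors_sq hc.2.1]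
        push_cast
        have h2 : (2 : ℝ) ^ a.primeFactors.card ≤ 2 ^ k1 := pow_le_pow_right₀ (by norm_num) hc.2.2
        calc (2 : ℝ) ^ a.primeFactors.card * (2 ^ k0 * (2 * (δ * B))) ≤
            2 ^ k1 * (2 ^ k0 * (2 * (δ * B))) := by gcongr
          _ = (2 ^ k1 * 2 ^ k0) * (2 * (δ * B)) := by ring
          _ ≤ 4 ^ k0 * (2 * (δ * B)) := by gcongr
          _ = (2 * 4 ^ k0 * δ) * B := by ring
    · have : (Ioc B (2 * B)).filter (fun p => p.Prime ∧ badB a b' p) = ∅ := by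
        apply Finset.filter_false_of_mem
        rintro p - ⟨-, h0⟩
        obtain ⟨h1, h2, h3, -⟩ := (hbadB a b' p).1 h0
        exact hc ⟨h1, h2, h3⟩
      rw [this]
      simp only [Finset.card_empty, Nat.cast_zero]
      positivity
  have hy1 : 1 ≤ y := hN.trans hyN
  have hCA : ∀ b, _ := fun b => hS (badA b) (2 * 4 ^ k0 * δ) y A (by positivity) hy1 hA (hcA b)
  have hCB : ∀ a, _ := fun a => hS (badB a) (2 * 4 ^ k0 * δ) y A (by positivity) hy1 hA (hcB' a)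
  -- the second kind of bad primes
  obtain ⟨bad2Q, hbad2Q⟩ : ∃ bad2Q : ℕ → ℕ → Finset ℕ → ℕ → Prop, ∀ b a0 S p,
      bad2Q b a0 S p ↔ (sN N y (a0 * b) ≤ S0 ∧
        V / 4 ^ k0 ≤ ((GG P1 P2 P3 N t0 U y E a0 (a0 * b) S).card : ℝ) ∧ Odd p ∧
        ((GG P1 P2 P3 N t0 U y E a0 (a0 * b) S).card : ℝ) / 3 ≤
        |∑ x ∈ II (GG P1 P2 P3 N t0 U y E a0 (a0 * b) S) (md N y (a0 * b))
          (fun u => val P (TT P1 P2 P3 N t0 y a0 (a0 * b) S) (md N y (a0 * b)) u),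
          c2 P1 P2 P3 (TT P1 P2 P3 N t0 y a0 (a0 * b) S) (md N y (a0 * b)) a0 b x *
            (jacobiSym (p : ℤ) x.2 : ℝ)|) := ⟨_, fun _ _ _ _ => Iff.rfl⟩
  have hc2Q : ∀ b a0 S X, X0 ≤ X →
      (((Icc 1 X).filter (fun p => bad2Q b a0 S p)).card : ℝ) ≤ 3 ^ 2 * (δ2 * X) := by
    intro b a0 S X hX
    by_cases hc : sN N y (a0 * b) ≤ S0 ∧
        V / 4 ^ k0 ≤ ((GG P1 P2 P3 N t0 U y E a0 (a0 * b) S).card : ℝ)
    · have h2 := hlarge (md N y (a0 * b)) (TT P1 P2 P3 N t0 y a0 (a0 * b) S) (hM1 _)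
        (hMU _ hc.1) (htU _ _ _ hc.1)
        (II (GG P1 P2 P3 N t0 U y E a0 (a0 * b) S) (md N y (a0 * b))
          (fun u => val P (TT P1 P2 P3 N t0 y a0 (a0 * b) S) (md N y (a0 * b)) u))
        (c2 P1 P2 P3 (TT P1 P2 P3 N t0 y a0 (a0 * b) S) (md N y (a0 * b)) a0 b)
        (by
          intro x hx
          refine (abs_c2_le _ _ _ _ _ _ _ _).trans ?_
          exact_mod_cast hdivT a0 (a0 * b) S hc.1 x.1 (mem_II.1 hx).1)
        (hIIfac a0 (a0 * b) S hc.1)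
        (hIIT a0 (a0 * b) S hc.1 _ (Finset.Subset.refl _)) X
      have h3 := cntQ (κ := 3) (by norm_num) hVk hc.2 h2 (hδ2 X hX) (by positivity)
      refine le_trans (Nat.cast_le.2 (Finset.card_le_card ?_)) h3
      intro p hp
      rw [Finset.mem_filter] at hp ⊢
      have h4 := (hbad2Q b a0 S p).1 hp.2
      exact ⟨hp.1, h4.2.2.1, h4.2.2.2⟩
    · have : (Icc 1 X).filter (fun p => bad2Q b a0 S p) = ∅ := by
        apply Finset.filter_false_of_mem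
        intro p _ h0
        obtain ⟨h1, h2, -⟩ := (hbad2Q b a0 S p).1 h0
        exact hc ⟨h1, h2⟩
      rw [this]
      simp only [Finset.card_empty, Nat.cast_zero]
      positivity
  obtain ⟨bad2, hbad2⟩ : ∃ bad2 : ℕ → ℕ → ℕ → Prop, ∀ b a0 p,
      bad2 b a0 p ↔ (a0.primeFactors.card ≤ k1 ∧ b.primeFactors.card ≤ k1 ∧
        ∃ S ∈ (a0 * b).primeFactors.powerset, bad2Q b a0 S p) := ⟨_, fun _ _ _ => Iff.rfl⟩
  have hc2 : ∀ b a0 X : ℕ, X0 ≤ X →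
      (((Icc 1 X).filter (fun p => p.Prime ∧ bad2 b a0 p)).card : ℝ) ≤ (9 * 4 ^ k0 * δ2) * X := by
    intro b a0 X hX
    by_cases hc : a0.primeFactors.card ≤ k1 ∧ b.primeFactors.card ≤ k1
    · have h1 := card_union1 (Icc 1 X) (a0 * b).primeFactors.powerset
        (fun S p => bad2Q b a0 S p) (3 ^ 2 * (δ2 * X)) (fun S _ => hc2Q b a0 S X hX)
      refine le_trans (Nat.cast_le.2 (Finset.card_le_card ?_)) (h1.trans ?_)
      · intro p hp
        rw [Finset.mem_filter] at hp ⊢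
        exact ⟨hp.1, ((hbad2 b a0 p).1 hp.2.2).2.2⟩
      · rw [Finset.card_powerset]
        push_cast
        have h4 : (2 : ℝ) ^ (a0 * b).primeFactors.card ≤ 4 ^ k0 := by
          refine (pow_le_pow_right₀ (by norm_num) ?_).trans h24''
          have := card_pf_mul a0 b
          omega
        calc (2 : ℝ) ^ (a0 * b).primeFactors.card * (3 ^ 2 * (δ2 * X)) ≤
            4 ^ k0 * (3 ^ 2 * (δ2 * X)) := by gcongr
          _ = (9 * 4 ^ k0 * δ2) * X := by ring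
    · have : (Icc 1 X).filter (fun p => p.Prime ∧ bad2 b a0 p) = ∅ := by
        apply Finset.filter_false_of_mem
        rintro p - ⟨-, h0⟩
        obtain ⟨h1, h2, -⟩ := (hbad2 b a0 p).1 h0
        exact hc ⟨h1, h2⟩
      rw [this]
      simp only [Finset.card_empty, Nat.cast_zero]
      positivity
  -- the third kind of bad primes
  obtain ⟨bad3Q, hbad3Q⟩ : ∃ bad3Q : ℕ → ℕ → Finset ℕ → Bool → ℕ → Prop, ∀ d b0 S i p,
      bad3Q d b0 S i p ↔ (sN N y (d * b0) ≤ S0 ∧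
        V / 4 ^ k0 ≤ ((GG P1 P2 P3 N t0 U y E d (d * b0) S).card : ℝ) ∧ Odd p ∧
        ((GG P1 P2 P3 N t0 U y E d (d * b0) S).card : ℝ) / 12 ≤
        |Tsum P1 P2 P3 (GG P1 P2 P3 N t0 U y E d (d * b0) S)
          (TT P1 P2 P3 N t0 y d (d * b0) S) (md N y (d * b0)) b0 i p|) :=
    ⟨_, fun _ _ _ _ _ => Iff.rfl⟩
  have hc3Q : ∀ d b0 S i X, X0 ≤ X →
      (((Icc 1 X).filter (fun p => bad3Q d b0 S i p)).card : ℝ) ≤ 12 ^ 2 * (δ2 * X) := by
    intro d b0 S i X hX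
    by_cases hb : sN N y (d * b0) ≤ S0 ∧
        V / 4 ^ k0 ≤ ((GG P1 P2 P3 N t0 U y E d (d * b0) S).card : ℝ)
    · set G := GG P1 P2 P3 N t0 U y E d (d * b0) S with hG
      set t1 := TT P1 P2 P3 N t0 y d (d * b0) S with ht1
      set M := md N y (d * b0) with hM
      have hI1 : I1 P1 P2 P3 G t1 M ⊆ II G M (fun u => val P t1 M u) := by
        unfold I1
        exact Finset.filter_subset _ _
      have hsum : ∑ n ∈ (Icc 1 X).filter (fun n => Odd n), Tsum P1 P2 P3 G t1 M b0 i n ^ 2 ≤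
          L1 * X + L2 := by
        have hcb : ∀ x ∈ I1 P1 P2 P3 G t1 M, |c3 P1 P2 P3 t1 M b0 x| ≤ (T : ℝ) := fun x _ =>
          (abs_c3_le _ _ _ _ _ _ _).trans (by exact_mod_cast hT1)
        cases i with
        | true =>
          unfold Tsum
          simp only [if_true]
          exact hlarge M t1 (hM1 _) (hMU _ hb.1) (htU _ _ _ hb.1) (I1 P1 P2 P3 G t1 M)
            (c3 P1 P2 P3 t1 M b0) hcb
            (fun x hx => hIIfac d (d * b0) S hb.1 x (hI1 hx))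
            (hIIT d (d * b0) S hb.1 _ hI1) X
        | false =>
          unfold Tsum
          simp only [Bool.false_eq_true, if_false]
          apply hlarge3 M t1 (hM1 _) (hMU _ hb.1) (htU _ _ _ hb.1) (I1 P1 P2 P3 G t1 M)
            (c3 P1 P2 P3 t1 M b0) hcb _ (hIIT d (d * b0) S hb.1 _ hI1) X
          intro x hx
          have h1 := hIIfac d (d * b0) S hb.1 x (hI1 hx)
          have h2 : ∀ q ∈ x.2.primeFactors, (q : ℤ) ∣ val P1 t1 M x.1 := by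
            unfold I1 at hx
            exact (Finset.mem_filter.1 hx).2
          have h3 : x.1 ∈ G := (mem_II.1 (hI1 hx)).1
          refine ⟨h1.1, h1.2.1, h1.2.2.1, ?_, ?_⟩
          · intro q hq hqx
            refine ⟨fun h => (h1.2.2.2.2.2 q hq hqx).2 (h.trans (Dvd.intro _ rfl)), ?_⟩
            exact h2 q (Nat.mem_primeFactors.2 ⟨hq, hqx, h1.2.2.1.ne_zero⟩)
          · intro q hq hqN hqv
            exact hDE d (d * b0) S hb.1 x.1 h3 q hq hqN hqv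
      have h3 := cntQ (κ := 12) (by norm_num) hVk hb.2 hsum (hδ2 X hX) (by positivity)
      refine le_trans (Nat.cast_le.2 (Finset.card_le_card ?_)) h3
      intro p hp
      rw [Finset.mem_filter] at hp ⊢
      have h4 := (hbad3Q d b0 S i p).1 hp.2
      exact ⟨hp.1, h4.2.2.1, h4.2.2.2⟩
    · have : (Icc 1 X).filter (fun p => bad3Q d b0 S i p) = ∅ := by
        apply Finset.filter_false_of_mem
        intro p _ h0
        obtain ⟨h1, h2, -⟩ := (hbad3Q d b0 S i p).1 h0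
        exact hb ⟨h1, h2⟩
      rw [this]
      simp only [Finset.card_empty, Nat.cast_zero]
      positivity
  obtain ⟨bad3R, hbad3R⟩ : ∃ bad3R : ℕ → ℕ → ℕ → Prop, ∀ d b0 p,
      bad3R d b0 p ↔ ∃ S ∈ (d * b0).primeFactors.powerset, ∃ i, bad3Q d b0 S i p :=
    ⟨_, fun _ _ _ => Iff.rfl⟩
  have hc3R : ∀ d b0 X : ℕ, d.primeFactors.card ≤ k1 → b0.primeFactors.card ≤ k1 → X0 ≤ X →
      (((Icc 1 X).filter (fun p => bad3R d b0 p)).card : ℝ) ≤
        2 ^ k0 * (2 * (12 ^ 2 * (δ2 * X))) := by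
    intro d b0 X h1 h2 hX
    have h3 := card_union2 (Icc 1 X) (d * b0).primeFactors.powerset
      (fun S i p => bad3Q d b0 S i p) (12 ^ 2 * (δ2 * X)) (fun S _ i => hc3Q d b0 S i X hX)
    have h4 : (Icc 1 X).filter (fun p => bad3R d b0 p) = (Icc 1 X).filter
        (fun p => ∃ S ∈ (d * b0).primeFactors.powerset, ∃ i, bad3Q d b0 S i p) :=
      Finset.filter_congr fun p _ => hbad3R d b0 p
    rw [h4]
    refine h3.trans ?_
    apply mul_le_mul_of_nonneg_right _ (by positivity)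
    rw [Finset.card_powerset]
    push_cast
    apply pow_le_pow_right₀ (by norm_num)
    have := card_pf_mul d b0
    omega
  obtain ⟨bad3, hbad3⟩ : ∃ bad3 : ℕ → ℕ → ℕ → Prop, ∀ a b0 p,
      bad3 a b0 p ↔ (b0.primeFactors.card ≤ k1 ∧ Squarefree a ∧ a.primeFactors.card ≤ k1 ∧
        ∃ d ∈ a.divisors, bad3R d b0 p) :=
    ⟨_, fun _ _ _ => Iff.rfl⟩
  have hc3 : ∀ a b0 X : ℕ, X0 ≤ X →
      (((Icc 1 X).filter (fun p => p.Prime ∧ bad3 a b0 p)).card : ℝ) ≤ (288 * 4 ^ k0 * δ2) * X := by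
    intro a b0 X hX
    by_cases hc : b0.primeFactors.card ≤ k1 ∧ Squarefree a ∧ a.primeFactors.card ≤ k1
    · have h1 := card_union1 (Icc 1 X) a.divisors (fun d p => bad3R d b0 p)
        (2 ^ k0 * (2 * (12 ^ 2 * (δ2 * X)))) (by
          intro d hd
          apply hc3R d b0 X _ hc.1 hX
          exact (Finset.card_le_card (Nat.primeFactors_mono (Nat.dvd_of_mem_divisors hd)
            hc.2.1.ne_zero)).trans hc.2.2)
      refine le_trans (Nat.cast_le.2 (Finset.card_le_card ?_)) (h1.trans ?_)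
      · intro p hp
        rw [Finset.mem_filter] at hp ⊢
        exact ⟨hp.1, ((hbad3 a b0 p).1 hp.2.2).2.2.2⟩
      · rw [card_divisors_sq hc.2.1]
        push_cast
        have h2 : (2 : ℝ) ^ a.primeFactors.card ≤ 2 ^ k1 := pow_le_pow_right₀ (by norm_num) hc.2.2
        calc (2 : ℝ) ^ a.primeFactors.card * (2 ^ k0 * (2 * (12 ^ 2 * (δ2 * X)))) ≤
            2 ^ k1 * (2 ^ k0 * (2 * (12 ^ 2 * (δ2 * X)))) := by gcongr
          _ = (2 ^ k1 * 2 ^ k0) * (2 * (12 ^ 2 * (δ2 * X))) := by ring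
          _ ≤ 4 ^ k0 * (2 * (12 ^ 2 * (δ2 * X))) := by gcongr
          _ = (288 * 4 ^ k0 * δ2) * X := by ring
    · have : (Icc 1 X).filter (fun p => p.Prime ∧ bad3 a b0 p) = ∅ := by
        apply Finset.filter_false_of_mem
        rintro p - ⟨-, h0⟩
        obtain ⟨h1, h2, h3, -⟩ := (hbad3 a b0 p).1 h0
        exact hc ⟨h1, h2, h3⟩
      rw [this]
      simp only [Finset.card_empty, Nat.cast_zero]
      positivity
  have hC2 : ∀ b, _ := fun b => hS2 (bad2 b) (9 * 4 ^ k0 * δ2) X0 A (by positivity) hX0 hA (hc2 b)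
  have hC3 : ∀ a, _ := fun a => hS2 (bad3 a) (288 * 4 ^ k0 * δ2) X0 A (by positivity) hX0 hA (hc3 a)
  -- the exceptional sets of pairs
  obtain ⟨XA, hXA⟩ : ∃ XA : ℕ → Finset ℕ, XA = fun b => (Icc 1 A).filter (fun a : ℕ => Squarefree a ∧
    ∃ p ∈ a.primeFactors, y < p ∧ badA b (∏ q ∈ a.primeFactors.filter (fun q => q < p), q) p) :=
    ⟨_, rfl⟩
  obtain ⟨XB, hXB⟩ : ∃ XB : ℕ → Finset ℕ, XB = fun a => (Icc 1 A).filter (fun b : ℕ => Squarefree b ∧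
    ∃ p ∈ b.primeFactors, y < p ∧ badB a (∏ q ∈ b.primeFactors.filter (fun q => q < p), q) p) :=
    ⟨_, rfl⟩
  obtain ⟨X2, hX2⟩ : ∃ X2 : ℕ → Finset ℕ, X2 = fun b => (Icc 1 A).filter (fun a : ℕ =>
    ∃ a0 p : ℕ, a = a0 * p ∧ p.Prime ∧ a0 * X0 ≤ A ∧ bad2 b a0 p) := ⟨_, rfl⟩
  obtain ⟨X3, hX3⟩ : ∃ X3 : ℕ → Finset ℕ, X3 = fun a => (Icc 1 A).filter (fun b : ℕ =>
    ∃ b0 p : ℕ, b = b0 * p ∧ p.Prime ∧ b0 * X0 ≤ A ∧ bad3 a b0 p) := ⟨_, rfl⟩
  have hcard : ((((Icc 1 A) ×ˢ (Icc 1 A)).filter (fun x : ℕ × ℕ => Squarefree x.1 ∧ Squarefree x.2 ∧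
      x.1.Coprime x.2 ∧ x.1.primeFactors.card ≤ k1 ∧ x.2.primeFactors.card ≤ k1 ∧
      sm y x.1 * sm y x.2 ≤ S0 ∧
      (∃ p ∈ x.1.primeFactors, (∀ q ∈ x.1.primeFactors, q ≤ p) ∧ y < p ∧ (x.1 / p) * X0 ≤ A) ∧
      (∃ p ∈ x.2.primeFactors, (∀ q ∈ x.2.primeFactors, q ≤ p) ∧ y < p ∧ (x.2 / p) * X0 ≤ A) ∧
      ¬ ∃ (ps : ℕ) (t : ℤ), ps.Prime ∧ ¬ ps ∣ N ∧ (N : ℤ) ∣ t - t0 ∧ T0 ≤ t ∧
        Cond2 P1 P2 P3 N x.1 x.2 ps t)).card : ℝ) ≤
      ∑ b ∈ Icc 1 A, ((XA b).card : ℝ) + ∑ a ∈ Icc 1 A, ((XB a).card : ℝ) +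
      ∑ b ∈ Icc 1 A, ((X2 b).card : ℝ) + ∑ a ∈ Icc 1 A, ((X3 a).card : ℝ) := by
    have hsub : ((Icc 1 A) ×ˢ (Icc 1 A)).filter (fun x : ℕ × ℕ => Squarefree x.1 ∧ Squarefree x.2 ∧
      x.1.Coprime x.2 ∧ x.1.primeFactors.card ≤ k1 ∧ x.2.primeFactors.card ≤ k1 ∧
      sm y x.1 * sm y x.2 ≤ S0 ∧
      (∃ p ∈ x.1.primeFactors, (∀ q ∈ x.1.primeFactors, q ≤ p) ∧ y < p ∧ (x.1 / p) * X0 ≤ A) ∧
      (∃ p ∈ x.2.primeFactors, (∀ q ∈ x.2.primeFactors, q ≤ p) ∧ y < p ∧ (x.2 / p) * X0 ≤ A) ∧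
      ¬ ∃ (ps : ℕ) (t : ℤ), ps.Prime ∧ ¬ ps ∣ N ∧ (N : ℤ) ∣ t - t0 ∧ T0 ≤ t ∧
        Cond2 P1 P2 P3 N x.1 x.2 ps t) ⊆
      (((Icc 1 A).biUnion (fun b => (XA b).image (fun a => (a, b)))) ∪
      ((Icc 1 A).biUnion (fun a => (XB a).image (fun b => (a, b))))) ∪
      (((Icc 1 A).biUnion (fun b => (X2 b).image (fun a => (a, b)))) ∪
      ((Icc 1 A).biUnion (fun a => (X3 a).image (fun b => (a, b))))) := by
      rintro ⟨a, b⟩ hx
      rw [Finset.mem_filter, Finset.mem_product] at hx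
      obtain ⟨⟨haA, hbA⟩, hsqa, hsqb, hab, hka, hkb, hsm, ⟨p, hp, hmax, hyp, hXp⟩,
        ⟨r, hr, hmaxr, hyr, hXr⟩, hno⟩ := hx
      dsimp only at haA hbA hsqa hsqb hab hka hkb hsm hp hmax hyp hXp hr hmaxr hyr hXr hno
      by_contra hcon
      have hnA : a ∉ XA b := fun h => hcon (Finset.mem_union_left _ (Finset.mem_union_left _
        (Finset.mem_biUnion.2 ⟨b, hbA, Finset.mem_image.2 ⟨a, h, rfl⟩⟩)))
      have hnB : b ∉ XB a := fun h => hcon (Finset.mem_union_left _ (Finset.mem_union_right _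
        (Finset.mem_biUnion.2 ⟨a, haA, Finset.mem_image.2 ⟨b, h, rfl⟩⟩)))
      have hn2 : a ∉ X2 b := fun h => hcon (Finset.mem_union_right _ (Finset.mem_union_left _
        (Finset.mem_biUnion.2 ⟨b, hbA, Finset.mem_image.2 ⟨a, h, rfl⟩⟩)))
      have hn3 : b ∉ X3 a := fun h => hcon (Finset.mem_union_right _ (Finset.mem_union_right _
        (Finset.mem_biUnion.2 ⟨a, haA, Finset.mem_image.2 ⟨b, h, rfl⟩⟩)))
      rw [hXA, Finset.mem_filter] at hnA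
      rw [hXB, Finset.mem_filter] at hnB
      rw [hX2, Finset.mem_filter] at hn2
      rw [hX3, Finset.mem_filter] at hn3
      apply hno
      have hN2 : 2 ≤ N := Nat.le_of_dvd hN h2N
      have hpp : p.Prime := Nat.prime_of_mem_primeFactors hp
      have hrp : r.Prime := Nat.prime_of_mem_primeFactors hr
      apply pair_main hT0 hN h2N hNS hyN hyU hV hsize hsieve hexist hres hsqa hsqb hab hsm
        (by omega : a.primeFactors.card + b.primeFactors.card ≤ k0) hp hmax hyp hr hmaxr hyr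
      · intro q hq hyq d hd S hS i hVq
        by_contra hlt
        apply hnA
        refine ⟨haA, hsqa, q, hq, hyq, (hbadA b (seg a q) q).2 ⟨?_, hsqb, hkb, d, hd,
          (hbad _ _ _).2 ⟨S, hS, i, (hbadQ _ _ _ _ _).2
            ⟨Nat.prime_of_mem_primeFactors hq, ?_, hVq, not_le.1 hlt⟩⟩⟩⟩
        · rw [seg_primeFactors]
          exact (Finset.card_filter_le _ _).trans hka
        · exact (sN_le_mul hsqa.ne_zero hsqb.ne_zero (seg_dvd a q)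
            (Nat.dvd_of_mem_divisors hd)).trans hsm
      · intro q hq hyq d hd S hS i hVq
        by_contra hlt
        apply hnB
        refine ⟨hbA, hsqb, q, hq, hyq, (hbadB a (seg b q) q).2 ⟨?_, hsqa, hka, d, hd,
          (hbad _ _ _).2 ⟨S, hS, i, (hbadQ _ _ _ _ _).2
            ⟨Nat.prime_of_mem_primeFactors hq, ?_, hVq, not_le.1 hlt⟩⟩⟩⟩
        · rw [seg_primeFactors]
          exact (Finset.card_filter_le _ _).trans hkb
        · exact (sN_le_mul hsqa.ne_zero hsqb.ne_zero (Nat.dvd_of_mem_divisors hd)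
            (seg_dvd b q)).trans hsm
      · intro S hS hVq
        by_contra hge
        apply hn2
        refine ⟨haA, seg a p, p, (seg_max hsqa hp hmax).1.symm, hpp, ?_,
          (hbad2 _ _ _).2 ⟨?_, hkb, S, hS, (hbad2Q _ _ _ _).2 ⟨?_, hVq,
            hpp.odd_of_ne_two (by omega), not_lt.1 hge⟩⟩⟩
        · rw [← (seg_max hsqa hp hmax).2]; exact hXp
        · rw [seg_primeFactors]
          exact (Finset.card_filter_le _ _).trans hka
        · exact (sN_le_mul hsqa.ne_zero hsqb.ne_zero (seg_dvd a p) (dvd_refl b)).trans hsm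
      · intro d hd S hS i hVq
        by_contra hge
        apply hn3
        refine ⟨hbA, seg b r, r, (seg_max hsqb hr hmaxr).1.symm, hrp, ?_,
          (hbad3 _ _ _).2 ⟨?_, hsqa, hka, d, hd, (hbad3R _ _ _).2 ⟨S, hS, i,
            (hbad3Q _ _ _ _ _).2 ⟨?_, hVq, hrp.odd_of_ne_two (by omega), not_lt.1 hge⟩⟩⟩⟩
        · rw [← (seg_max hsqb hr hmaxr).2]; exact hXr
        · rw [seg_primeFactors]
          exact (Finset.card_filter_le _ _).trans hkb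
        · exact (sN_le_mul hsqa.ne_zero hsqb.ne_zero (Nat.dvd_of_mem_divisors hd)
            (seg_dvd b r)).trans hsm
    have hcard4 := Finset.card_le_card hsub
    have hu : ∀ (s t : Finset (ℕ × ℕ)), (s ∪ t).card ≤ s.card + t.card := fun s t =>
      Finset.card_union_le s t
    have hb1 : ∀ Y : ℕ → Finset ℕ, ((Icc 1 A).biUnion (fun b => (Y b).image (fun a => (a, b)))).card ≤
        ∑ b ∈ Icc 1 A, (Y b).card := fun Y =>
      Finset.card_biUnion_le.trans (Finset.sum_le_sum fun b _ => Finset.card_image_le)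
    have hb2 : ∀ Y : ℕ → Finset ℕ, ((Icc 1 A).biUnion (fun a => (Y a).image (fun b => (a, b)))).card ≤
        ∑ a ∈ Icc 1 A, (Y a).card := fun Y =>
      Finset.card_biUnion_le.trans (Finset.sum_le_sum fun b _ => Finset.card_image_le)
    have hfin := hcard4.trans ((hu _ _).trans (Nat.add_le_add ((hu _ _).trans
      (Nat.add_le_add (hb1 XA) (hb2 XB))) ((hu _ _).trans (Nat.add_le_add (hb1 X2) (hb2 X3)))))
    have hfin' := (Nat.cast_le (α := ℝ)).2 hfin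
    push_cast at hfin'
    refine hfin'.trans (le_of_eq ?_)
    ring
  refine hcard.trans ?_
  have hlogA : (0 : ℝ) ≤ Real.log A := Real.log_natCast_nonneg A
  have hA0 : (0 : ℝ) ≤ A := Nat.cast_nonneg A
  have hsumc : ∀ D : ℝ, ∑ _b ∈ Icc 1 A, D = A * D := by
    intro D
    rw [Finset.sum_const, Nat.card_Icc, nsmul_eq_mul]
    simp
  have s1 : ∑ b ∈ Icc 1 A, ((XA b).card : ℝ) ≤ A * (4 * (2 * 4 ^ k0 * δ) * A * (1 + Real.log A) ^ 2) := by
    rw [← hsumc]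
    apply Finset.sum_le_sum
    intro b _
    rw [hXA]
    exact hCA b
  have s2 : ∑ a ∈ Icc 1 A, ((XB a).card : ℝ) ≤ A * (4 * (2 * 4 ^ k0 * δ) * A * (1 + Real.log A) ^ 2) := by
    rw [← hsumc]
    apply Finset.sum_le_sum
    intro a _
    rw [hXB]
    exact hCB a
  have s3 : ∑ b ∈ Icc 1 A, ((X2 b).card : ℝ) ≤ A * ((9 * 4 ^ k0 * δ2) * A * (1 + Real.log A)) := by
    rw [← hsumc]
    apply Finset.sum_le_sum
    intro b _
    rw [hX2]
    exact hC2 b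
  have s4 : ∑ a ∈ Icc 1 A, ((X3 a).card : ℝ) ≤ A * ((288 * 4 ^ k0 * δ2) * A * (1 + Real.log A)) := by
    rw [← hsumc]
    apply Finset.sum_le_sum
    intro a _
    rw [hX3]
    exact hC3 a
  have s5 : (0 : ℝ) ≤ 4 ^ k0 * δ2 * A ^ 2 * (1 + Real.log A) := by positivity
  nlinarith [s1, s2, s3, s4, s5]

end Pool.Agent.W313.HB
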