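import Mathlib
import Pool.Agent.W313.HB.Sc2D
import Pool.Agent.W313.HB.Num2
import Pool.Agent.W313.HB.AnaD

set_option autoImplicit false
set_option linter.all false
set_option maxHeartbeats 4000000

namespace Pool.Agent.W313.HB

open Finset Polynomial

lemma good_right {F G : ℤ[X]} (h : ((F * G).map (Int.castRingHom ℚ)).Separable)
    (hd : 1 ≤ G.natDegree) : Good G := by
  refine ⟨?_, hd⟩
  rw [Polynomial.map_mul] at h
  exact h.of_mul_right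

lemma ev_c4 (J N : ℕ) (K ε : ℝ) (hK : 1 ≤ K) (hε : 0 < ε) :
    ∀ᶠ l : ℝ in Filter.atTop, (J : ℝ) * N * (16 * (Real.exp (2 * K * l) *
      Real.exp (-(1 / 20) * l ^ 2 + (4 * K + 2) * l)) * (1 + Real.exp l) ^ 2) ≤ ε / 8 := by
  have h1 : ∀ᶠ l : ℝ in Filter.atTop, 20 * (6 * K + 5) ≤ l := Filter.eventually_ge_atTop _
  have h2 : ∀ᶠ l : ℝ in Filter.atTop, (J : ℝ) * N * 64 * (8 / ε) ≤ Real.exp l :=
    Real.tendsto_exp_atTop.eventually_ge_atTop _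
  filter_upwards [h1, h2, Filter.eventually_ge_atTop 0] with l h1 h2 h3
  have h4 : (1 + Real.exp l) ^ 2 ≤ 4 * Real.exp (2 * l) := by
    have h5 : 1 ≤ Real.exp l := Real.one_le_exp h3
    have h6 : Real.exp (2 * l) = Real.exp l ^ 2 := by rw [← Real.exp_nat_mul]; norm_num
    rw [h6]; nlinarith
  have h5 : Real.exp (2 * K * l) * Real.exp (-(1 / 20) * l ^ 2 + (4 * K + 2) * l) * Real.exp (2 * l) ≤
      Real.exp (-l) := by
    rw [← Real.exp_add, ← Real.exp_add]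
    apply Real.exp_le_exp.2
    have : 20 * (6 * K + 5) * l ≤ l * l := mul_le_mul_of_nonneg_right h1 h3
    nlinarith
  calc (J : ℝ) * N * (16 * (Real.exp (2 * K * l) * Real.exp (-(1 / 20) * l ^ 2 + (4 * K + 2) * l)) *
        (1 + Real.exp l) ^ 2)
      ≤ (J : ℝ) * N * (16 * (Real.exp (2 * K * l) * Real.exp (-(1 / 20) * l ^ 2 + (4 * K + 2) * l)) *
        (4 * Real.exp (2 * l))) := by gcongr
    _ = (J : ℝ) * N * 64 * (Real.exp (2 * K * l) * Real.exp (-(1 / 20) * l ^ 2 + (4 * K + 2) * l) *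
        Real.exp (2 * l)) := by ring
    _ ≤ (J : ℝ) * N * 64 * Real.exp (-l) := by gcongr
    _ ≤ ε / 8 := by
        rw [Real.exp_neg, ← div_eq_mul_inv, div_le_iff₀ (Real.exp_pos _)]
        calc (J : ℝ) * N * 64 = ε / 8 * ((J : ℝ) * N * 64 * (8 / ε)) := by field_simp
          _ ≤ ε / 8 * Real.exp l := by gcongr

lemma ev_c5 (J N : ℕ) (K ε : ℝ) (hε : 0 < ε) :
    ∀ᶠ l : ℝ in Filter.atTop, (J : ℝ) * N * (600 * (Real.exp (2 * K * l) *
      Real.exp (-((2 * K + 2) * l))) * (1 + Real.exp l)) ≤ ε / 8 := by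
  have h2 : ∀ᶠ l : ℝ in Filter.atTop, (J : ℝ) * N * 1200 * (8 / ε) ≤ Real.exp l :=
    Real.tendsto_exp_atTop.eventually_ge_atTop _
  filter_upwards [h2, Filter.eventually_ge_atTop 0] with l h2 h3
  have h4 : (Real.exp (2 * K * l) * Real.exp (-((2 * K + 2) * l))) * (1 + Real.exp l) ≤
      2 * Real.exp (-l) := by
    have h5 : 1 ≤ Real.exp l := Real.one_le_exp h3
    calc (Real.exp (2 * K * l) * Real.exp (-((2 * K + 2) * l))) * (1 + Real.exp l) ≤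
          (Real.exp (2 * K * l) * Real.exp (-((2 * K + 2) * l))) * (2 * Real.exp l) := by
          gcongr; linarith
      _ = 2 * (Real.exp (2 * K * l) * Real.exp (-((2 * K + 2) * l)) * Real.exp l) := by ring
      _ = 2 * Real.exp (-l) := by rw [← Real.exp_add, ← Real.exp_add]; congr 2; ring
  calc (J : ℝ) * N * (600 * (Real.exp (2 * K * l) * Real.exp (-((2 * K + 2) * l))) *
        (1 + Real.exp l)) = (J : ℝ) * N * 600 * ((Real.exp (2 * K * l) *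
          Real.exp (-((2 * K + 2) * l))) * (1 + Real.exp l)) := by ring
    _ ≤ (J : ℝ) * N * 600 * (2 * Real.exp (-l)) := by gcongr
    _ = (J : ℝ) * N * 1200 * Real.exp (-l) := by ring
    _ ≤ ε / 8 := by
        rw [Real.exp_neg, ← div_eq_mul_inv, div_le_iff₀ (Real.exp_pos _)]
        calc (J : ℝ) * N * 1200 = ε / 8 * ((J : ℝ) * N * 1200 * (8 / ε)) := by field_simp
          _ ≤ ε / 8 * Real.exp l := by gcongr

lemma card_left (A : ℕ) (s : Finset ℕ) (c : ℝ) (h : (s.card : ℝ) ≤ c * A) :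
    (((s ×ˢ (Icc 1 A)).card : ℕ) : ℝ) ≤ c * (A : ℝ) ^ 2 := by
  rw [Finset.card_product]
  push_cast
  have h2 : (((Icc 1 A).card : ℕ) : ℝ) = A := by rw [Nat.card_Icc]; simp
  rw [h2]
  nlinarith [Nat.cast_nonneg (α := ℝ) A]

lemma card_right (A : ℕ) (s : Finset ℕ) (c : ℝ) (h : (s.card : ℝ) ≤ c * A) :
    ((((Icc 1 A) ×ˢ s).card : ℕ) : ℝ) ≤ c * (A : ℝ) ^ 2 := by
  rw [Finset.card_product]
  push_cast
  have h2 : (((Icc 1 A).card : ℕ) : ℝ) = A := by rw [Nat.card_Icc]; simp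
  rw [h2]
  nlinarith [Nat.cast_nonneg (α := ℝ) A]

theorem ana2_ (hgsp : S_GSP) (hsmooth : S_SMOOTH) (homega : S_OMEGA) (hcount : S_COUNT)
    (hcount2 : S_COUNT2) (hsieve : S_SIEVE) (hsize : S_SIZE) (hexist : S_EXIST) (hbadc : S_BADC)
    (hlarge : S_LARGE) (hlarge3 : S_LARGE3) : S_ANA2 := by
  classical
  intro P1 P2 P3 hG hd3 hlc
  have hne' := sep_of_mul_left hG.1
  have hP3 : P3 ≠ 0 := hne'.2
  have hP1 : P1 ≠ 0 := left_ne_zero_of_mul hne'.1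
  have hP2 : P2 ≠ 0 := right_ne_zero_of_mul hne'.1
  have hP0 : P1 * P2 * P3 ≠ 0 := mul_ne_zero hne'.1 hne'.2
  have hG23 : Good (P2 * P3) := by
    apply good_right (F := P1)
    · rw [← mul_assoc]; exact hG.1
    · rw [natDegree_mul hP2 hP3]; omega
  have hG13 : Good (P1 * P3) := by
    apply good_right (F := P2)
    · rw [← mul_assoc, mul_comm P2 P1]; exact hG.1
    · rw [natDegree_mul hP1 hP3]; omega
  have hGF : ∀ i, Good (FF P1 P2 P3 i) := by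
    intro i
    unfold FF
    cases i
    · simpa using hG13
    · simpa using hG23
  have hFt : FF P1 P2 P3 true = P2 * P3 := by unfold FF; simp
  have hFf : FF P1 P2 P3 false = P1 * P3 := by unfold FF; simp
  have hF0 : ∀ i, FF P1 P2 P3 i ≠ 0 := by
    intro i
    cases i
    · rw [hFf]; exact mul_ne_zero hP1 hP3
    · rw [hFt]; exact mul_ne_zero hP2 hP3
  have hbc := fun i => hbadc (FF P1 P2 P3 i) (hGF i)
  choose Cb Ub hb using hbc
  obtain ⟨CL, CL', UL, EL, hCL, hL⟩ := hlarge (P1 * P2 * P3) hP0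
  obtain ⟨Cs, Us, hs⟩ := hsize (P1 * P2 * P3) hP0
  have hsc' := fun i => hsize (FF P1 P2 P3 i) (hF0 i)
  choose Cs1 Us1 hs1 using hsc'
  obtain ⟨zv, Csv, hv⟩ := hsieve (P1 * P2 * P3) hP0
  have hex := fun i => hexist (FF P1 P2 P3 i) (P1 * P2 * P3) (hGF i) hP0
  choose ze he using hex
  obtain ⟨zr, hr⟩ := res_prime (P1 := P1) (P2 := P2 * P3) (by rw [← mul_assoc]; exact hG.1)
  obtain ⟨zr2, hr2⟩ := res_prime (P1 := P1 * P2) (P2 := P3) hG.1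
  refine ⟨2 + zv + ze true + ze false + zr + zr2, fun N hN hpr T0 ε hε => ?_⟩
  have hbig : ∀ q : ℕ, q.Prime → ¬ q ∣ N → 2 + zv + ze true + ze false + zr + zr2 < q := by
    intro q hq hqN
    by_contra h
    exact hqN (hpr q hq (not_lt.1 h))
  have h2N : 2 ∣ N := hpr 2 Nat.prime_two (by omega)
  have hres : ∀ q : ℕ, q.Prime → ¬ q ∣ N → ∀ x : ℤ,
      ((q : ℤ) ∣ P1.eval x → ¬ (q : ℤ) ∣ P2.eval x ∧ ¬ (q : ℤ) ∣ P3.eval x) ∧
      ((q : ℤ) ∣ P2.eval x → ¬ (q : ℤ) ∣ P3.eval x) := by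
    intro q hq hqN x
    have hb := hbig q hq hqN
    have e1 := hr q (by omega) x
    have e2 := hr2 q (by omega) x
    rw [eval_mul] at e1 e2
    refine ⟨fun h => ⟨fun h2 => e1 h (h2.mul_right _), fun h2 => e1 h (h2.mul_left _)⟩, fun h =>
      e2 (h.mul_left _)⟩
  obtain ⟨CM, CM', UM, EM, hCM, hM3⟩ := hlarge3 P1 P2 P3 hG hd3 N hN
    (fun q hq hqN x h => ((hres q hq hqN x).1 h).2)
  obtain ⟨η, A1, hη0, hη1, hsm⟩ := hsmooth (ε / 16) (by positivity)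
  obtain ⟨K1, A2, hK1, hom⟩ := homega (ε / 16) (by positivity)
  obtain ⟨K, hK⟩ : ∃ K : ℝ, K = 2 * K1 := ⟨_, rfl⟩
  have hK1' : 1 ≤ K := by linarith
  set C1 := max (max (Cb true) (Cb false)) (max Cs (max (Cs1 true) (Cs1 false))) with hC1
  have hC1b : ∀ i, Cb i ≤ C1 := by intro i; cases i <;> simp [hC1]
  have hC1s : Cs ≤ C1 := by simp [hC1]
  have hC1s1 : ∀ i, Cs1 i ≤ C1 := by intro i; cases i <;> simp [hC1]
  obtain ⟨J, R, hR, hgsJ⟩ := hgsp (ε / 4) (2 * (2 * C1 + 1)) (by positivity) (by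
    have := Nat.cast_nonneg (α := ℝ) C1; linarith)
  obtain ⟨Λ, hΛ⟩ : ∃ Λ : ℝ, Λ = 2 * R ^ (J + 1) := ⟨_, rfl⟩
  have hR1 : 1 ≤ R ^ (J + 1) := one_le_pow₀ hR
  have hΛ1 : 1 ≤ Λ := by linarith
  obtain ⟨KE, hKE⟩ : ∃ KE : ℝ, KE = max (6 * K + 9) (4 * C1 * Λ) := ⟨_, rfl⟩
  obtain ⟨Uv, hUv⟩ := hv KE
  obtain ⟨CLL, hCLL⟩ : ∃ CLL : ℝ, CLL = CL + CM := ⟨_, rfl⟩
  obtain ⟨CLL', hCLL'⟩ : ∃ CLL' : ℕ, CLL' = CL' + CM' := ⟨_, rfl⟩
  have hnum := num2 C1 Csv CLL' (Ub true + Ub false + UL + Us + Us1 true + Us1 false + Uv + UM +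
    T0.toNat) (EL + EM) N K KE Λ CLL hK1' hΛ1 (by linarith) (by rw [hKE]; exact le_max_left _ _)
    (by rw [hKE]; exact le_max_right _ _)
  -- further conditions on l
  have c1 : ∀ᶠ l : ℝ in Filter.atTop, R ^ (J + 2) * l ^ 2 ≤ 1 * Real.exp l :=
    ev_sq _ _ one_pos
  have c2 : ∀ᶠ l : ℝ in Filter.atTop, (2 + (2 * K + 2 + 2 * CLL' * Λ)) * l ^ 2 ≤ η * Real.exp l :=
    ev_sq _ _ hη0
  have c3 : ∀ᶠ l : ℝ in Filter.atTop, ((2 * C1 + 1) * Λ + 1) * l ^ 2 ≤ η * Real.exp l :=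
    ev_sq _ _ hη0
  have c4 := ev_c4 J N K ε hK1' hε
  have c5 := ev_c5 J N K ε hε
  have hll : Filter.Tendsto (fun A : ℕ => Real.log (Real.log (A : ℝ))) Filter.atTop Filter.atTop :=
    Real.tendsto_log_atTop.comp (Real.tendsto_log_atTop.comp tendsto_natCast_atTop_atTop)
  have hall := (((((hnum.and c1).and c2).and c3).and c4).and c5)
  have hevA := hll.eventually hall
  obtain ⟨A3, hA3⟩ := Filter.eventually_atTop.1 hevA
  refine ⟨max (max A1 A2) (max A3 3), fun A hA => ?_⟩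
  have hAA1 : A1 ≤ A := (le_max_left _ _).trans ((le_max_left _ _).trans hA)
  have hAA2 : A2 ≤ A := (le_max_right _ _).trans ((le_max_left _ _).trans hA)
  have hAA3 : A3 ≤ A := (le_max_left _ _).trans ((le_max_right _ _).trans hA)
  have hA3' : 3 ≤ A := (le_max_right _ _).trans ((le_max_right _ _).trans hA)
  obtain ⟨⟨⟨⟨⟨hn, d1⟩, d2⟩, d3⟩, d4⟩, d5⟩ := hA3 A hAA3
  set l : ℝ := Real.log (Real.log (A : ℝ)) with hl
  obtain ⟨hl1, hn⟩ := hn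
  have hApos : (0 : ℝ) < A := by
    have : (3 : ℝ) ≤ A := by exact_mod_cast hA3'
    linarith
  have hlogA : Real.log A = Real.exp l := by
    rw [hl, Real.exp_log]
    apply Real.log_pos
    have : (3 : ℝ) ≤ A := by exact_mod_cast hA3'
    linarith
  -- the scales
  obtain ⟨g1, hg1⟩ : ∃ g1 : ℕ → ℝ, g1 = fun j => R ^ (j + 1) * l ^ 2 := ⟨_, rfl⟩
  obtain ⟨g, hg⟩ : ∃ g : ℕ → ℝ, g = fun j => 2 * g1 j := ⟨_, rfl⟩
  have hgj : ∀ j, g j = 2 * g1 j := fun j => by rw [hg]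
  have hg0 : R ≤ g1 0 := by
    rw [hg1]
    have : 1 ≤ l ^ 2 := one_le_pow₀ hl1
    calc R = R ^ (0 + 1) * 1 := by ring
      _ ≤ R ^ (0 + 1) * l ^ 2 := by gcongr
  have hgS : ∀ j, R * g1 j ≤ g1 (j + 1) := by
    intro j
    rw [hg1]
    exact le_of_eq (by ring)
  have hgJ : R * g1 J ≤ Real.log A := by
    rw [hlogA, hg1]
    refine le_trans (le_of_eq ?_) (d1.trans (le_of_eq (one_mul _)))
    ring
  have hgs1 := hgsJ g1 hg0 hgS A hgJ
  have hsm1 := hsm A hAA1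
  have hom1 := hom A hAA2
  -- parameters
  obtain ⟨U, hU⟩ : ∃ U : ℕ → ℕ, U = fun j => ⌊Real.exp (2 * g j)⌋₊ := ⟨_, rfl⟩
  obtain ⟨y, hy⟩ : ∃ y : ℕ → ℕ, y = fun j => ⌊Real.exp ((2 * C1 + 1) * g j)⌋₊ := ⟨_, rfl⟩
  obtain ⟨E, hE⟩ : ∃ E : ℕ, E = ⌊Real.exp (KE * l)⌋₊ := ⟨_, rfl⟩
  obtain ⟨k0, hk0⟩ : ∃ k0 : ℕ, k0 = ⌊K * l⌋₊ := ⟨_, rfl⟩
  obtain ⟨k1, hk1⟩ : ∃ k1 : ℕ, k1 = ⌊K1 * l⌋₊ := ⟨_, rfl⟩
  obtain ⟨T, hT⟩ : ∃ T : ℕ, T = 2 ^ ⌊l⌋₊ := ⟨_, rfl⟩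
  obtain ⟨S, hS⟩ : ∃ S : ℕ → ℕ, S = fun j => ⌊Real.exp (g j)⌋₊ := ⟨_, rfl⟩
  obtain ⟨V, hV⟩ : ∃ V : ℕ → ℝ, V = fun j => (U j : ℝ) / (1 + Real.log E) ^ Csv := ⟨_, rfl⟩
  obtain ⟨δ, hδ⟩ : ∃ δ : ℕ → ℝ, δ = fun j => (U j : ℝ) ^ (-(1 / 20) : ℝ) *
    Real.exp ((4 * K + 2) * l) := ⟨_, rfl⟩
  obtain ⟨X0, hX0⟩ : ∃ X0 : ℕ → ℕ, X0 = fun j => ⌈2 * Real.exp ((2 * K + 2) * l) *
    (U j : ℝ) ^ CLL'⌉₊ := ⟨_, rfl⟩
  have hk : 2 * k1 ≤ k0 := by
    rw [hk0]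
    apply Nat.le_floor
    push_cast
    have h1 : (k1 : ℝ) ≤ K1 * l := by rw [hk1]; exact Nat.floor_le (by positivity)
    rw [hK]; linarith
  have hgl : ∀ j, l ^ 2 ≤ g j := by
    intro j
    rw [hgj, hg1]
    have : 1 ≤ R ^ (j + 1) := one_le_pow₀ hR
    nlinarith [sq_nonneg l]
  have hgu : ∀ j, j < J → g j ≤ Λ * l ^ 2 := by
    intro j hj
    rw [hgj, hg1, hΛ]
    have : R ^ (j + 1) ≤ R ^ (J + 1) := pow_le_pow_right₀ hR (by omega)
    have h2 := mul_le_mul_of_nonneg_right this (sq_nonneg l)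
    dsimp only
    linarith
  -- the exceptional sets
  obtain ⟨X1, hX1⟩ : ∃ X1 : Finset ℕ, X1 = (Icc 1 A).filter (fun a : ℕ => Squarefree a ∧
    ∀ p : ℕ, p ∈ a.primeFactors → (p : ℝ) ≤ (A : ℝ) ^ η) := ⟨_, rfl⟩
  obtain ⟨X2, hX2⟩ : ∃ X2 : Finset ℕ, X2 = (Icc 1 A).filter (fun a : ℕ =>
    K1 * Real.log (Real.log A) < (a.primeFactors.card : ℝ)) := ⟨_, rfl⟩
  obtain ⟨X3, hX3⟩ : ∃ X3 : Finset (ℕ × ℕ), X3 = ((Icc 1 A) ×ˢ (Icc 1 A)).filter (fun x : ℕ × ℕ =>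
      Squarefree x.1 ∧ Squarefree x.2 ∧
      ∀ j < J, ¬ ((sm ⌊Real.exp (2 * (2 * C1 + 1) * g1 j)⌋₊ x.1 : ℝ) ≤ Real.exp (g1 j) ∧
        (sm ⌊Real.exp (2 * (2 * C1 + 1) * g1 j)⌋₊ x.2 : ℝ) ≤ Real.exp (g1 j))) := ⟨_, rfl⟩
  obtain ⟨X4, hX4⟩ : ∃ X4 : ℕ → ℕ → Finset (ℕ × ℕ), X4 = fun (j t0 : ℕ) => ((Icc 1 A) ×ˢ (Icc 1 A)).filter
      (fun x : ℕ × ℕ => Squarefree x.1 ∧ Squarefree x.2 ∧
      x.1.Coprime x.2 ∧ x.1.primeFactors.card ≤ k1 ∧ x.2.primeFactors.card ≤ k1 ∧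
      sm (y j) x.1 * sm (y j) x.2 ≤ S j ∧
      (∃ p ∈ x.1.primeFactors, (∀ q ∈ x.1.primeFactors, q ≤ p) ∧ y j < p ∧ (x.1 / p) * X0 j ≤ A) ∧
      (∃ p ∈ x.2.primeFactors, (∀ q ∈ x.2.primeFactors, q ≤ p) ∧ y j < p ∧ (x.2 / p) * X0 j ≤ A) ∧
      ¬ ∃ (ps : ℕ) (t : ℤ), ps.Prime ∧ ¬ ps ∣ N ∧ (N : ℤ) ∣ t - t0 ∧ T0 ≤ t ∧
        Cond2 P1 P2 P3 N x.1 x.2 ps t) := ⟨_, rfl⟩
  obtain ⟨Q, hQ⟩ : ∃ Q : ℝ, Q = (16 * (Real.exp (2 * K * l) *
      Real.exp (-(1 / 20) * l ^ 2 + (4 * K + 2) * l)) * (1 + Real.exp l) ^ 2) * (A : ℝ) ^ 2 +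
      (600 * (Real.exp (2 * K * l) * Real.exp (-((2 * K + 2) * l))) * (1 + Real.exp l)) *
        (A : ℝ) ^ 2 := ⟨_, rfl⟩
  have hX4b : ∀ j ∈ range J, ∀ t0 ∈ range N, ((X4 j t0).card : ℝ) ≤ Q := by
    intro j hj t0 ht0
    have hjJ : j < J := Finset.mem_range.1 hj
    obtain ⟨f1, f2, f3, f4, f5, f6, f7, f8, f9, f10, f11, f12, f13, f14, f15, f16, f17, f18, f19,
      f20, f21⟩ :=
      hn (g j) (hgl j) (hgu j hjJ) (U j) (y j) E k0 T (S j) (X0 j) (V j) (δ j)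
      (by rw [hU]) (by rw [hy]) hE hk0 hT (by rw [hS]) (by rw [hV]) (by rw [hδ]) (by rw [hX0])
    have hU1 : 1 ≤ U j := f21
    have hU1r : (1 : ℝ) ≤ U j := by exact_mod_cast f21
    have hT1r : (1 : ℝ) ≤ T := by exact_mod_cast f10
    have hEpos : (0 : ℝ) < E := by
      have : (2 : ℝ) ≤ E := by exact_mod_cast f3
      linarith
    have hsc := scale2 (T0 := T0) (P1 := P1) (P2 := P2) (P3 := P3) (N := N) (t0 := t0) (U := U j)
      (y := y j) (E := E) (k1 := k1)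
      (k0 := k0) (T := T) (X0 := X0 j) (S0 := S j) (A := A) (C1 := C1) (V := V j) (δ := δ j)
      (δ2 := Real.exp (-((2 * K + 2) * l)))
      (L1 := CLL * (T : ℝ) ^ 4 * ((U j : ℝ) ^ 2 / E + (U j : ℝ) ^ (39 / 20 : ℝ)))
      (L2 := (U j : ℝ) ^ CLL') (by have := Int.self_le_toNat T0; omega) hcount hcount2 (by omega)
      f14 hN h2N hk f4 f5 f6 f3 f7 f17
      (Real.exp_pos _).le ?_ ?_ ?_ ?_ ?_ ?_ hres f9 f10 f12 f13
    · rw [hX4]
      refine hsc.trans ?_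
      rw [hlogA, hQ]
      have g1' : 16 * 4 ^ k0 * δ j * (A : ℝ) ^ 2 * (1 + Real.exp l) ^ 2 ≤
          (16 * (Real.exp (2 * K * l) *
      Real.exp (-(1 / 20) * l ^ 2 + (4 * K + 2) * l)) * (1 + Real.exp l) ^ 2) * (A : ℝ) ^ 2 := by
        have h1 : (4 : ℝ) ^ k0 * δ j ≤ Real.exp (2 * K * l) *
            Real.exp (-(1 / 20) * l ^ 2 + (4 * K + 2) * l) :=
          mul_le_mul f19 f18 f17 (Real.exp_pos _).le
        calc 16 * 4 ^ k0 * δ j * (A : ℝ) ^ 2 * (1 + Real.exp l) ^ 2 =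
            (16 * ((4 : ℝ) ^ k0 * δ j) * (1 + Real.exp l) ^ 2) * (A : ℝ) ^ 2 := by ring
          _ ≤ _ := by gcongr
      have g2' : 600 * 4 ^ k0 * Real.exp (-((2 * K + 2) * l)) * (A : ℝ) ^ 2 * (1 + Real.exp l) ≤
          (600 * (Real.exp (2 * K * l) * Real.exp (-((2 * K + 2) * l))) * (1 + Real.exp l)) *
        (A : ℝ) ^ 2 := by
        calc 600 * 4 ^ k0 * Real.exp (-((2 * K + 2) * l)) * (A : ℝ) ^ 2 * (1 + Real.exp l) =
            (600 * ((4 : ℝ) ^ k0 * Real.exp (-((2 * K + 2) * l))) * (1 + Real.exp l)) *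
              (A : ℝ) ^ 2 := by ring
          _ ≤ _ := by gcongr
      linarith
    · intro i M t1 h1 h2 h3 G hGs B hB
      apply hb i (U j) (by cases i <;> omega) M t1 h1 h2 h3 G hGs B
      exact (Nat.pow_le_pow_right hU1 (hC1b i)).trans hB
    · intro M t1 h1 h2 h3 I c h4 h5 h6 X
      have h7 := hL (U j) (by omega) E (by omega) M t1 h1 h2 h3 I c T f11 h4 h5 h6 X
      refine h7.trans ?_
      have h8 : CL * X * (T : ℝ) ^ 3 * ((U j : ℝ) ^ 2 / E + U j) ≤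
          CLL * X * (T : ℝ) ^ 4 * ((U j : ℝ) ^ 2 / E + (U j : ℝ) ^ (39 / 20 : ℝ)) := by
        have h9 : (T : ℝ) ^ 3 ≤ (T : ℝ) ^ 4 := pow_le_pow_right₀ hT1r (by norm_num)
        have h10 : CL ≤ CLL := by linarith
        have h11 : 0 ≤ CLL := by linarith
        gcongr
      have h12 : (U j : ℝ) ^ CL' ≤ (U j : ℝ) ^ CLL' := pow_le_pow_right₀ hU1r (by omega)
      calc CL * X * (T : ℝ) ^ 3 * ((U j : ℝ) ^ 2 / E + U j) + (U j : ℝ) ^ CL' ≤
          CLL * X * (T : ℝ) ^ 4 * ((U j : ℝ) ^ 2 / E + (U j : ℝ) ^ (39 / 20 : ℝ)) +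
            (U j : ℝ) ^ CLL' := add_le_add h8 h12
        _ = _ := by ring
    · intro M t1 h1 h2 h3 I c h4 h5 h6 X
      have h7 := hM3 (U j) (by omega) E (by omega) M t1 h1 h2 h3 I c T f11 h4 h5 h6 X
      refine h7.trans ?_
      have h8 : CM * X * (T : ℝ) ^ 4 * ((U j : ℝ) ^ 2 / E + (U j : ℝ) ^ (39 / 20 : ℝ)) ≤
          CLL * X * (T : ℝ) ^ 4 * ((U j : ℝ) ^ 2 / E + (U j : ℝ) ^ (39 / 20 : ℝ)) := by
        have h10 : CM ≤ CLL := by linarith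
        gcongr
      have h12 : (U j : ℝ) ^ CM' ≤ (U j : ℝ) ^ CLL' := pow_le_pow_right₀ hU1r (by omega)
      calc CM * X * (T : ℝ) ^ 4 * ((U j : ℝ) ^ 2 / E + (U j : ℝ) ^ (39 / 20 : ℝ)) +
            (U j : ℝ) ^ CM' ≤
          CLL * X * (T : ℝ) ^ 4 * ((U j : ℝ) ^ 2 / E + (U j : ℝ) ^ (39 / 20 : ℝ)) +
            (U j : ℝ) ^ CLL' := add_le_add h8 h12
        _ = _ := by ring
    · intro M t1 u h1 h2 h3 h4 h5
      have h6 := hs (U j) (by omega) M t1 u h1 h2 h3 h4 h5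
      refine ⟨h6.1, h6.2.1.trans ?_, ?_, ?_⟩
      · have h7 : (U j) ^ Cs ≤ (U j) ^ C1 := Nat.pow_le_pow_right hU1 hC1s
        exact_mod_cast h7
      · intro i
        have h8 := hs1 i (U j) (by cases i <;> omega) M t1 u h1 h2 h3 h4 h5
        refine h8.2.1.trans ?_
        have h7 : (U j) ^ (Cs1 i) ≤ (U j) ^ C1 := Nat.pow_le_pow_right hU1 (hC1s1 i)
        exact_mod_cast h7
      · rcases hlc with h7 | h7
        · left
          have h8 := (hs1 false (U j) (by omega) M t1 u h1 h2 h3 h4 h5).2.2 (by rw [hFf]; exact h7)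
          rw [hFf] at h8
          simpa only [val, eval_mul] using h8
        · right
          have h8 := (hs1 true (U j) (by omega) M t1 u h1 h2 h3 h4 h5).2.2 (by rw [hFt]; exact h7)
          rw [hFt] at h8
          simpa only [val, eval_mul] using h8
    · intro M t1 Q hQ
      rw [hV]
      apply hUv (U j) (by omega) E f3 f8 M t1 Q
      intro q hq
      obtain ⟨h1, h2, h3, h4⟩ := hQ q hq
      have := hbig q h1 h4
      exact ⟨h1, by omega, h2, h3⟩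
    · intro p hp hpN i τ hτ
      have := hbig p hp hpN
      exact he i p hp (by cases i <;> omega) τ hτ
  have hsub : ((Icc 1 A) ×ˢ (Icc 1 A)).filter (fun x : ℕ × ℕ => Squarefree x.1 ∧ Squarefree x.2 ∧
      x.1.Coprime x.2 ∧ ∃ t0 : ℕ, ¬ ∃ (ps : ℕ) (t : ℤ), ps.Prime ∧ ¬ ps ∣ N ∧ (N : ℤ) ∣ t - t0 ∧
        T0 ≤ t ∧ Cond2 P1 P2 P3 N x.1 x.2 ps t) ⊆
      ((((X1 ×ˢ (Icc 1 A)) ∪ ((Icc 1 A) ×ˢ X1)) ∪ ((X2 ×ˢ (Icc 1 A)) ∪ ((Icc 1 A) ×ˢ X2))) ∪ X3) ∪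
        (range J).biUnion (fun j => (range N).biUnion (fun t0 => X4 j t0)) := by
    rintro ⟨a, b⟩ ha
    rw [Finset.mem_filter, Finset.mem_product] at ha
    obtain ⟨⟨haA, hbA⟩, hsqa, hsqb, hab, t0, hno⟩ := ha
    dsimp only at haA hbA hsqa hsqb hab hno
    simp only [Finset.mem_union, Finset.mem_product]
    by_contra hcon
    push Not at hcon
    obtain ⟨⟨⟨⟨hx1, hx1b⟩, hx2, hx2b⟩, hx3⟩, hx4⟩ := hcon
    have h1A : a ∉ X1 := fun h => hx1 h hbA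
    have h1B : b ∉ X1 := fun h => hx1b haA h
    have h2A : a ∉ X2 := fun h => hx2 h hbA
    have h2B : b ∉ X2 := fun h => hx2b haA h
    have ha0 : a ≠ 0 := hsqa.ne_zero
    have big : ∀ c : ℕ, c ∈ Icc 1 A → Squarefree c → c ∉ X1 → ∃ p : ℕ, p ∈ c.primeFactors ∧
        (A : ℝ) ^ η < (p : ℝ) := by
      intro c hc hsc hx
      by_contra h
      push Not at h
      rw [hX1] at hx
      exact hx (Finset.mem_filter.2 ⟨hc, hsc, h⟩)
    have few : ∀ c : ℕ, c ∈ Icc 1 A → c ∉ X2 → (c.primeFactors.card : ℝ) ≤ K1 * l := by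
      intro c hc hx
      by_contra h
      rw [hX2] at hx
      exact hx (Finset.mem_filter.2 ⟨hc, not_le.1 h⟩)
    have hx3' : ∃ j, j < J ∧ (sm ⌊Real.exp (2 * (2 * C1 + 1) * g1 j)⌋₊ a : ℝ) ≤ Real.exp (g1 j) ∧
        (sm ⌊Real.exp (2 * (2 * C1 + 1) * g1 j)⌋₊ b : ℝ) ≤ Real.exp (g1 j) := by
      by_contra h
      rw [hX3] at hx3
      apply hx3
      rw [Finset.mem_filter, Finset.mem_product]
      refine ⟨⟨haA, hbA⟩, hsqa, hsqb, fun j hj h2 => h ⟨j, hj, h2⟩⟩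
    obtain ⟨j, hjJ, hja, hjb⟩ := hx3'
    apply hx4
    rw [Finset.mem_biUnion]
    refine ⟨j, Finset.mem_range.2 hjJ, ?_⟩
    rw [Finset.mem_biUnion]
    refine ⟨t0 % N, Finset.mem_range.2 (Nat.mod_lt _ (by omega)), ?_⟩
    rw [hX4, Finset.mem_filter, Finset.mem_product]
    obtain ⟨f1, f2, f3, f4, f5, f6, f7, f8, f9, f10, f11, f12, f13, f14, f15, f16, f17, f18, f19,
      f20, f21⟩ :=
      hn (g j) (hgl j) (hgu j hjJ) (U j) (y j) E k0 T (S j) (X0 j) (V j) (δ j)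
      (by rw [hU]) (by rw [hy]) hE hk0 hT (by rw [hS]) (by rw [hV]) (by rw [hδ]) (by rw [hX0])
    have hAη : (A : ℝ) ^ η = Real.exp (η * Real.exp l) := by
      rw [Real.rpow_def_of_pos hApos, hlogA, mul_comm]
    have hyj : y j = ⌊Real.exp (2 * (2 * C1 + 1) * g1 j)⌋₊ := by
      rw [hy]; dsimp only; rw [hgj]; congr 2; ring
    have hlast : ∀ c : ℕ, c ∈ Icc 1 A → Squarefree c → c ∉ X1 →
        ∃ p ∈ c.primeFactors, (∀ q ∈ c.primeFactors, q ≤ p) ∧ y j < p ∧ (c / p) * X0 j ≤ A := by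
      intro c hc hsc hx
      obtain ⟨p1, hp1, hp1A⟩ := big c hc hsc hx
      obtain ⟨p, hp, hpmax⟩ := Finset.exists_max_image c.primeFactors id ⟨p1, hp1⟩
      have hpA : (A : ℝ) ^ η < (p : ℝ) := hp1A.trans_le (by exact_mod_cast hpmax p1 hp1)
      refine ⟨p, hp, fun q hq => hpmax q hq, ?_, ?_⟩
      · have h1 : (y j : ℝ) < (p : ℝ) := by
          refine f16.trans_lt (lt_trans ?_ hpA)
          rw [hAη]
          apply Real.exp_lt_exp.2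
          have h2 : 1 ≤ l ^ 2 := one_le_pow₀ hl1
          have h3 : ((2 * (C1 : ℝ) + 1) * Λ + 1) * l ^ 2 = (2 * C1 + 1) * Λ * l ^ 2 + l ^ 2 := by ring
          rw [h3] at d3
          linarith
        exact_mod_cast h1
      · have hpp : p.Prime := Nat.prime_of_mem_primeFactors hp
        have hp0 : (0 : ℝ) < p := by exact_mod_cast hpp.pos
        have h1 : ((c / p * X0 j : ℕ) : ℝ) ≤ A := by
          push_cast
          have h2 : ((c / p : ℕ) : ℝ) ≤ A / p := by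
            refine Nat.cast_div_le.trans ?_
            apply div_le_div_of_nonneg_right _ hp0.le
            exact_mod_cast (Finset.mem_Icc.1 hc).2
          have h3 : (X0 j : ℝ) ≤ p := by
            refine f15.trans (le_trans ?_ hpA.le)
            rw [hAη]
            have h4 : (3 : ℝ) ≤ Real.exp (2 * l ^ 2) := by
              have h5 : 1 ≤ l ^ 2 := one_le_pow₀ hl1
              have h6 := Real.add_one_le_exp (2 * l ^ 2)
              linarith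
            calc 3 * Real.exp ((2 * K + 2 + 2 * CLL' * Λ) * l ^ 2) ≤
                Real.exp (2 * l ^ 2) * Real.exp ((2 * K + 2 + 2 * CLL' * Λ) * l ^ 2) := by gcongr
              _ = Real.exp ((2 + (2 * K + 2 + 2 * CLL' * Λ)) * l ^ 2) := by
                  rw [← Real.exp_add]; congr 1; ring
              _ ≤ Real.exp (η * Real.exp l) := Real.exp_le_exp.2 d2
          calc ((c / p : ℕ) : ℝ) * (X0 j : ℝ) ≤ A / p * p := by gcongr
            _ = A := by field_simp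
        exact_mod_cast h1
    refine ⟨⟨haA, hbA⟩, hsqa, hsqb, hab, ?_, ?_, ?_, hlast a haA hsqa h1A, hlast b hbA hsqb h1B, ?_⟩
    · rw [hk1]; exact Nat.le_floor (few a haA h2A)
    · rw [hk1]; exact Nat.le_floor (few b hbA h2B)
    · rw [hS]
      apply Nat.le_floor
      dsimp only
      rw [hyj, hgj]
      push_cast
      have h5 : Real.exp (2 * g1 j) = Real.exp (g1 j) * Real.exp (g1 j) := by
        rw [← Real.exp_add]; congr 1; ring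
      rw [h5]
      exact mul_le_mul hja hjb (Nat.cast_nonneg _) (Real.exp_pos _).le
    · rintro ⟨ps, t, h1, h2, h3, h3', h4⟩
      apply hno
      refine ⟨ps, t, h1, h2, ?_, h3', h4⟩
      have h5 : (N : ℤ) ∣ ((t0 % N : ℕ) : ℤ) - (t0 : ℤ) :=
        Nat.modEq_iff_dvd.1 (Nat.mod_modEq t0 N).symm
      have h6 : t - (t0 : ℤ) = (t - ((t0 % N : ℕ) : ℤ)) + (((t0 % N : ℕ) : ℤ) - (t0 : ℤ)) := by ring
      rw [h6]
      exact dvd_add h3 h5
  have hcard := Finset.card_le_card hsub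
  have hu : ∀ (s t : Finset (ℕ × ℕ)), (s ∪ t).card ≤ s.card + t.card := fun s t =>
    Finset.card_union_le s t
  have hc4 : ((((range J).biUnion (fun j => (range N).biUnion (fun t0 => X4 j t0))).card : ℕ) : ℝ) ≤
      J * (N * Q) := by
    have h1 : ((((range J).biUnion (fun j => (range N).biUnion (fun t0 => X4 j t0))).card : ℕ) : ℝ) ≤
        ∑ j ∈ range J, ∑ t0 ∈ range N, ((X4 j t0).card : ℝ) := by
      have h2 := Finset.card_biUnion_le (s := range J)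
        (t := fun j => (range N).biUnion (fun t0 => X4 j t0))
      have h3 : ∑ j ∈ range J, ((range N).biUnion (fun t0 => X4 j t0)).card ≤
          ∑ j ∈ range J, ∑ t0 ∈ range N, (X4 j t0).card :=
        Finset.sum_le_sum fun j _ => Finset.card_biUnion_le
      exact_mod_cast h2.trans h3
    refine h1.trans ?_
    calc ∑ j ∈ range J, ∑ t0 ∈ range N, ((X4 j t0).card : ℝ) ≤ ∑ j ∈ range J, ∑ t0 ∈ range N, Q :=
          Finset.sum_le_sum fun j hj => Finset.sum_le_sum fun t0 ht0 => hX4b j hj t0 ht0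
      _ = J * (N * Q) := by simp
  have hJQ : (J : ℝ) * (N * Q) ≤ ε / 4 * (A : ℝ) ^ 2 := by
    have h1 : (J : ℝ) * (N * Q) = ((J : ℝ) * N * (16 * (Real.exp (2 * K * l) *
      Real.exp (-(1 / 20) * l ^ 2 + (4 * K + 2) * l)) * (1 + Real.exp l) ^ 2)) * (A : ℝ) ^ 2 +
      ((J : ℝ) * N * (600 * (Real.exp (2 * K * l) * Real.exp (-((2 * K + 2) * l))) *
        (1 + Real.exp l))) * (A : ℝ) ^ 2 := by rw [hQ]; ring
    rw [h1]
    have hA2 : (0 : ℝ) ≤ (A : ℝ) ^ 2 := by positivity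
    have h2 := mul_le_mul_of_nonneg_right d4 hA2
    have h3 := mul_le_mul_of_nonneg_right d5 hA2
    linarith
  have hX1c : (X1.card : ℝ) ≤ ε / 16 * A := by rw [hX1]; exact hsm1
  have hX2c : (X2.card : ℝ) ≤ ε / 16 * A := by rw [hX2]; exact hom1
  have hX3c : (X3.card : ℝ) ≤ ε / 4 * (A : ℝ) ^ 2 := by rw [hX3]; exact hgs1
  have e1 := card_left A X1 _ hX1c
  have e2 := card_right A X1 _ hX1c
  have e3 := card_left A X2 _ hX2c
  have e4 := card_right A X2 _ hX2c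
  have hfin := (Nat.cast_le (α := ℝ)).2 (hcard.trans ((hu _ _).trans (Nat.add_le_add_right ((hu _ _).trans
    (Nat.add_le_add_right ((hu _ _).trans (Nat.add_le_add (hu _ _) (hu _ _))) _)) _)))
  push_cast at hfin
  have hεA : 0 ≤ ε * (A : ℝ) ^ 2 := by positivity
  have hfin2 := hfin.trans (add_le_add (add_le_add (add_le_add (add_le_add
    e1 e2) (add_le_add e3 e4)) hX3c) (hc4.trans hJQ))
  refine le_trans ?_ (hfin2.trans ?_)
  · exact_mod_cast le_refl _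
  · linarith

end Pool.Agent.W313.HB
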