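import Mathlib
import Pool.Agent.W313.HB.AnaC
import Pool.Agent.W313.HB.Stm3

set_option autoImplicit false
set_option linter.all false
set_option maxHeartbeats 1000000

namespace Pool.Agent.W313.HB

open Finset Polynomial

open Classical in
/-- the theorem at a fixed scale -/
theorem scale1w {P1 P2 : ℤ[X]} {T0 : ℤ} {N t0 U y E k0 T X0 S A C1 : ℕ} {V δ δ2 L1 L2 : ℝ}
    (hT0 : T0 ≤ (U : ℤ)) (hS : S_COUNT) (hS2 : S_COUNT2) (hA : 2 ≤ A) (hX0 : 1 ≤ X0)
    (hN : 1 ≤ N) (h2N : 2 ∣ N) (hNS : N * S ≤ U) (hyN : N ≤ y) (hyU : U ^ C1 ≤ y) (hE2 : 2 ≤ E)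
    (hV : 0 < V) (hδ0 : 0 ≤ δ) (hδ20 : 0 ≤ δ2)
    (hbadc : ∀ M t1 : ℕ, 1 ≤ M → M ≤ U → t1 ≤ U → ∀ G : Finset ℕ, G ⊆ Ioc U (2 * U) → ∀ B : ℕ,
      U ^ C1 ≤ B →
      (((Ioc B (2 * B)).filter (fun p : ℕ => p.Prime ∧
        (G.card : ℝ) / 2 < |((∑ u ∈ G, jacobiSym (val (-(P1 * P2)) t1 M u) p : ℤ) : ℝ)|)).card : ℝ) *
        (G.card : ℝ) ^ 2 ≤ B * (U : ℝ) ^ (39 / 20 : ℝ))
    (hlarge : ∀ M t1 : ℕ, 1 ≤ M → M ≤ U → t1 ≤ U →
      ∀ (I : Finset (ℕ × ℕ)) (c : ℕ × ℕ → ℝ), (∀ x ∈ I, |c x| ≤ T) →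
      (∀ x ∈ I, x.1 ∈ Ioc U (2 * U) ∧ Odd x.2 ∧ Squarefree x.2 ∧ 1 < x.2 ∧
        (x.2 : ℤ) ∣ val (P1 * P2) t1 M x.1 ∧ ∀ q : ℕ, q.Prime → q ∣ x.2 → E < q ∧ ¬ q ∣ M) →
      (∀ u : ℕ, (I.filter (fun x => x.1 = u)).card ≤ T) →
      ∀ X : ℕ, ∑ n ∈ (Icc 1 X).filter (fun n => Odd n),
        (∑ x ∈ I, c x * (jacobiSym (n : ℤ) x.2 : ℝ)) ^ 2 ≤ L1 * X + L2)
    (hsize : ∀ M t1 u : ℕ, 1 ≤ M → M ≤ U → t1 ≤ U → U < u → u ≤ 2 * U →
      val (P1 * P2) t1 M u ≠ 0 ∧ |val (P1 * P2) t1 M u| ≤ (U : ℤ) ^ C1 ∧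
        (0 < val P1 t1 M u ∨ 0 < val P2 t1 M u))
    (hsieve : ∀ (M t1 : ℕ) (Q : Finset ℕ), (∀ q ∈ Q, q.Prime ∧ q ≤ E ∧ ¬ q ∣ M ∧ ¬ q ∣ N) →
      V ≤ (((Ioc U (2 * U)).filter
        (fun u : ℕ => ∀ q ∈ Q, ¬ (q : ℤ) ∣ val (P1 * P2) t1 M u)).card : ℝ))
    (hexist : ∀ p : ℕ, p.Prime → ¬ p ∣ N → ∃ x : ℕ, x < p ∧
      jacobiSym ((-(P1 * P2)).eval (x : ℤ)) p = 1 ∧ ¬ (p : ℤ) ∣ (P1 * P2).eval (x : ℤ))
    (hres : ∀ q : ℕ, q.Prime → ¬ q ∣ N → ∀ x : ℤ, (q : ℤ) ∣ P1.eval x → ¬ (q : ℤ) ∣ P2.eval x)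
    (hδ : (U : ℝ) ^ (39 / 20 : ℝ) ≤ δ * (V / 4 ^ k0) ^ 2)
    (hT1 : 1 ≤ T) (hT : ∀ w : ℕ, E ^ w ≤ U ^ C1 → 2 ^ w ≤ T)
    (hδ2 : ∀ X : ℕ, X0 ≤ X → L1 * X + L2 ≤ δ2 * X * (V / 4 ^ k0) ^ 2) :
    (((Icc 1 A).filter (fun a : ℕ => Squarefree a ∧ a.primeFactors.card ≤ k0 ∧ sm y a ≤ S ∧
      (∃ p ∈ a.primeFactors, (∀ q ∈ a.primeFactors, q ≤ p) ∧ y < p ∧ (a / p) * X0 ≤ A) ∧
      ¬ ∃ (ps : ℕ) (t : ℤ), ps.Prime ∧ ¬ ps ∣ N ∧ (N : ℤ) ∣ t - t0 ∧ T0 ≤ t ∧
        Cond1 P1 P2 N a ps t)).card : ℝ) ≤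
      4 * δ * A * (1 + Real.log A) ^ 2 + δ2 * A * (1 + Real.log A) := by
  set P := P1 * P2 with hP
  set φ : ℕ → ℤ[X] := fun _ => -P with hφ
  set σ : ℕ → ℤ := fun _ => 1 with hσ
  set G : ℕ → Finset ℕ := GS P N t0 U y E φ σ with hG
  set t1 : ℕ → ℕ := bp P N t0 y φ σ with ht1
  set M : ℕ → ℕ := md N y with hM
  have hGsub : ∀ b, G b ⊆ Ioc U (2 * U) := fun b => GS_sub _ _ _ _ _ _ _ _ _
  have hM1 : ∀ b, 1 ≤ M b := fun b => md_pos hN
  have hMU : ∀ b, sN N y b ≤ S → M b ≤ U := fun b hb => (Nat.mul_le_mul_left N hb).trans hNS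
  have htU : ∀ b, sN N y b ≤ S → t1 b ≤ U := fun b hb => (bp_le _ _ _ _ _ _ _).trans (hMU b hb)
  have hVk : 0 < V / 4 ^ k0 := div_pos hV (by positivity)
  -- the bad primes
  obtain ⟨bad, hbad⟩ : ∃ bad : ℕ → ℕ → Prop, ∀ b p, bad b p ↔ (sN N y b ≤ S ∧
    V / 4 ^ k0 ≤ ((G b).card : ℝ) ∧
    ((G b).card : ℝ) / 2 < |((∑ u ∈ G b, jacobiSym (val (-P) (t1 b) (M b) u) p : ℤ) : ℝ)|) :=
    ⟨_, fun _ _ => Iff.rfl⟩
  have hcount : ∀ b B : ℕ, y ≤ B →
      (((Ioc B (2 * B)).filter (fun p => p.Prime ∧ bad b p)).card : ℝ) ≤ δ * B := by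
    intro b B hB
    by_cases hb : sN N y b ≤ S ∧ V / 4 ^ k0 ≤ ((G b).card : ℝ)
    · have h1 := hbadc (M b) (t1 b) (hM1 b) (hMU b hb.1) (htU b hb.1) (G b) (hGsub b) B
        (hyU.trans hB)
      have h2 : (((Ioc B (2 * B)).filter (fun p => p.Prime ∧ bad b p)).card : ℝ) ≤
          (((Ioc B (2 * B)).filter (fun p : ℕ => p.Prime ∧
          ((G b).card : ℝ) / 2 <
            |((∑ u ∈ G b, jacobiSym (val (-P) (t1 b) (M b) u) p : ℤ) : ℝ)|)).card : ℝ) := by
        apply Nat.cast_le.2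
        apply Finset.card_le_card
        intro p hp
        rw [Finset.mem_filter] at hp ⊢
        exact ⟨hp.1, hp.2.1, ((hbad b p).1 hp.2.2).2.2⟩
      have h3 : (0 : ℝ) < ((G b).card : ℝ) ^ 2 := by
        have := hVk.trans_le hb.2; positivity
      have h4 : (V / 4 ^ k0) ^ 2 ≤ ((G b).card : ℝ) ^ 2 := pow_le_pow_left₀ hVk.le hb.2 2
      have h5 : (B : ℝ) * (U : ℝ) ^ (39 / 20 : ℝ) ≤ δ * B * ((G b).card : ℝ) ^ 2 := by
        calc (B : ℝ) * (U : ℝ) ^ (39 / 20 : ℝ) ≤ B * (δ * (V / 4 ^ k0) ^ 2) :=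
              mul_le_mul_of_nonneg_left hδ (Nat.cast_nonneg _)
          _ ≤ B * (δ * ((G b).card : ℝ) ^ 2) := by gcongr
          _ = δ * B * ((G b).card : ℝ) ^ 2 := by ring
      have h6 := (mul_le_mul_of_nonneg_right h2 h3.le).trans (h1.trans h5)
      exact le_of_mul_le_mul_right h6 h3
    · have : (Ioc B (2 * B)).filter (fun p => p.Prime ∧ bad b p) = ∅ := by
        apply Finset.filter_false_of_mem
        rintro p - ⟨-, h0⟩
        obtain ⟨h1, h2, -⟩ := (hbad b p).1 h0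
        exact hb ⟨h1, h2⟩
      rw [this]
      simp only [Finset.card_empty, Nat.cast_zero]
      positivity
  have hC := hS bad δ y A hδ0 (hN.trans hyN) hA hcount
  -- the second kind of bad primes
  set v : ℕ → ℕ → ℤ := fun b u => val P (t1 b) (M b) u with hv
  set c : ℕ → ℕ × ℕ → ℝ := fun b x => (jacobiSym (b : ℤ) x.2 : ℝ) *
    ∏ q ∈ x.2.primeFactors, gw P1 P2 (t1 b) (M b) x.1 q with hc
  obtain ⟨bad2, hbad2⟩ : ∃ bad2 : ℕ → ℕ → Prop, ∀ b p, bad2 b p ↔ (Odd p ∧ sN N y b ≤ S ∧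
    V / 4 ^ k0 ≤ ((G b).card : ℝ) ∧
    ((G b).card : ℝ) ≤ |∑ x ∈ II (G b) (M b) (v b), c b x * (jacobiSym (p : ℤ) x.2 : ℝ)|) :=
    ⟨_, fun _ _ => Iff.rfl⟩
  have hvne : ∀ b, sN N y b ≤ S → ∀ u ∈ G b, v b u ≠ 0 ∧ |v b u| ≤ (U : ℤ) ^ C1 := by
    intro b hb u hu
    have h1 := Finset.mem_Ioc.1 (hGsub b hu)
    have h2 := hsize (M b) (t1 b) u (hM1 b) (hMU b hb) (htU b hb) h1.1 h1.2
    exact ⟨h2.1, h2.2.1⟩
  have hDE : ∀ b, sN N y b ≤ S → ∀ u ∈ G b, ∀ q ∈ Dm (M b) (v b u), E < q := by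
    intro b hb u hu q hq
    rw [mem_Dm (hvne b hb u hu).1] at hq
    by_contra hlt
    have h1 : u ∈ GS P N t0 U y E φ σ b := hu
    unfold GS at h1
    rw [Finset.mem_filter] at h1
    exact h1.2.1 q hq.1 (not_lt.1 hlt) hq.2.2 hq.2.1
  have hcount2 : ∀ b X : ℕ, X0 ≤ X →
      (((Icc 1 X).filter (fun p => p.Prime ∧ bad2 b p)).card : ℝ) ≤ δ2 * X := by
    intro b X hX
    by_cases hb : sN N y b ≤ S ∧ V / 4 ^ k0 ≤ ((G b).card : ℝ)
    · have h1 := hlarge (M b) (t1 b) (hM1 b) (hMU b hb.1) (htU b hb.1) (II (G b) (M b) (v b)) (c b)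
        (by
          intro x hx
          have h2 : |c b x| ≤ 1 := by
            simp only [hc]
            rw [abs_mul]
            exact mul_le_one₀ (abs_jac_le _ _) (abs_nonneg _)
              (abs_prod_le_one fun q _ => abs_gw_le _ _ _ _ _ _)
          exact h2.trans (by exact_mod_cast hT1))
        (by
          intro x hx
          rw [mem_II] at hx
          obtain ⟨h2, h3, h4⟩ := hx
          have h5 := hvne b hb.1 x.1 h2
          have h6 : Squarefree x.2 := (mm_sq (M b) (v b x.1)).squarefree_of_dvd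
            (Nat.dvd_of_mem_divisors h3)
          have h7 : ∀ q : ℕ, q.Prime → q ∣ x.2 → E < q ∧ ¬ q ∣ M b := by
            intro q hq hqx
            have h8 : q ∈ Dm (M b) (v b x.1) := by
              rw [← mm_pf]
              exact Nat.mem_primeFactors.2 ⟨hq, hqx.trans (Nat.dvd_of_mem_divisors h3),
                (mm_sq _ _).ne_zero⟩
            exact ⟨hDE b hb.1 x.1 h2 q h8, ((mem_Dm h5.1).1 h8).2.2⟩
          refine ⟨hGsub b h2, ?_, h6, h4, ?_, h7⟩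
          · rw [← Nat.not_even_iff_odd]
            intro h8
            have := (h7 2 Nat.prime_two h8.two_dvd).1
            omega
          · exact (Int.natCast_dvd_natCast.2 ((Nat.dvd_of_mem_divisors h3).trans
              (mm_dvd (M b) h5.1))).trans (Int.natAbs_dvd.2 (dvd_refl _)))
        (by
          intro u
          by_cases hu : u ∈ G b
          · have h2 : ((II (G b) (M b) (v b)).filter (fun x => x.1 = u)).card ≤
                (mm (M b) (v b u)).divisors.card := by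
              apply Finset.card_le_card_of_injOn (fun x => x.2)
              · intro x hx
                rw [Finset.mem_coe, Finset.mem_filter, mem_II] at hx
                rw [Finset.mem_coe, ← hx.2]
                exact hx.1.2.1
              · intro x hx x' hx' h
                rw [Finset.mem_coe, Finset.mem_filter] at hx hx'
                exact Prod.ext (hx.2.trans hx'.2.symm) h
            exact h2.trans (card_div_le (hvne b hb.1 u hu).1 (hvne b hb.1 u hu).2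
              (hDE b hb.1 u hu) hT)
          · have h2 : (II (G b) (M b) (v b)).filter (fun x => x.1 = u) = ∅ := by
              apply Finset.filter_false_of_mem
              rintro x hx rfl
              exact hu (mem_II.1 hx).1
            rw [h2]; simp)
        X
      have h3 : (0 : ℝ) < ((G b).card : ℝ) ^ 2 := by
        have := hVk.trans_le hb.2; positivity
      have h4 : (V / 4 ^ k0) ^ 2 ≤ ((G b).card : ℝ) ^ 2 := pow_le_pow_left₀ hVk.le hb.2 2
      have h5 : (((Icc 1 X).filter (fun p => p.Prime ∧ bad2 b p)).card : ℝ) *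
          ((G b).card : ℝ) ^ 2 ≤ ∑ n ∈ (Icc 1 X).filter (fun n => Odd n),
            (∑ x ∈ II (G b) (M b) (v b), c b x * (jacobiSym (n : ℤ) x.2 : ℝ)) ^ 2 := by
        rw [← nsmul_eq_mul, ← Finset.sum_const]
        refine le_trans ?_ (Finset.sum_le_sum_of_subset_of_nonneg
          (s := (Icc 1 X).filter (fun p => p.Prime ∧ bad2 b p)) ?_ (fun _ _ _ => sq_nonneg _))
        · apply Finset.sum_le_sum
          intro p hp
          rw [Finset.mem_filter] at hp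
          rw [← sq_abs (∑ x ∈ II (G b) (M b) (v b), c b x * (jacobiSym (p : ℤ) x.2 : ℝ))]
          exact pow_le_pow_left₀ (Nat.cast_nonneg _) ((hbad2 b p).1 hp.2.2).2.2.2 2
        · intro p hp
          rw [Finset.mem_filter] at hp ⊢
          exact ⟨hp.1, ((hbad2 b p).1 hp.2.2).1⟩
      have h6 : δ2 * X * (V / 4 ^ k0) ^ 2 ≤ δ2 * X * ((G b).card : ℝ) ^ 2 := by gcongr
      exact le_of_mul_le_mul_right (h5.trans (h1.trans ((hδ2 X hX).trans h6))) h3
    · have : (Icc 1 X).filter (fun p => p.Prime ∧ bad2 b p) = ∅ := by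
        apply Finset.filter_false_of_mem
        rintro p - ⟨-, h0⟩
        obtain ⟨-, h1, h2, -⟩ := (hbad2 b p).1 h0
        exact hb ⟨h1, h2⟩
      rw [this]
      simp only [Finset.card_empty, Nat.cast_zero]
      positivity
  have hC2 := hS2 bad2 δ2 X0 A hδ20 hX0 hA hcount2
  refine le_trans ?_ (add_le_add hC hC2)
  rw [← Nat.cast_add]
  apply Nat.cast_le.2
  refine (Finset.card_le_card ?_).trans (Finset.card_union_le _ _)
  intro a ha
  rw [Finset.mem_filter] at ha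
  obtain ⟨haA, hsq, hk, hsm, ⟨p, hp, hmax, hyp, hX⟩, hno⟩ := ha
  rw [Finset.mem_union, Finset.mem_filter, Finset.mem_filter]
  by_contra hcon
  rw [not_or] at hcon
  obtain ⟨hc1, hc2⟩ := hcon
  apply hno
  have ha0 : a ≠ 0 := hsq.ne_zero
  have hpp : p.Prime := Nat.prime_of_mem_primeFactors hp
  have hsegp : seg a p * p = a := by
    rw [← seg_succ_mem hp]
    exact seg_all hsq fun q hq => Nat.lt_succ_of_le (hmax q hq)
  have hap : a / p = seg a p := by
    conv_lhs => rw [← hsegp]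
    exact Nat.mul_div_cancel _ hpp.pos
  have hsS : ∀ r, y < r → sN N y (seg a r) ≤ S := by
    intro r hr
    rw [sN_seg hr]
    exact (sN_le_sm N y a).trans hsm
  have hnotbad : ∀ q ∈ a.primeFactors, y < q → ¬ bad (seg a q) q := by
    intro q hq hyq hb
    exact hc1 ⟨haA, hsq, q, hq, hyq, hb⟩
  have hres' : ∀ r, y < r → V / 4 ^ k0 ≤ ((G (seg a r)).card : ℝ) := by
    apply chain hV.le hk
    · refine (hsieve (M (seg a (y + 1))) (t1 (seg a (y + 1)))
        ((range (E + 1)).filter (fun q => q.Prime ∧ ¬ q ∣ M (seg a (y + 1)))) ?_).trans ?_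
      · intro q hq
        rw [Finset.mem_filter, Finset.mem_range] at hq
        exact ⟨hq.2.1, Nat.lt_succ_iff.1 hq.1, hq.2.2, fun h => hq.2.2 (h.trans (Dvd.intro _ rfl))⟩
      · apply Nat.cast_le.2
        apply Finset.card_le_card
        intro u hu
        rw [Finset.mem_filter] at hu
        unfold GS
        rw [Finset.mem_filter]
        refine ⟨hu.1, fun q hq hqE hqM => hu.2 q ?_, fun q hq hyq => ?_⟩
        · rw [Finset.mem_filter, Finset.mem_range]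
          exact ⟨Nat.lt_succ_of_le hqE, hq, hqM⟩
        · rw [seg_primeFactors, Finset.mem_filter] at hq
          omega
    · intro q hq hyq u hu
      have h1 := hvne (seg a q) (hsS q hyq) u hu
      have h2 : val (φ q) (t1 (seg a q)) (M (seg a q)) u = - v (seg a q) u := by
        simp only [hφ, hv, val, eval_neg]
      rw [h2]
      apply jac_pm (Nat.prime_of_mem_primeFactors hq) (neg_ne_zero.2 h1.1)
      rw [abs_neg]
      have h3 : ((U ^ C1 : ℕ) : ℤ) < (q : ℤ) := by exact_mod_cast hyU.trans_lt hyq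
      push_cast at h3
      exact h1.2.trans_lt h3
    · intro q _ _; exact Or.inl rfl
    · intro q hq hyq hVq
      by_contra hlt
      exact hnotbad q hq hyq ((hbad _ _).2 ⟨hsS q hyq, hVq, not_le.1 hlt⟩)
  set b := seg a p with hb
  have hGb := hres' p hyp
  have hsb : sN N y b ≤ S := hsS p hyp
  have hp2 : p ≠ 2 := by
    have : 2 ≤ N := Nat.le_of_dvd hN h2N
    omega
  have hpN : ¬ p ∣ N := fun h => by have := Nat.le_of_dvd hN h; omega
  have hnb2 : ¬ bad2 b p := by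
    intro hb2
    apply hc2
    refine ⟨haA, b, p, hsegp.symm, hpp, ?_, hb2⟩
    rw [← hap]; exact hX
  have hlt : |∑ x ∈ II (G b) (M b) (v b), c b x * (jacobiSym (p : ℤ) x.2 : ℝ)| <
      ((G b).card : ℝ) := by
    by_contra hge
    exact hnb2 ((hbad2 _ _).2 ⟨hpp.odd_of_ne_two hp2, hsb, hGb, not_lt.1 hge⟩)
  have hexp := expand (G := G b) (M := M b) (v := v b)
    (fun u q => (jacobiSym (a : ℤ) q : ℝ) * gw P1 P2 (t1 b) (M b) u q)
  have hsame : ∑ x ∈ II (G b) (M b) (v b), ∏ q ∈ x.2.primeFactors,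
      ((jacobiSym (a : ℤ) q : ℝ) * gw P1 P2 (t1 b) (M b) x.1 q) =
      ∑ x ∈ II (G b) (M b) (v b), c b x * (jacobiSym (p : ℤ) x.2 : ℝ) := by
    apply Finset.sum_congr rfl
    intro x hx
    rw [mem_II] at hx
    have h6 : Squarefree x.2 := (mm_sq (M b) (v b x.1)).squarefree_of_dvd
      (Nat.dvd_of_mem_divisors hx.2.1)
    rw [Finset.prod_mul_distrib, ← jac_prod _ h6]
    simp only [hc]
    have h7 : jacobiSym (a : ℤ) x.2 = jacobiSym (b : ℤ) x.2 * jacobiSym (p : ℤ) x.2 := by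
      rw [← jacobiSym.mul_left, ← hsegp]; push_cast; rfl
    rw [h7]; push_cast; ring
  rw [hsame] at hexp
  have hpos : 0 < ∑ u ∈ G b, ∏ q ∈ Dm (M b) (v b u),
      (1 + (jacobiSym (a : ℤ) q : ℝ) * gw P1 P2 (t1 b) (M b) u q) := by
    rw [hexp]
    have := (abs_lt.1 hlt).1
    linarith
  obtain ⟨u, hu, hune⟩ := Finset.exists_ne_zero_of_sum_ne_zero hpos.ne'
  rw [Finset.prod_ne_zero_iff] at hune
  have hu' := Finset.mem_Ioc.1 (hGsub b hu)
  have hsz := hsize (M b) (t1 b) u (hM1 b) (hMU b hsb) (htU b hsb) hu'.1 hu'.2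
  have hvb : v b u ≠ 0 := hsz.1
  have hbase : IsBase P φ σ N t0 (sN N y b) (t1 b) := by
    apply base_spec t0 hN (sN_sq N y b) (sN_cop N y b)
    intro q hq hqs
    have hqN : ¬ q ∣ N := ((mem_sN hq (seg_ne a p)).1 hqs).2.2
    exact hexist q hq hqN
  refine ⟨p, (t1 b : ℤ) + (M b : ℤ) * (u : ℤ), hpp, hpN, ?_, ?_, ?_⟩
  · have h1 := hbase.2.1
    have h2 : (N : ℤ) ∣ (M b : ℤ) := Int.natCast_dvd_natCast.2 (Dvd.intro _ rfl)
    have h3 : (t1 b : ℤ) + (M b : ℤ) * (u : ℤ) - t0 = ((t1 b : ℤ) - t0) + (M b : ℤ) * u := by ring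
    rw [h3]
    exact dvd_add h1 (h2.mul_right _)
  · have h1 : (1 : ℤ) ≤ (M b : ℤ) := by exact_mod_cast hM1 b
    have h2 : (U : ℤ) < (u : ℤ) := by exact_mod_cast hu'.1
    have h3 : (0 : ℤ) ≤ (t1 b : ℤ) := Int.natCast_nonneg _
    nlinarith
  · have hev : P1.eval ((t1 b : ℤ) + (M b : ℤ) * (u : ℤ)) *
        P2.eval ((t1 b : ℤ) + (M b : ℤ) * (u : ℤ)) = v b u := by
      simp only [hv, val, hP, eval_mul]
    have hne := hvb
    rw [← hev] at hne
    refine ⟨left_ne_zero_of_mul hne, right_ne_zero_of_mul hne, hsz.2.2, ?_, ?_, ?_⟩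
    · intro q hq hqN hqa hqp
      have hqa' : q ∈ a.primeFactors := Nat.mem_primeFactors.2 ⟨hq, hqa, ha0⟩
      have hqb : q ∈ b.primeFactors := by
        rw [hb, seg_primeFactors, Finset.mem_filter]
        exact ⟨hqa', lt_of_le_of_ne (hmax q hqa') hqp⟩
      have hqb' : q ∣ b := Nat.dvd_of_mem_primeFactors hqb
      by_cases hqy : q ≤ y
      · have hqs : q ∣ sN N y b := (mem_sN hq (seg_ne a p)).2 ⟨hqb', hqy, hqN⟩
        have h1 := (hbase.2.2 q hq hqs).1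
        have h2 : (q : ℤ) ∣ (M b : ℤ) := Int.natCast_dvd_natCast.2 (hqs.trans (Dvd.intro_left _ rfl))
        have h3 : jacobiSym ((-P).eval ((t1 b : ℤ) + (M b : ℤ) * (u : ℤ))) q =
            jacobiSym ((-P).eval (t1 b : ℤ)) q := by
          apply jac_congr
          apply eval_congr
          rw [add_sub_cancel_left]
          exact h2.mul_right _
        have h4 : (-P).eval ((t1 b : ℤ) + (M b : ℤ) * (u : ℤ)) =
            -(P1.eval ((t1 b : ℤ) + (M b : ℤ) * (u : ℤ)) *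
              P2.eval ((t1 b : ℤ) + (M b : ℤ) * (u : ℤ))) := by
          rw [eval_neg, hP, eval_mul]
        rw [← h4, h3]
        exact h1
      · have h1 : u ∈ GS P N t0 U y E φ σ b := hu
        unfold GS at h1
        rw [Finset.mem_filter] at h1
        have h2 := h1.2.2 q hqb (not_le.1 hqy)
        have h4 : val (φ q) (bp P N t0 y φ σ b) (md N y b) u =
            -(P1.eval ((t1 b : ℤ) + (M b : ℤ) * (u : ℤ)) *
              P2.eval ((t1 b : ℤ) + (M b : ℤ) * (u : ℤ))) := by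
          simp only [hφ, val, eval_neg, hP, eval_mul]
          rfl
        rw [h4] at h2
        exact h2
    · intro q hq hqN hqa hq1
      have hqM : ¬ q ∣ M b := by
        intro h
        rcases (Nat.Prime.dvd_mul hq).1 h with h1 | h1
        · exact hqN h1
        · have h2 := ((mem_sN hq (seg_ne a p)).1 h1).1
          exact hqa (h2.trans (Dvd.intro _ hsegp))
      have hqD : q ∈ Dm (M b) (v b u) := (mem_Dm hvb).2 ⟨hq, by rw [← hev]; exact hq1.mul_right _, hqM⟩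
      have h1 := hune q hqD
      have h2 : gw P1 P2 (t1 b) (M b) u q =
          (jacobiSym (P2.eval ((t1 b : ℤ) + (M b : ℤ) * (u : ℤ))) q : ℝ) := by
        unfold gw
        rw [if_pos (by unfold val; exact hq1)]
        rfl
      rw [h2] at h1
      have h3 : ¬ (q : ℤ) ∣ P2.eval ((t1 b : ℤ) + (M b : ℤ) * (u : ℤ)) := hres q hq hqN _ hq1
      have h4 : ¬ (q : ℤ) ∣ (a : ℤ) := fun h => hqa (Int.natCast_dvd_natCast.1 h)
      rw [jacobiSym.mul_left]
      rcases jac_pm' hq h3 with h5 | h5 <;> rcases jac_pm' hq h4 with h6 | h6 <;>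
        first
        | (simp only [h5, h6]; norm_num; done)
        | (exfalso; apply h1; rw [h5, h6]; norm_num; done)
    · intro q hq hqN hqa hq2
      have hqM : ¬ q ∣ M b := by
        intro h
        rcases (Nat.Prime.dvd_mul hq).1 h with h1 | h1
        · exact hqN h1
        · have h2 := ((mem_sN hq (seg_ne a p)).1 h1).1
          exact hqa (h2.trans (Dvd.intro _ hsegp))
      have hqD : q ∈ Dm (M b) (v b u) := (mem_Dm hvb).2 ⟨hq, by rw [← hev]; exact hq2.mul_left _, hqM⟩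
      have h1 := hune q hqD
      have h3 : ¬ (q : ℤ) ∣ P1.eval ((t1 b : ℤ) + (M b : ℤ) * (u : ℤ)) :=
        fun h => hres q hq hqN _ h hq2
      have h2 : gw P1 P2 (t1 b) (M b) u q =
          (jacobiSym (P1.eval ((t1 b : ℤ) + (M b : ℤ) * (u : ℤ))) q : ℝ) := by
        unfold gw
        rw [if_neg (by unfold val; exact h3)]
        rfl
      rw [h2] at h1
      have h4 : ¬ (q : ℤ) ∣ (a : ℤ) := fun h => hqa (Int.natCast_dvd_natCast.1 h)
      rw [jacobiSym.mul_left]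
      rcases jac_pm' hq h3 with h5 | h5 <;> rcases jac_pm' hq h4 with h6 | h6 <;>
        first
        | (simp only [h5, h6]; norm_num; done)
        | (exfalso; apply h1; rw [h5, h6]; norm_num; done)

end Pool.Agent.W313.HB
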