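import Mathlib
import Pool.Agent.W313.HB.AnaD
import Pool.Agent.W460.HB.WEIL
import Pool.Agent.W108.HB.Mult
import Pool.Agent.W583.HB.Per
import Pool.Agent.W766.HB.Lsv
import Pool.Agent.W356.HB.Size
import Pool.Agent.W216.HB.Sieve
import Pool.Agent.W290.HB.Common
import Pool.Agent.W74.HB.Mert
import Pool.Agent.W723.HB.Trans
import Pool.Agent.W451.HB.PROD
import Pool.Agent.W366.HB.GS
import Pool.Agent.W356.HB.Smooth
import Pool.Agent.W356.HB.Count
import Pool.Agent.W174.HB.HM
import Pool.Agent.W864.HB.Bilt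
import Pool.Agent.W351.HB.PF
import Pool.Agent.W736.HB.BADC
import Pool.Agent.W461.HB.Large
import Pool.Agent.W959.HB2.CoreA
import Pool.Agent.W334.HB.Existu
import Pool.Agent.W505.HB.Ldeg
import Pool.Agent.W460.HB.DISC
import Pool.Agent.W930.HB.Choose
import Pool.Agent.W554.HB.Type
import Pool.Agent.W928.HB.Realt
import Pool.Agent.W215.HB.Bilo
import Pool.Agent.W613.HB.T1

set_option autoImplicit false
set_option linter.all false

namespace Pool.Agent.W313.HB

theorem weil' : S_WEIL := Pool.Agent.W460.HB.weil_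
theorem exist' : S_EXIST := Pool.Agent.W460.HB.exist_ weil'
theorem mult' : S_MULT := Pool.Agent.W108.HB.mult_ weil'
theorem lsv' : S_LSV := Pool.Agent.W766.HB.Lsv.lsv_ Pool.Agent.W583.HB.per_
theorem size' : S_SIZE := Pool.Agent.W356.HB.Size.size_
theorem sieve' : S_SIEVE := Pool.Agent.W216.HB.sieve_
theorem common' : S_COMMON := Pool.Agent.W290.HB.common_ size'
theorem mert' : S_MERT := Pool.Agent.W74.HB.mert_
theorem euler' : S_EULER := Pool.Agent.W74.HB.euler_ mert'
theorem omega' : S_OMEGA := Pool.Agent.W74.HB.omega_ euler'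
theorem gs' : S_GS := Pool.Agent.W366.HB.GS.gs_ (Pool.Agent.W723.HB.trans_ mert' euler')
  (Pool.Agent.W451.HB.prod_ mert')
theorem smooth' : S_SMOOTH := Pool.Agent.W356.HB.Smooth.smooth_ mert'
theorem count' : S_COUNT := Pool.Agent.W356.HB.Count.count_
theorem count2' : S_COUNT2 := Pool.Agent.W356.HB.Count.count2_
theorem hm' : S_HM := Pool.Agent.W174.HB.hm_
theorem pf' : S_PF := Pool.Agent.W351.HB.PF.pf_ Pool.Agent.W215.HB.bilo_ Pool.Agent.W864.HBm.bilt_
theorem badc' : S_BADC := Pool.Agent.W736.HB.BADC.badc_ lsv' mult' size'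
theorem large' : S_LARGE := Pool.Agent.W461.HB.large_ lsv' common' size'
theorem ana' : S_ANA := ana_ gs' smooth' omega' count' count2' sieve' size' exist' badc' large'
theorem core' : S_CORE := Pool.Agent.W959.HB2.core_ ana' hm' pf'
theorem existu' : S_EXISTU := Pool.Agent.W334.HB.existu_
theorem ldeg' : S_LDEG := Pool.Agent.W505.HB.ldeg_
theorem disc' : S_DISC := Pool.Agent.W460.HB.disc_ ldeg'
theorem choose' : S_CHOOSE := Pool.Agent.W930.HB.choose_
theorem type' : S_TYPE := Pool.Agent.W554.HB.type_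
theorem realt' : S_REALT := Pool.Agent.W928.HB.realt_
theorem t1' : S_T1 := Pool.Agent.W613.HBT.t1_ core' existu' ldeg' disc' choose' type' realt'

end Pool.Agent.W313.HB
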