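import Mathlib
import Pool.Agent.W313.HB.T1Final
import Pool.Agent.W313.HB.AnaDW

set_option autoImplicit false
set_option linter.all false

namespace Pool.Agent.W313.HB

open Finset Polynomial
open Pool.Agent.W313.BMX (Splits)
open Pool.Agent.W959.HB2 (spl_left spl_right sq_of_jac)

open Classical in
theorem corew_ (h1 : S_ANAW) (h2 : S_HM) (h3 : S_PF) : S_COREW := by
  intro P1 P2 hG hl
  obtain ⟨z0, hz0⟩ := h1 P1 P2 hG hl
  refine ⟨max 2 z0, fun N hN hpN T0 ε hε => ?_⟩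
  obtain ⟨A0, hA0⟩ := hz0 N hN (fun p hp hpz => hpN p hp (hpz.trans (le_max_right _ _))) T0 ε hε
  refine ⟨A0, fun A hA => le_trans ?_ (hA0 A hA)⟩
  have h2N : 2 ∣ N := hpN 2 Nat.prime_two (le_max_left _ _)
  norm_cast
  refine card_le_card fun a ha => ?_
  rw [mem_filter] at ha ⊢
  obtain ⟨haI, hsq, t0, hloc, hno⟩ := ha
  refine ⟨haI, hsq, t0, ?_⟩
  rintro ⟨ps, t, hps, hpsN, hNt, hT0, hc⟩
  apply hno
  obtain ⟨c1, c2, c3, c4, c5, c6⟩ := hc
  have ha0 : (a : ℤ) ≠ 0 := by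
    have := (Finset.mem_Icc.1 haI).1
    omega
  have hne : (P1 * P2).eval t ≠ 0 := by
    rw [eval_mul]
    exact mul_ne_zero c1 c2
  have hα : (a : ℤ) * P1.eval t ≠ 0 := mul_ne_zero ha0 c1
  have hβ : (a : ℤ) * P2.eval t ≠ 0 := mul_ne_zero ha0 c2
  have hapos : (0 : ℤ) < a := by
    have := (Finset.mem_Icc.1 haI).1
    omega
  have hR : Splits ((((a : ℤ) * P1.eval t : ℤ)) : ℝ) ((((a : ℤ) * P2.eval t : ℤ)) : ℝ) := by
    rcases c3 with h | h
    · refine spl_left ?_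
      have h4 : (0 : ℝ) ≤ (((a : ℤ) * P1.eval t : ℤ) : ℝ) := by
        exact_mod_cast (mul_pos hapos h).le
      exact ⟨√_, (Real.mul_self_sqrt h4).symm⟩
    · refine spl_right ?_
      have h4 : (0 : ℝ) ≤ (((a : ℤ) * P2.eval t : ℤ) : ℝ) := by
        exact_mod_cast (mul_pos hapos h).le
      exact ⟨√_, (Real.mul_self_sqrt h4).symm⟩
  have hp : ∀ (p : ℕ) [Fact p.Prime], p ≠ ps →
      Splits ((((a : ℤ) * P1.eval t : ℤ)) : ℚ_[p]) ((((a : ℤ) * P2.eval t : ℤ)) : ℚ_[p]) := by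
    intro p hpf hpps
    by_cases hpN' : p ∣ N
    · exact hloc p hpN' t hNt hne
    have hp2 : p ≠ 2 := fun h => hpN' (h ▸ h2N)
    by_cases hpa : p ∣ a
    · have h4 := c4 p hpf.out hpN' hpa hpps
      obtain ⟨s, hs⟩ := sq_of_jac p hp2 _ h4
      refine ⟨((a : ℤ) : ℚ_[p]) * s, (((a : ℤ) * P1.eval t : ℤ) : ℚ_[p]), 0,
        Or.inr (Or.inl ?_), ?_⟩
      · exact_mod_cast hα
      · push_cast at hs ⊢
        linear_combination ((a : ℚ_[p]) ^ 3 * ((P1.eval t : ℤ) : ℚ_[p])) * hs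
    · by_cases hq1 : (p : ℤ) ∣ P1.eval t
      · have h4 := c5 p hpf.out hpN' hpa hq1
        exact spl_right (sq_of_jac p hp2 _ h4)
      · by_cases hq2 : (p : ℤ) ∣ P2.eval t
        · have h4 := c6 p hpf.out hpN' hpa hq2
          exact spl_left (sq_of_jac p hp2 _ h4)
        · have hpa' : ¬ (p : ℤ) ∣ (a : ℤ) := fun h => hpa (by exact_mod_cast h)
          exact Pool.Agent.W335.BMX.odd2 p hp2 _ _
            (fun h => (Int.Prime.dvd_mul' hpf.out h).elim hpa' hq1)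
            (fun h => (Int.Prime.dvd_mul' hpf.out h).elim hpa' hq2)
  refine ⟨t, hNt, hT0, hne, h2 _ _ hα hβ hR fun p hpf => ?_⟩
  by_cases h : p = ps
  · subst h
    exact h3 _ _ hα hβ p hR hp
  · exact hp p h

theorem corew' : S_COREW := corew_ (anaw_ gs' smooth' omega' count' count2' sieve' size' exist'
  badc' large') hm' pf'

end Pool.Agent.W313.HB
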