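import Mathlib
import Pool.Agent.W313.HB.CoreW
import Pool.Agent.W356.HB.T1W
import Pool.Agent.W863.HB.Typew
import Pool.Agent.W378.HB.Realtw
import Pool.Agent.W372.HB.Qapp

set_option autoImplicit false
set_option linter.all false

namespace Pool.Agent.W313.HB

theorem typew' : S_TYPEW := Pool.Agent.W863.HB.typew_
theorem realtw' : S_REALTW := Pool.Agent.W378.HB.realtw_
theorem qapp' : S_QAPP := Pool.Agent.W372.HB.qapp_
theorem t1w' : S_T1W := Pool.Agent.W356.HBW.t1w_ corew' existu' ldeg' disc' choose' typew' realtw' qapp'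

end Pool.Agent.W313.HB
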