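import Mathlib
import Pool.Agent.W313.HB.T1WFinal
import Pool.Agent.W313.HB.AnaE
import Pool.Agent.W681.HB.CoreA2
import Pool.Agent.W782.HB.Gsp
import Pool.Agent.W54.HB.Large3
import Pool.Agent.W125.HB.T2W
import Pool.Agent.W490.HB.T2F

set_option autoImplicit false
set_option linter.all false

namespace Pool.Agent.W313.HB

theorem gsp' : S_GSP := Pool.Agent.W782.HB.gsp_ gs'
theorem large3' : S_LARGE3 := Pool.Agent.W54.HB.large3_ lsv' common' size' mult'
theorem ana2' : S_ANA2 := ana2_ gsp' smooth' omega' count' count2' sieve' size' exist' badc' large' large3'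
theorem core2' : S_CORE2 := Pool.Agent.W681.HB.core2_ ana2' hm' pf'
theorem t2w' : S_T2W := Pool.Agent.W125.HB.T2W.t2w_ core2' existu' ldeg' disc' choose' typew' realtw' qapp'
theorem t2f' : S_T2F := Pool.Agent.W490.HB.t2f_ t2w'

end Pool.Agent.W313.HB
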