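import Mathlib
import Pool.Agent.W313.HB.T2Final
import Pool.Agent.W303.HB.DPair
import Pool.Agent.W479.HB.Done
import Pool.Agent.W505.HB.ELSB2
import Pool.Agent.W320.HB.Elsb1
import Pool.Agent.W538.HB.Xapp
import Pool.Agent.W975.HB.Ratio2
import Pool.Agent.W236.HB.Ratio1

set_option autoImplicit false
set_option linter.all false

namespace Pool.Agent.W313.HB

theorem dpair' : S_DPAIR := Pool.Agent.W303.HB.dpair_
theorem done' : S_DONE := Pool.Agent.W479.HB.done_
theorem elsb2' : S_ELSB2 := Pool.Agent.W505.HB.ELSB2.elsb2_ exist' ldeg' disc'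
theorem elsb1' : S_ELSB1 := Pool.Agent.W320.HB.elsb1_ exist' ldeg' disc'
theorem xapp' : S_XAPP := Pool.Agent.W538.HB.xapp_
theorem ratio2' : S_RATIO2 := Pool.Agent.W975.HB.ratio2_ t2f' dpair' elsb2' xapp'
theorem ratio1' : S_RATIO1 := Pool.Agent.W236.HB.ratio1_ t1w' done' elsb1' xapp'

end Pool.Agent.W313.HB
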