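import Mathlib
import Pool.Agent.W313.HB.AnaCG
import Pool.Agent.W313.HB.AnaD

set_option autoImplicit false
set_option linter.all false
set_option maxHeartbeats 4000000

namespace Pool.Agent.W313.HB

open Finset Polynomial

/-- large primes do not divide the three coefficients -/
lemma res_primeG {PA PB PD : ℤ[X]} (h : ((PB ^ 2 - PA * PD).map (Int.castRingHom ℚ)).Separable) :
    ∃ z : ℕ, ∀ q : ℕ, q.Prime → z < q → ∀ x : ℤ, (q : ℤ) ∣ (PB ^ 2 - PA * PD).eval x →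
      (q : ℤ) ∣ PA.eval x → ¬ (q : ℤ) ∣ PD.eval x := by
  obtain ⟨D, u, v, hD, huv⟩ := Pool.Agent.W460.HB.bezout (PB ^ 2 - PA * PD) h
  refine ⟨D.natAbs, fun q hqp hq x h0 h1 h2 => ?_⟩
  have hB : (q : ℤ) ∣ PB.eval x := by
    have h4 : (q : ℤ) ∣ (PB.eval x) ^ 2 := by
      simp only [eval_sub, eval_mul, eval_pow] at h0
      have h5 : (PB.eval x) ^ 2 = ((PB.eval x) ^ 2 - PA.eval x * PD.eval x) + PA.eval x * PD.eval x := by
        ring
      rw [h5]
      exact dvd_add h0 (h1.mul_right _)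
    exact Int.Prime.dvd_pow' hqp h4
  have h3 := congrArg (fun f => f.eval x) huv
  simp only [eval_add, eval_mul, eval_C, eval_sub, eval_pow, derivative_sub, derivative_mul,
    derivative_pow] at h3
  have h4 : (q : ℤ) ∣ D := by
    rw [← h3]
    apply dvd_add
    · apply Dvd.dvd.mul_left
      exact dvd_sub (hB.pow (by norm_num)) (h1.mul_right _)
    · apply Dvd.dvd.mul_left
      apply dvd_sub
      · apply Dvd.dvd.mul_right
        norm_num
        exact hB.mul_left _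
      · exact dvd_add (h2.mul_left _) (h1.mul_right _)
  have h5 := Int.natAbs_dvd_natAbs.2 h4
  rw [Int.natAbs_natCast] at h5
  have := Nat.le_of_dvd (Int.natAbs_pos.2 hD) h5
  omega

theorem anag_ (hgs : S_GS) (hsmooth : S_SMOOTH) (homega : S_OMEGA) (hcount : S_COUNT)
    (hcount2 : S_COUNT2) (hsieve : S_SIEVE) (hsize : S_SIZE) (hexist : S_EXIST) (hbadc : S_BADC)
    (hlarge : S_LARGE) : S_ANAG := by
  classical
  intro PA PB PD hG hlc
  have hP0 : PB ^ 2 - PA * PD ≠ 0 := by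
    intro h
    have h1 := hG.2
    rw [h, natDegree_zero] at h1
    omega
  have hPA : PA ≠ 0 := by
    rintro rfl
    rw [zero_mul, sub_zero] at hG
    have h1 := hG.1
    rw [Polynomial.map_pow, pow_two] at h1
    have h2 : IsUnit (PB.map (Int.castRingHom ℚ)) := by
      have h3 := h1.squarefree
      exact h3 _ (dvd_refl _)
    have h4 := hG.2
    have h5 : (PB.map (Int.castRingHom ℚ)).natDegree = PB.natDegree :=
      natDegree_map_eq_of_injective (RingHom.injective_int _) PB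
    rw [natDegree_pow, ← h5, natDegree_eq_zero_of_isUnit h2] at h4
    omega
  obtain ⟨Cb, Ub, hb⟩ := hbadc (PB ^ 2 - PA * PD) hG
  obtain ⟨CL, CL', UL, EL, hCL, hL⟩ := hlarge (PB ^ 2 - PA * PD) hP0
  obtain ⟨Cs, Us, hs⟩ := hsize (PB ^ 2 - PA * PD) hP0
  obtain ⟨Cs1, Us1, hs1⟩ := hsize PA hPA
  obtain ⟨zv, Csv, hv⟩ := hsieve (PB ^ 2 - PA * PD) hP0
  obtain ⟨ze, he⟩ := hexist (PB ^ 2 - PA * PD) (PB ^ 2 - PA * PD) hG hP0
  obtain ⟨zr, hr⟩ := res_primeG hG.1
  refine ⟨2 + zv + ze + zr, fun N hN hpr T0 ε hε => ?_⟩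
  have hbig : ∀ q : ℕ, q.Prime → ¬ q ∣ N → 2 + zv + ze + zr < q := by
    intro q hq hqN
    by_contra h
    exact hqN (hpr q hq (not_lt.1 h))
  have h2N : 2 ∣ N := hpr 2 Nat.prime_two (by omega)
  obtain ⟨η, A1, hη0, hη1, hsm⟩ := hsmooth (ε / 4) (by positivity)
  obtain ⟨K, A2, hK, hom⟩ := homega (ε / 8) (by positivity)
  set C1 := max Cb Cs with hC1
  obtain ⟨J, R, hR, hgsJ⟩ := hgs (ε / 4) (2 * C1 + 1) (by positivity) (by
    have := Nat.cast_nonneg (α := ℝ) C1; linarith)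
  set Λ : ℝ := R ^ (J + 1) with hΛ
  have hΛ1 : 1 ≤ Λ := one_le_pow₀ hR
  set KE : ℝ := max (4 * K + 8) (4 * C1 * Λ) with hKE
  obtain ⟨Uv, hUv⟩ := hv KE
  have hnum := num C1 Csv CL' (Ub + UL + Us + Us1 + Uv + T0.toNat) EL N K KE Λ CL hK hΛ1 hCL
    (le_max_left _ _) (le_max_right _ _)
  -- further conditions on l
  have c1 : ∀ᶠ l : ℝ in Filter.atTop, R ^ (J + 2) * l ^ 2 ≤ 1 * Real.exp l :=
    ev_sq _ _ one_pos
  have c2 : ∀ᶠ l : ℝ in Filter.atTop, (2 + (2 + 2 * CL' * Λ)) * l ^ 2 ≤ η * Real.exp l :=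
    ev_sq _ _ hη0
  have c3 : ∀ᶠ l : ℝ in Filter.atTop, ((2 * C1 + 1) * Λ + 1) * l ^ 2 ≤ η * Real.exp l :=
    ev_sq _ _ hη0
  have c4 : ∀ᶠ l : ℝ in Filter.atTop, (J : ℝ) * N * (4 * Real.exp (-(1 / 20) * l ^ 2 +
      (4 * K + 2) * l) * (1 + Real.exp l) ^ 2) ≤ ε / 8 := by
    have h1 : ∀ᶠ l : ℝ in Filter.atTop, 20 * (4 * K + 5) ≤ l := Filter.eventually_ge_atTop _
    have h2 : ∀ᶠ l : ℝ in Filter.atTop, (J : ℝ) * N * 16 * (8 / ε) ≤ Real.exp l :=
      Real.tendsto_exp_atTop.eventually_ge_atTop _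
    filter_upwards [h1, h2, Filter.eventually_ge_atTop 0] with l h1 h2 h3
    have h4 : (1 + Real.exp l) ^ 2 ≤ 4 * Real.exp (2 * l) := by
      have h5 : 1 ≤ Real.exp l := Real.one_le_exp h3
      have h6 : Real.exp (2 * l) = Real.exp l ^ 2 := by rw [← Real.exp_nat_mul]; norm_num
      rw [h6]; nlinarith
    have h5 : Real.exp (-(1 / 20) * l ^ 2 + (4 * K + 2) * l) * Real.exp (2 * l) ≤ Real.exp (-l) := by
      rw [← Real.exp_add]
      apply Real.exp_le_exp.2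
      have : 20 * (4 * K + 5) * l ≤ l * l := mul_le_mul_of_nonneg_right h1 h3
      nlinarith
    calc (J : ℝ) * N * (4 * Real.exp (-(1 / 20) * l ^ 2 + (4 * K + 2) * l) * (1 + Real.exp l) ^ 2)
        ≤ (J : ℝ) * N * (4 * Real.exp (-(1 / 20) * l ^ 2 + (4 * K + 2) * l) *
          (4 * Real.exp (2 * l))) := by gcongr
      _ = (J : ℝ) * N * 16 * (Real.exp (-(1 / 20) * l ^ 2 + (4 * K + 2) * l) * Real.exp (2 * l)) := by
          ring
      _ ≤ (J : ℝ) * N * 16 * Real.exp (-l) := by gcongr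
      _ ≤ ε / 8 := by
          rw [Real.exp_neg, ← div_eq_mul_inv, div_le_iff₀ (Real.exp_pos _)]
          calc (J : ℝ) * N * 16 = ε / 8 * ((J : ℝ) * N * 16 * (8 / ε)) := by field_simp
            _ ≤ ε / 8 * Real.exp l := by gcongr
  have c5 : ∀ᶠ l : ℝ in Filter.atTop, (J : ℝ) * N * (Real.exp (-2 * l) * (1 + Real.exp l)) ≤
      ε / 8 := by
    have h2 : ∀ᶠ l : ℝ in Filter.atTop, (J : ℝ) * N * 2 * (8 / ε) ≤ Real.exp l :=
      Real.tendsto_exp_atTop.eventually_ge_atTop _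
    filter_upwards [h2, Filter.eventually_ge_atTop 0] with l h2 h3
    have h4 : Real.exp (-2 * l) * (1 + Real.exp l) ≤ 2 * Real.exp (-l) := by
      have h5 : 1 ≤ Real.exp l := Real.one_le_exp h3
      calc Real.exp (-2 * l) * (1 + Real.exp l) ≤ Real.exp (-2 * l) * (2 * Real.exp l) := by
            gcongr; linarith
        _ = 2 * (Real.exp (-2 * l) * Real.exp l) := by ring
        _ = 2 * Real.exp (-l) := by rw [← Real.exp_add]; congr 2; ring
    calc (J : ℝ) * N * (Real.exp (-2 * l) * (1 + Real.exp l)) ≤ (J : ℝ) * N * (2 * Real.exp (-l)) := by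
          gcongr
      _ = (J : ℝ) * N * 2 * Real.exp (-l) := by ring
      _ ≤ ε / 8 := by
          rw [Real.exp_neg, ← div_eq_mul_inv, div_le_iff₀ (Real.exp_pos _)]
          calc (J : ℝ) * N * 2 = ε / 8 * ((J : ℝ) * N * 2 * (8 / ε)) := by field_simp
            _ ≤ ε / 8 * Real.exp l := by gcongr
  have hll : Filter.Tendsto (fun A : ℕ => Real.log (Real.log (A : ℝ))) Filter.atTop Filter.atTop :=
    Real.tendsto_log_atTop.comp (Real.tendsto_log_atTop.comp tendsto_natCast_atTop_atTop)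
  have hall := (((((hnum.and c1).and c2).and c3).and c4).and c5)
  have hevA := hll.eventually hall
  obtain ⟨A3, hA3⟩ := Filter.eventually_atTop.1 hevA
  refine ⟨max (max A1 A2) (max A3 3), fun A hA => ?_⟩
  have hAA1 : A1 ≤ A := (le_max_left _ _).trans ((le_max_left _ _).trans hA)
  have hAA2 : A2 ≤ A := (le_max_right _ _).trans ((le_max_left _ _).trans hA)
  have hAA3 : A3 ≤ A := (le_max_left _ _).trans ((le_max_right _ _).trans hA)
  have hA3' : 3 ≤ A := (le_max_right _ _).trans ((le_max_right _ _).trans hA)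
  obtain ⟨⟨⟨⟨⟨hn, d1⟩, d2⟩, d3⟩, d4⟩, d5⟩ := hA3 A hAA3
  set l : ℝ := Real.log (Real.log (A : ℝ)) with hl
  obtain ⟨hl1, hn⟩ := hn
  have hApos : (0 : ℝ) < A := by
    have : (3 : ℝ) ≤ A := by exact_mod_cast hA3'
    linarith
  have hlogA : Real.log A = Real.exp l := by
    rw [hl, Real.exp_log]
    apply Real.log_pos
    have : (3 : ℝ) ≤ A := by exact_mod_cast hA3'
    linarith
  -- the scales
  set g : ℕ → ℝ := fun j => R ^ (j + 1) * l ^ 2 with hg
  have hg0 : R ≤ g 0 := by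
    simp only [hg]
    have : 1 ≤ l ^ 2 := one_le_pow₀ hl1
    calc R = R ^ (0 + 1) * 1 := by ring
      _ ≤ R ^ (0 + 1) * l ^ 2 := by gcongr
  have hgS : ∀ j, R * g j ≤ g (j + 1) := by
    intro j
    simp only [hg]
    exact le_of_eq (by ring)
  have hgJ : R * g J ≤ Real.log A := by
    rw [hlogA]
    simp only [hg]
    refine le_trans (le_of_eq ?_) (d1.trans (le_of_eq (one_mul _)))
    ring
  have hgs1 := hgsJ g hg0 hgS A hgJ
  have hsm1 := hsm A hAA1
  have hom1 := hom A hAA2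
  -- parameters
  set U : ℕ → ℕ := fun j => ⌊Real.exp (2 * g j)⌋₊ with hU
  set y : ℕ → ℕ := fun j => ⌊Real.exp ((2 * C1 + 1) * g j)⌋₊ with hy
  set E : ℕ := ⌊Real.exp (KE * l)⌋₊ with hE
  set k0 : ℕ := ⌊K * l⌋₊ with hk0
  set T : ℕ := 2 ^ ⌊l⌋₊ with hT
  set S : ℕ → ℕ := fun j => ⌊Real.exp (g j)⌋₊ with hS
  set V : ℕ → ℝ := fun j => (U j : ℝ) / (1 + Real.log E) ^ Csv with hV
  set δ : ℕ → ℝ := fun j => (U j : ℝ) ^ (-(1 / 20) : ℝ) * Real.exp ((4 * K + 2) * l) with hδ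
  set X0 : ℕ → ℕ := fun j => ⌈2 * Real.exp (2 * l) * (U j : ℝ) ^ CL'⌉₊ with hX0
  have hgl : ∀ j, l ^ 2 ≤ g j := by
    intro j
    simp only [hg]
    have : 1 ≤ R ^ (j + 1) := one_le_pow₀ hR
    nlinarith [sq_nonneg l]
  have hgu : ∀ j, j < J → g j ≤ Λ * l ^ 2 := by
    intro j hj
    simp only [hg, hΛ]
    have : R ^ (j + 1) ≤ R ^ (J + 1) := pow_le_pow_right₀ hR (by omega)
    exact mul_le_mul_of_nonneg_right this (sq_nonneg l)
  -- the exceptional sets
  set X1 : Finset ℕ := (Icc 1 A).filter (fun a : ℕ => Squarefree a ∧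
    ∀ p : ℕ, p ∈ a.primeFactors → (p : ℝ) ≤ (A : ℝ) ^ η) with hX1
  set X2 : Finset ℕ := (Icc 1 A).filter (fun a : ℕ =>
    K * Real.log (Real.log A) < (a.primeFactors.card : ℝ)) with hX2
  set X3 : Finset ℕ := (Icc 1 A).filter (fun a : ℕ => Squarefree a ∧
      ∀ j < J, Real.exp (g j) < (sm ⌊Real.exp ((2 * C1 + 1) * g j)⌋₊ a : ℝ)) with hX3
  set X4 : ℕ → ℕ → Finset ℕ := fun j t0 => (Icc 1 A).filter (fun a : ℕ => Squarefree a ∧
    a.primeFactors.card ≤ k0 ∧ sm (y j) a ≤ S j ∧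
      (∃ p ∈ a.primeFactors, (∀ q ∈ a.primeFactors, q ≤ p) ∧ y j < p ∧ (a / p) * X0 j ≤ A) ∧
      ¬ ∃ (ps : ℕ) (t : ℤ), ps.Prime ∧ ¬ ps ∣ N ∧ (N : ℤ) ∣ t - t0 ∧ T0 ≤ t ∧
        CondG PA PB PD N a ps t) with hX4
  have hX4b : ∀ j ∈ range J, ∀ t0 ∈ range N, ((X4 j t0).card : ℝ) ≤
      4 * Real.exp (-(1 / 20) * l ^ 2 + (4 * K + 2) * l) * (1 + Real.exp l) ^ 2 * A +
      Real.exp (-2 * l) * (1 + Real.exp l) * A := by
    intro j hj t0 ht0
    have hjJ : j < J := Finset.mem_range.1 hj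
    obtain ⟨f1, f2, f3, f4, f5, f6, f7, f8, f9, f10, f11, f12, f13, f14, f15, f16, f17, f18⟩ :=
      hn (g j) (hgl j) (hgu j hjJ) (U j) (y j) E k0 T (S j) (X0 j) (V j) (δ j)
      rfl rfl rfl rfl rfl rfl rfl rfl rfl
    have hU1 : 1 ≤ U j := by
      have : 1 ≤ T := f10
      omega
    have hsc := scale1g (T0 := T0) (PA := PA) (PB := PB) (PD := PD) (N := N) (t0 := t0) (U := U j) (y := y j) (E := E)
      (k0 := k0) (T := T) (X0 := X0 j) (S := S j) (A := A) (C1 := C1) (V := V j) (δ := δ j)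
      (δ2 := Real.exp (-2 * l)) (L1 := CL * (T : ℝ) ^ 3 * ((U j : ℝ) ^ 2 / E + U j))
      (L2 := (U j : ℝ) ^ CL') (by have := Int.self_le_toNat T0; omega) hcount hcount2 (by omega) f14 hN h2N f4 f5 f6 f3 f7 f17
      (Real.exp_pos _).le ?_ ?_ ?_ ?_ ?_ ?_ f9 f10 f12 f13
    · refine hsc.trans ?_
      rw [hlogA]
      have g1 : 4 * δ j * A * (1 + Real.exp l) ^ 2 ≤
          4 * Real.exp (-(1 / 20) * l ^ 2 + (4 * K + 2) * l) * (1 + Real.exp l) ^ 2 * A := by
        calc 4 * δ j * A * (1 + Real.exp l) ^ 2 = 4 * (1 + Real.exp l) ^ 2 * A * δ j := by ring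
          _ ≤ 4 * (1 + Real.exp l) ^ 2 * A * Real.exp (-(1 / 20) * l ^ 2 + (4 * K + 2) * l) := by
              apply mul_le_mul_of_nonneg_left f18 (by positivity)
          _ = _ := by ring
      have g2 : Real.exp (-2 * l) * A * (1 + Real.exp l) =
          Real.exp (-2 * l) * (1 + Real.exp l) * A := by ring
      rw [g2]
      linarith
    · intro M t1 h1 h2 h3 G hGs B hB
      apply hb (U j) (by omega) M t1 h1 h2 h3 G hGs B
      exact (Nat.pow_le_pow_right hU1 (le_max_left _ _)).trans hB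
    · intro M t1 h1 h2 h3 I c h4 h5 h6 X
      have h7 := hL (U j) (by omega) E f2 M t1 h1 h2 h3 I c T f11 h4 h5 h6 X
      refine h7.trans (le_of_eq ?_)
      ring
    · intro M t1 u h1 h2 h3 h4 h5
      have h6 := hs (U j) (by omega) M t1 u h1 h2 h3 h4 h5
      refine ⟨h6.1, h6.2.1.trans ?_, ?_, (hs1 (U j) (by omega) M t1 u h1 h2 h3 h4 h5).1⟩
      · have h7 : (U j) ^ Cs ≤ (U j) ^ C1 := Nat.pow_le_pow_right hU1 (le_max_right _ _)
        exact_mod_cast h7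
      · rcases hlc with h7 | h7
        · exact Or.inl ((hs1 (U j) (by omega) M t1 u h1 h2 h3 h4 h5).2.2 h7)
        · exact Or.inr (h6.2.2 h7)
    · intro M t1 Q hQ
      apply hUv (U j) (by omega) E f3 f8 M t1 Q
      intro q hq
      obtain ⟨h1, h2, h3, h4⟩ := hQ q hq
      have := hbig q h1 h4
      exact ⟨h1, by omega, h2, h3⟩
    · intro p hp hpN
      have := hbig p hp hpN
      exact he p hp (by omega) 1 (Or.inl rfl)
    · intro q hq hqN x h1
      have := hbig q hq hqN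
      exact hr q hq (by omega) x h1
  have hsub : (Icc 1 A).filter (fun a : ℕ => Squarefree a ∧ ∃ t0 : ℕ,
      ¬ ∃ (ps : ℕ) (t : ℤ), ps.Prime ∧ ¬ ps ∣ N ∧ (N : ℤ) ∣ t - t0 ∧ T0 ≤ t ∧ CondG PA PB PD N a ps t) ⊆
      ((X1 ∪ X2) ∪ X3) ∪ (range J).biUnion (fun j => (range N).biUnion (fun t0 => X4 j t0)) := by
    intro a ha
    rw [Finset.mem_filter] at ha
    obtain ⟨haA, hsq, t0, hno⟩ := ha
    rw [Finset.mem_union, Finset.mem_union, Finset.mem_union]
    by_contra hcon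
    push Not at hcon
    obtain ⟨⟨⟨hx1, hx2⟩, hx3⟩, hx4⟩ := hcon
    have ha0 : a ≠ 0 := hsq.ne_zero
    have hx1' : ∃ p : ℕ, p ∈ a.primeFactors ∧ (A : ℝ) ^ η < (p : ℝ) := by
      by_contra h
      push Not at h
      exact hx1 (Finset.mem_filter.2 ⟨haA, hsq, h⟩)
    have hx2' : (a.primeFactors.card : ℝ) ≤ K * l := by
      by_contra h
      exact hx2 (Finset.mem_filter.2 ⟨haA, not_le.1 h⟩)
    have hx3' : ∃ j, j < J ∧ (sm ⌊Real.exp ((2 * C1 + 1) * g j)⌋₊ a : ℝ) ≤ Real.exp (g j) := by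
      by_contra h
      push Not at h
      exact hx3 (Finset.mem_filter.2 ⟨haA, hsq, h⟩)
    obtain ⟨p1, hp1, hp1A⟩ := hx1'
    obtain ⟨j, hjJ, hj⟩ := hx3'
    obtain ⟨p, hp, hpmax⟩ := Finset.exists_max_image a.primeFactors id ⟨p1, hp1⟩
    have hpA : (A : ℝ) ^ η < (p : ℝ) := hp1A.trans_le (by exact_mod_cast hpmax p1 hp1)
    apply hx4
    rw [Finset.mem_biUnion]
    refine ⟨j, Finset.mem_range.2 hjJ, ?_⟩
    rw [Finset.mem_biUnion]
    refine ⟨t0 % N, Finset.mem_range.2 (Nat.mod_lt _ (by omega)), ?_⟩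
    rw [hX4, Finset.mem_filter]
    obtain ⟨f1, f2, f3, f4, f5, f6, f7, f8, f9, f10, f11, f12, f13, f14, f15, f16, f17, f18⟩ :=
      hn (g j) (hgl j) (hgu j hjJ) (U j) (y j) E k0 T (S j) (X0 j) (V j) (δ j)
      rfl rfl rfl rfl rfl rfl rfl rfl rfl
    have hAη : (A : ℝ) ^ η = Real.exp (η * Real.exp l) := by
      rw [Real.rpow_def_of_pos hApos, hlogA, mul_comm]
    refine ⟨haA, hsq, ?_, ?_, ⟨p, hp, fun q hq => hpmax q hq, ?_, ?_⟩, ?_⟩
    · exact Nat.le_floor hx2'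
    · exact Nat.le_floor hj
    · have h1 : (y j : ℝ) < (p : ℝ) := by
        refine f16.trans_lt (lt_trans ?_ hpA)
        rw [hAη]
        apply Real.exp_lt_exp.2
        have h2 : 1 ≤ l ^ 2 := one_le_pow₀ hl1
        have h3 : ((2 * (C1 : ℝ) + 1) * Λ + 1) * l ^ 2 = (2 * C1 + 1) * Λ * l ^ 2 + l ^ 2 := by ring
        rw [h3] at d3
        linarith
      exact_mod_cast h1
    · have hpp : p.Prime := Nat.prime_of_mem_primeFactors hp
      have hp0 : (0 : ℝ) < p := by exact_mod_cast hpp.pos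
      have h1 : ((a / p * X0 j : ℕ) : ℝ) ≤ A := by
        push_cast
        have h2 : ((a / p : ℕ) : ℝ) ≤ A / p := by
          refine Nat.cast_div_le.trans ?_
          apply div_le_div_of_nonneg_right _ hp0.le
          exact_mod_cast (Finset.mem_Icc.1 haA).2
        have h3 : (X0 j : ℝ) ≤ p := by
          refine f15.trans (le_trans ?_ hpA.le)
          rw [hAη]
          have h4 : (3 : ℝ) ≤ Real.exp (2 * l ^ 2) := by
            have h5 : 1 ≤ l ^ 2 := one_le_pow₀ hl1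
            have h6 := Real.add_one_le_exp (2 * l ^ 2)
            linarith
          calc 3 * Real.exp ((2 + 2 * CL' * Λ) * l ^ 2) ≤
              Real.exp (2 * l ^ 2) * Real.exp ((2 + 2 * CL' * Λ) * l ^ 2) := by gcongr
            _ = Real.exp ((2 + (2 + 2 * CL' * Λ)) * l ^ 2) := by rw [← Real.exp_add]; congr 1; ring
            _ ≤ Real.exp (η * Real.exp l) := Real.exp_le_exp.2 d2
        calc ((a / p : ℕ) : ℝ) * (X0 j : ℝ) ≤ A / p * p := by gcongr
          _ = A := by field_simp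
      exact_mod_cast h1
    · rintro ⟨ps, t, h1, h2, h3, h3', h4⟩
      apply hno
      refine ⟨ps, t, h1, h2, ?_, h3', h4⟩
      have h5 : (N : ℤ) ∣ ((t0 % N : ℕ) : ℤ) - (t0 : ℤ) :=
        Nat.modEq_iff_dvd.1 (Nat.mod_modEq t0 N).symm
      have h6 : t - (t0 : ℤ) = (t - ((t0 % N : ℕ) : ℤ)) + (((t0 % N : ℕ) : ℤ) - (t0 : ℤ)) := by ring
      rw [h6]
      exact dvd_add h3 h5
  have hcard := Finset.card_le_card hsub
  have hc1 := Finset.card_union_le ((X1 ∪ X2) ∪ X3)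
    ((range J).biUnion (fun j => (range N).biUnion (fun t0 => X4 j t0)))
  have hc2 := Finset.card_union_le (X1 ∪ X2) X3
  have hc3 := Finset.card_union_le X1 X2
  set Q : ℝ := 4 * Real.exp (-(1 / 20) * l ^ 2 + (4 * K + 2) * l) * (1 + Real.exp l) ^ 2 * A +
      Real.exp (-2 * l) * (1 + Real.exp l) * A with hQ
  have hc4 : ((((range J).biUnion (fun j => (range N).biUnion (fun t0 => X4 j t0))).card : ℕ) : ℝ) ≤
      J * (N * Q) := by
    have h1 : ((((range J).biUnion (fun j => (range N).biUnion (fun t0 => X4 j t0))).card : ℕ) : ℝ) ≤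
        ∑ j ∈ range J, ∑ t0 ∈ range N, ((X4 j t0).card : ℝ) := by
      have h2 := Finset.card_biUnion_le (s := range J)
        (t := fun j => (range N).biUnion (fun t0 => X4 j t0))
      have h3 : ∑ j ∈ range J, ((range N).biUnion (fun t0 => X4 j t0)).card ≤
          ∑ j ∈ range J, ∑ t0 ∈ range N, (X4 j t0).card :=
        Finset.sum_le_sum fun j _ => Finset.card_biUnion_le
      exact_mod_cast h2.trans h3
    refine h1.trans ?_
    calc ∑ j ∈ range J, ∑ t0 ∈ range N, ((X4 j t0).card : ℝ) ≤ ∑ j ∈ range J, ∑ t0 ∈ range N, Q :=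
          Finset.sum_le_sum fun j hj => Finset.sum_le_sum fun t0 ht0 => hX4b j hj t0 ht0
      _ = J * (N * Q) := by simp
  have hJQ : (J : ℝ) * (N * Q) ≤ ε / 4 * A := by
    have h1 : (J : ℝ) * (N * Q) = ((J : ℝ) * N * (4 * Real.exp (-(1 / 20) * l ^ 2 +
      (4 * K + 2) * l) * (1 + Real.exp l) ^ 2)) * A +
      ((J : ℝ) * N * (Real.exp (-2 * l) * (1 + Real.exp l))) * A := by rw [hQ]; ring
    rw [h1]
    have h2 := mul_le_mul_of_nonneg_right d4 hApos.le
    have h3 := mul_le_mul_of_nonneg_right d5 hApos.le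
    linarith
  have hfin : ((((Icc 1 A).filter (fun a : ℕ => Squarefree a ∧ ∃ t0 : ℕ,
      ¬ ∃ (ps : ℕ) (t : ℤ), ps.Prime ∧ ¬ ps ∣ N ∧ (N : ℤ) ∣ t - t0 ∧ T0 ≤ t ∧
        CondG PA PB PD N a ps t)).card : ℕ) : ℝ) ≤
      (X1.card : ℝ) + X2.card + X3.card +
      (((range J).biUnion (fun j => (range N).biUnion (fun t0 => X4 j t0))).card : ℝ) := by
    exact_mod_cast hcard.trans (hc1.trans (Nat.add_le_add_right (hc2.trans
      (Nat.add_le_add_right hc3 _)) _))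
  refine hfin.trans ?_
  have hX3c : (X3.card : ℝ) ≤ ε / 4 * A := hgs1
  have hX1c : (X1.card : ℝ) ≤ ε / 4 * A := hsm1
  have hX2c : (X2.card : ℝ) ≤ ε / 8 * A := hom1
  have hεA : 0 ≤ ε * A := by positivity
  linarith

end Pool.Agent.W313.HB
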