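import Mathlib
import Pool.Agent.W313.HB.RatioFinal
import Pool.Agent.W313.HB.AnaDG
import Pool.Agent.W578.HB.CoreG
import Pool.Agent.W346.HB.T1G
import Pool.Agent.W346.HB.ELSBG
import Pool.Agent.W756.HB.Pertr
import Pool.Agent.W240.HB.PERTP
import Pool.Agent.W681.HB.RatioG

set_option autoImplicit false
set_option linter.all false

namespace Pool.Agent.W313.HB

theorem anag' : S_ANAG := anag_ gs' smooth' omega' count' count2' sieve' size' exist' badc' large'
theorem coreg' : S_COREG := Pool.Agent.W578.HB.coreg_ anag' hm' pf'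
theorem t1g' : S_T1G := Pool.Agent.W346.HB.t1g_ coreg' existu' ldeg' disc' choose' typew' realtw' qapp'
theorem elsbg' : S_ELSBG := Pool.Agent.W346.HB.elsbg_ exist' ldeg' disc'
theorem pertr' : S_PERTR := Pool.Agent.W756.HB.pertr_
theorem pertp' : S_PERTP := Pool.Agent.W240.HB.PERTP.pertp_
theorem ratiog' : S_RATIOG := Pool.Agent.W681.HB.ratiog_ t1g' done' elsbg' xapp' pertr' pertp'

end Pool.Agent.W313.HB
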